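import Pool.Agent.H49BJ.Defs

/-!
# Semicontinuity of the rank at generic points
-/

open Matrix Module

namespace Pool.Agent.H49BJ

section P2

theorem exists_cols {m n F : Type*} [Fintype m] [Fintype n] [Field F] (A : Matrix m n F)
    {r : ℕ} (hr : A.rank = r) : ∃ g : Fin r → n, LinearIndependent F (A.submatrix id g).col := by
  classical
  have hr' : finrank F (Submodule.span F (Set.range A.col)) = r := by
    rw [← Matrix.rank_eq_finrank_span_cols, hr]
  obtain ⟨f, hf, -, hli⟩ := Submodule.exists_fun_fin_finrank_span_eq F (Set.range A.col)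
  choose g hg using hf
  refine ⟨fun i => g (Fin.cast hr'.symm i), ?_⟩
  have h2 := hli.comp (Fin.cast hr'.symm) (Fin.cast_injective _)
  have e : (A.submatrix id (fun i => g (Fin.cast hr'.symm i))).col =
      f ∘ Fin.cast hr'.symm := by
    funext i
    simp only [Function.comp_apply]
    rw [← hg]
    rfl
  rw [e]
  exact h2

/-- A matrix of rank `r` has an invertible `r x r` submatrix. -/
theorem exists_minor {m n F : Type*} [Fintype m] [Fintype n] [Field F] (A : Matrix m n F)
    {r : ℕ} (hr : A.rank = r) :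
    ∃ (f : Fin r → m) (g : Fin r → n), (A.submatrix f g).det ≠ 0 := by
  classical
  obtain ⟨g, hg⟩ := exists_cols A hr
  have h1 : (A.submatrix id g)ᵀ.rank = r := by
    have := LinearIndependent.rank_matrix (M := (A.submatrix id g)ᵀ) hg
    rwa [Fintype.card_fin] at this
  obtain ⟨f, hf⟩ := exists_cols _ h1
  refine ⟨f, g, ?_⟩
  have h3 : LinearIndependent F (A.submatrix f g).row := hf
  have h4 := (Matrix.linearIndependent_rows_iff_isUnit (A := A.submatrix f g)).1 h3
  exact ((Matrix.isUnit_iff_isUnit_det _).1 h4).ne_zero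

theorem rank_special_le_rank_generic {σ m n F₁ F₂ : Type*} [Fintype m] [Fintype n]
    [DecidableEq n] [Field F₁] [Field F₂] [Algebra ℚ F₁] [Algebra ℚ F₂]
    (P : Matrix m n (MvPolynomial σ ℚ)) (x : σ → F₁) (hx : AlgebraicIndependent ℚ x)
    (y : σ → F₂) :
    (P.map (MvPolynomial.aeval y)).rank ≤ (P.map (MvPolynomial.aeval x)).rank := by
  classical
  set r := (P.map (MvPolynomial.aeval y)).rank with hr
  obtain ⟨f, g, hfg⟩ := exists_minor (P.map (MvPolynomial.aeval y)) hr.symm
  have h1 : (P.submatrix f g).det ≠ 0 := by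
    intro h
    apply hfg
    have h2 : (P.map (MvPolynomial.aeval y)).submatrix f g =
        (MvPolynomial.aeval y).mapMatrix (P.submatrix f g) := rfl
    rw [h2, ← AlgHom.map_det, h, map_zero]
  have h3 : ((P.map (MvPolynomial.aeval x)).submatrix f g).det ≠ 0 := by
    have h2 : (P.map (MvPolynomial.aeval x)).submatrix f g =
        (MvPolynomial.aeval x).mapMatrix (P.submatrix f g) := rfl
    rw [h2, ← AlgHom.map_det]
    intro h
    apply h1
    exact hx (by rw [h, map_zero])
  calc r = ((P.map (MvPolynomial.aeval x)).submatrix f g).rank := by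
        rw [Matrix.rank_of_det_ne_zero h3, Fintype.card_fin]
    _ ≤ _ := Matrix.rank_submatrix_le _ _ _

/-- The kernel at a generic point is the smallest. -/
theorem finrank_ker_le {σ m n F₁ F₂ : Type*} [Fintype m] [Fintype n]
    [DecidableEq n] [Field F₁] [Field F₂] [Algebra ℚ F₁] [Algebra ℚ F₂]
    (P : Matrix m n (MvPolynomial σ ℚ)) (x : σ → F₁) (hx : AlgebraicIndependent ℚ x)
    (y : σ → F₂) :
    finrank F₁ (LinearMap.ker (P.map (MvPolynomial.aeval x)).mulVecLin) ≤
      finrank F₂ (LinearMap.ker (P.map (MvPolynomial.aeval y)).mulVecLin) := by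
  have h1 := (P.map (MvPolynomial.aeval x)).mulVecLin.finrank_range_add_finrank_ker
  have h2 := (P.map (MvPolynomial.aeval y)).mulVecLin.finrank_range_add_finrank_ker
  have h3 := rank_special_le_rank_generic P x hx y
  rw [Matrix.rank, Matrix.rank] at h3
  rw [Module.finrank_pi] at h1 h2
  omega

/-- The formula for `ev` over a commutative ring. -/
def evR {R : Type*} [CommRing R] (a : Fin 6 → R) (p : Fin 4 → R) : Fin 4 → R :=
  ![a 0 * p 1 + a 1 * p 2 + a 2 * p 3,
    - (a 0 * p 0) + a 3 * p 2 + a 4 * p 3,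
    - (a 1 * p 0) - a 3 * p 1 + a 5 * p 3,
    - (a 2 * p 0) - a 4 * p 1 - a 5 * p 2]

theorem map_evR {R K : Type*} [CommRing R] [Field K] (f : R →+* K) (i : Fin 6) (p : Fin 4 → R)
    (k : Fin 4) : f (evR (Pi.single i 1) p k) = ev (Pi.single i 1) (fun l => f (p l)) k := by
  fin_cases i <;> fin_cases k <;> simp [evR, ev]

theorem ev_eq_sum {K : Type*} [Field K] (a : Tw K) (p : Pt K) (k : Fin 4) :
    ev a p k = ∑ i, ev (Pi.single i 1) p k * a i := by
  rw [Fin.sum_univ_six]
  fin_cases k <;> simp [ev] <;> ring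

/-- generic positions are algebraically independent -/
theorem gp_algebraicIndependent (ι : Type*) :
    AlgebraicIndependent ℚ (fun p : ι × Fin 4 => gp ι p.1 p.2) := by
  have h1 := MvPolynomial.algebraicIndependent_X (ι × Fin 4) ℚ
  have h2 := h1.map' (f := IsScalarTower.toAlgHom ℚ (MvPolynomial (ι × Fin 4) ℚ) (GF ι))
    (IsFractionRing.injective (MvPolynomial (ι × Fin 4) ℚ) (GF ι))
  exact h2

/-- the polynomial matrix of the conditions -/
noncomputable def motMat {β ι : Type*} [DecidableEq β] [DecidableEq ι]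
    (B : Finset β) (J : Finset ι) (s t : ι → β) :
    Matrix ((β × Fin 6) ⊕ (ι × Fin 4)) (β × Fin 6) (MvPolynomial (ι × Fin 4) ℚ) :=
  fun r c => match r with
    | Sum.inl b => if b.1 ∈ B then 0 else if b = c then 1 else 0
    | Sum.inr jk => if jk.1 ∈ J then
        (if c.1 = s jk.1 then evR (Pi.single c.2 1) (fun l => MvPolynomial.X (jk.1, l)) jk.2
          else 0) -
        (if c.1 = t jk.1 then evR (Pi.single c.2 1) (fun l => MvPolynomial.X (jk.1, l)) jk.2
          else 0)
      else 0

theorem mot_eq_map {β ι : Type*} [Fintype β] [DecidableEq β] [Fintype ι] [DecidableEq ι]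
    {K : Type*} [Field K] [Algebra ℚ K]
    (B : Finset β) (J : Finset ι) (s t : ι → β) (X : ι → Pt K) :
    Mot B J s t X = (LinearMap.ker ((motMat B J s t).map
      (MvPolynomial.aeval (fun p : ι × Fin 4 => X p.1 p.2))).mulVecLin).map
        (LinearEquiv.curry K K β (Fin 6)).toLinearMap := by
  ext M
  rw [mem_Mot]
  have key : ∀ v : β × Fin 6 → K, v ∈ LinearMap.ker ((motMat B J s t).map
      (MvPolynomial.aeval (fun p : ι × Fin 4 => X p.1 p.2))).mulVecLin ↔
      (∀ b, b ∉ B → ∀ i, v (b, i) = 0) ∧ ∀ j ∈ J, ∀ k,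
        ev (fun i => v (s j, i)) (X j) k = ev (fun i => v (t j, i)) (X j) k := by
    intro v
    rw [LinearMap.mem_ker, Matrix.mulVecLin_apply, funext_iff, Sum.forall]
    refine and_congr ?_ ?_
    · rw [Prod.forall]
      refine forall_congr' fun b => ?_
      by_cases hb : b ∈ B
      · simp [hb, Matrix.mulVec, dotProduct, motMat]
      · simp [hb, Matrix.mulVec, dotProduct, motMat]
    · rw [Prod.forall]
      refine forall_congr' fun j => ?_
      by_cases hj : j ∈ J
      · simp only [hj, forall_true_left]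
        refine forall_congr' fun k => ?_
        rw [← sub_eq_zero, ev_eq_sum, ev_eq_sum (fun i => v (t j, i))]
        simp only [Matrix.mulVec, dotProduct, Matrix.map_apply, motMat, hj, if_true,
          map_sub, Pi.zero_apply]
        rw [Fintype.sum_prod_type]
        simp only [sub_mul, Finset.sum_sub_distrib, apply_ite (MvPolynomial.aeval _), map_zero,
          ite_mul, zero_mul]
        have hev : ∀ i : Fin 6, (MvPolynomial.aeval (fun p : ι × Fin 4 => X p.1 p.2))
            (evR (Pi.single i 1) (fun l => (MvPolynomial.X (j, l) :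
              MvPolynomial (ι × Fin 4) ℚ)) k) = ev (Pi.single i 1) (X j) k := by
          intro i
          have h := map_evR (MvPolynomial.aeval (fun p : ι × Fin 4 => X p.1 p.2)).toRingHom i
            (fun l => (MvPolynomial.X (j, l) : MvPolynomial (ι × Fin 4) ℚ)) k
          simpa using h
        simp only [hev]
        rw [Finset.sum_comm, Finset.sum_comm (s := Finset.univ (α := β))]
        simp only [Finset.sum_ite_eq', Finset.mem_univ, if_true]
        rw [sub_zero, sub_eq_zero]
      · simp [hj, Matrix.mulVec, dotProduct, motMat]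
  constructor
  · rintro ⟨h1, h2⟩
    refine ⟨fun p => M p.1 p.2, ?_, rfl⟩
    rw [SetLike.mem_coe, key]
    exact ⟨fun b hb i => by simp [h1 b hb], fun j hj k => congrFun (h2 j hj) k⟩
  · rintro ⟨v, hv, rfl⟩
    rw [SetLike.mem_coe, key] at hv
    exact ⟨fun b hb => funext fun i => hv.1 b hb i, fun j hj => funext fun k => hv.2 j hj k⟩

theorem finrank_Mot_le {β ι : Type*} [Fintype β] [DecidableEq β] [Fintype ι] [DecidableEq ι]
    (B : Finset β) (J : Finset ι) (s t : ι → β) (X : ι → Pt (GF ι)) :
    finrank (GF ι) (Mot B J s t (gp ι)) ≤ finrank (GF ι) (Mot B J s t X) := by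
  rw [mot_eq_map, mot_eq_map]
  have h := finrank_ker_le (motMat B J s t) _ (gp_algebraicIndependent ι)
    (fun p : ι × Fin 4 => X p.1 p.2)
  rwa [← LinearEquiv.finrank_map_eq (LinearEquiv.curry (GF ι) (GF ι) β (Fin 6)),
    ← LinearEquiv.finrank_map_eq (LinearEquiv.curry (GF ι) (GF ι) β (Fin 6))] at h

/-- the motions of a structure such that in addition the twists of the bodies `a, b` relative to
each other have zero product on the points of two joints `i, j` (a bar) -/
def MotBar {K : Type*} [Field K] {β ι : Type*} (B : Finset β) (J : Finset ι) (s t : ι → β)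
    (X : ι → Pt K) (a b : β) (i j : ι) : Submodule K (β → Tw K) where
  carrier := {M | M ∈ Mot B J s t X ∧ bil (M a - M b) (X i) (X j) = 0}
  add_mem' := by
    rintro M N ⟨h1, h2⟩ ⟨h3, h4⟩
    refine ⟨(Mot B J s t X).add_mem h1 h3, ?_⟩
    have : (M + N) a - (M + N) b = (M a - M b) + (N a - N b) := by simp [add_sub_add_comm]
    rw [this, bil, ev_add_left, dotProduct_add]
    change bil _ _ _ + bil _ _ _ = 0
    rw [h2, h4, add_zero]
  zero_mem' := ⟨(Mot B J s t X).zero_mem, by simp [bil]⟩
  smul_mem' := by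
    rintro c M ⟨h1, h2⟩
    refine ⟨(Mot B J s t X).smul_mem c h1, ?_⟩
    have : (c • M) a - (c • M) b = c • (M a - M b) := by simp [smul_sub]
    rw [this, bil, ev_smul_left, dotProduct_smul]
    change c • bil _ _ _ = 0
    rw [h2, smul_zero]

/-- the polynomial matrix of the conditions, with one more row -/
noncomputable def motBarMat {β ι : Type*} [DecidableEq β] [DecidableEq ι]
    (B : Finset β) (J : Finset ι) (s t : ι → β) (a b : β) (i j : ι) :
    Matrix (((β × Fin 6) ⊕ (ι × Fin 4)) ⊕ Unit) (β × Fin 6) (MvPolynomial (ι × Fin 4) ℚ) :=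
  fun r c => match r with
    | Sum.inl r => motMat B J s t r c
    | Sum.inr _ => ((if c.1 = a then 1 else 0) - (if c.1 = b then 1 else 0)) *
        ∑ k, MvPolynomial.X (j, k) * evR (Pi.single c.2 1) (fun l => MvPolynomial.X (i, l)) k

theorem motBar_eq_map {β ι : Type*} [Fintype β] [DecidableEq β] [Fintype ι] [DecidableEq ι]
    {K : Type*} [Field K] [Algebra ℚ K]
    (B : Finset β) (J : Finset ι) (s t : ι → β) (X : ι → Pt K) (a b : β) (i j : ι) :
    MotBar B J s t X a b i j = (LinearMap.ker ((motBarMat B J s t a b i j).map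
      (MvPolynomial.aeval (fun p : ι × Fin 4 => X p.1 p.2))).mulVecLin).map
        (LinearEquiv.curry K K β (Fin 6)).toLinearMap := by
  have key : ∀ v : β × Fin 6 → K, v ∈ LinearMap.ker ((motBarMat B J s t a b i j).map
      (MvPolynomial.aeval (fun p : ι × Fin 4 => X p.1 p.2))).mulVecLin ↔
      v ∈ LinearMap.ker ((motMat B J s t).map
      (MvPolynomial.aeval (fun p : ι × Fin 4 => X p.1 p.2))).mulVecLin ∧
      bil ((fun l => v (a, l)) - (fun l => v (b, l))) (X i) (X j) = 0 := by
    intro v
    rw [LinearMap.mem_ker, LinearMap.mem_ker, Matrix.mulVecLin_apply, Matrix.mulVecLin_apply,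
      funext_iff, Sum.forall, funext_iff]
    refine and_congr ?_ ?_
    · exact Iff.rfl
    · have hev : ∀ (l : Fin 6) (k : Fin 4), (MvPolynomial.aeval (fun p : ι × Fin 4 => X p.1 p.2))
          (evR (Pi.single l 1) (fun l => (MvPolynomial.X (i, l) :
            MvPolynomial (ι × Fin 4) ℚ)) k) = ev (Pi.single l 1) (X i) k := by
        intro l k
        have h := map_evR (MvPolynomial.aeval (fun p : ι × Fin 4 => X p.1 p.2)).toRingHom l
          (fun l => (MvPolynomial.X (i, l) : MvPolynomial (ι × Fin 4) ℚ)) k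
        simpa using h
      have h1 : bil ((fun l => v (a, l)) - (fun l => v (b, l))) (X i) (X j) =
          ∑ l, (∑ k, X j k * ev (Pi.single l 1) (X i) k) * (v (a, l) - v (b, l)) := by
        rw [bil, dotProduct]
        simp only [Finset.sum_mul]
        rw [Finset.sum_comm]
        refine Finset.sum_congr rfl fun k _ => ?_
        rw [ev_eq_sum, Finset.mul_sum]
        exact Finset.sum_congr rfl fun l _ => by rw [Pi.sub_apply, mul_assoc]
      rw [h1, Unique.forall_iff]
      simp only [Matrix.mulVec, dotProduct, Matrix.map_apply, motBarMat, map_mul, map_sub,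
        map_sum, MvPolynomial.aeval_X, hev, apply_ite (MvPolynomial.aeval _), map_one, map_zero,
        Pi.zero_apply]
      rw [Fintype.sum_prod_type, Finset.sum_comm]
      simp only [sub_mul, ite_mul, one_mul, zero_mul, Finset.sum_sub_distrib,
        Finset.sum_ite_eq', Finset.mem_univ, if_true, mul_sub]
  ext M
  constructor
  · rintro ⟨h1, h2⟩
    rw [mot_eq_map] at h1
    obtain ⟨v, hv, rfl⟩ := h1
    exact ⟨v, (key v).2 ⟨hv, h2⟩, rfl⟩
  · rintro ⟨v, hv, rfl⟩
    obtain ⟨h1, h2⟩ := (key v).1 hv
    refine ⟨?_, h2⟩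
    rw [mot_eq_map]
    exact ⟨v, h1, rfl⟩

theorem finrank_MotBar_le {β ι : Type*} [Fintype β] [DecidableEq β] [Fintype ι] [DecidableEq ι]
    (B : Finset β) (J : Finset ι) (s t : ι → β) (X : ι → Pt (GF ι)) (a b : β) (i j : ι) :
    finrank (GF ι) (MotBar B J s t (gp ι) a b i j) ≤ finrank (GF ι) (MotBar B J s t X a b i j) := by
  rw [motBar_eq_map, motBar_eq_map]
  have h := finrank_ker_le (motBarMat B J s t a b i j) _ (gp_algebraicIndependent ι)
    (fun p : ι × Fin 4 => X p.1 p.2)
  rwa [← LinearEquiv.finrank_map_eq (LinearEquiv.curry (GF ι) (GF ι) β (Fin 6)),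
    ← LinearEquiv.finrank_map_eq (LinearEquiv.curry (GF ι) (GF ι) β (Fin 6))] at h

/-- any two, three or four distinct joints have linearly independent generic positions -/
theorem gp_linearIndependent {ι : Type*} {n : ℕ} (hn : n ≤ 4) (f : Fin n → ι)
    (hf : Function.Injective f) : LinearIndependent (GF ι) (fun i => gp ι (f i)) := by
  classical
  let P : Matrix (Fin n) (Fin 4) (MvPolynomial (ι × Fin 4) ℚ) :=
    fun i k => MvPolynomial.X (f i, k)
  let y : ι × Fin 4 → ℚ := fun p => if ∃ i : Fin n, f i = p.1 ∧ i.castLE hn = p.2 then 1 else 0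
  have h1 := rank_special_le_rank_generic P _ (gp_algebraicIndependent ι) y
  have h2 : (P.map (MvPolynomial.aeval y)).rank = n := by
    have hli : LinearIndependent ℚ (P.map (MvPolynomial.aeval y)).row := by
      have h3 := (Pi.basisFun ℚ (Fin 4)).linearIndependent.comp (Fin.castLE hn)
        (Fin.castLE_injective hn)
      have e : (P.map (MvPolynomial.aeval y)).row =
          (Pi.basisFun ℚ (Fin 4)) ∘ (Fin.castLE hn) := by
        funext i k
        change (MvPolynomial.aeval y) (MvPolynomial.X (f i, k)) = _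
        rw [MvPolynomial.aeval_X, Function.comp_apply, Pi.basisFun_apply, Pi.single_apply]
        refine if_congr ?_ rfl rfl
        constructor
        · rintro ⟨i', h4, h5⟩
          have h6 : i' = i := hf h4
          rw [← h6]
          exact h5.symm
        · intro h
          exact ⟨i, rfl, h.symm⟩
      rw [e]
      exact h3
    have := hli.rank_matrix
    rwa [Fintype.card_fin] at this
  rw [h2] at h1
  have h3 : (P.map (MvPolynomial.aeval fun p : ι × Fin 4 => gp ι p.1 p.2)).row =
      fun i => gp ι (f i) := by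
    funext i k
    change (MvPolynomial.aeval _) (MvPolynomial.X (f i, k)) = _
    rw [MvPolynomial.aeval_X]
  rw [← h3, linearIndependent_iff_card_le_finrank_span, Fintype.card_fin]
  rwa [Matrix.rank_eq_finrank_span_row] at h1

end P2

end Pool.Agent.H49BJ
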