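import Pool.Agent.H49BJ.Defs

/-!
# Linear algebra of twists
-/

open Matrix Module

namespace Pool.Agent.H49BJ

section P1

variable {K : Type*} [Field K]

theorem tw_ext {a : Tw K} (h : ∀ p : Pt K, ev a p = 0) : a = 0 := by
  have h0 := h ![1, 0, 0, 0]
  have h1 := h ![0, 1, 0, 0]
  have h2 := h ![0, 0, 1, 0]
  have e1 := congrFun h1 0
  have e2 := congrFun h2 0
  have e3 := congrFun h0 3
  have e4 := congrFun h2 1
  have e5 := congrFun h1 3
  have e6 := congrFun h2 3
  simp [ev] at e1 e2 e3 e4 e5 e6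
  funext i
  fin_cases i <;> simp_all

/-- vectors orthogonal to a basis vanish -/
theorem eq_zero_of_dot {Y : Fin 4 → Pt K} (hY : LinearIndependent K Y) {z : Pt K}
    (h : ∀ i, Y i ⬝ᵥ z = 0) : z = 0 := by
  have h1 : LinearIndependent K (Matrix.of Y).row := hY
  rw [Matrix.linearIndependent_rows_iff_isUnit, Matrix.isUnit_iff_isUnit_det] at h1
  refine Matrix.eq_zero_of_mulVec_eq_zero h1.ne_zero ?_
  funext i
  exact h i

theorem tw_eq_zero_of_basis {a : Tw K} {Y : Fin 4 → Pt K} (hY : LinearIndependent K Y)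
    (h : ∀ i, ev a (Y i) = 0) : a = 0 := by
  refine tw_ext (fun p => ?_)
  let b := basisOfLinearIndependentOfCardEqFinrank hY (by simp)
  have h1 : evL a = 0 := by
    refine b.ext (fun i => ?_)
    simp only [b, coe_basisOfLinearIndependentOfCardEqFinrank, evL_apply, h i,
      LinearMap.zero_apply]
  rw [← evL_apply, h1, LinearMap.zero_apply]

theorem tw_two_pair {a : Tw K} {u v x y : Pt K} (hli : LinearIndependent K ![u, v, x, y])
    (hu : ev a u = 0) (hv : ev a v = 0) (hxy : bil a x y = 0) : a = 0 := by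
  have hb : ∀ p q : Pt K, ev a p = 0 → p ⬝ᵥ ev a q = 0 := by
    intro p q hp
    have h1 : bil a q p = - bil a p q := bil_swap a p q
    have h2 : bil a p q = 0 := by rw [bil, hp, dotProduct_zero]
    rw [h2, neg_zero] at h1
    exact h1
  have hyx : bil a y x = 0 := by rw [bil_swap, hxy, neg_zero]
  have hx : ev a x = 0 := by
    refine eq_zero_of_dot hli (fun i => ?_)
    fin_cases i
    · exact hb u x hu
    · exact hb v x hv
    · exact bil_self a x
    · exact hxy
  have hy : ev a y = 0 := by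
    refine eq_zero_of_dot hli (fun i => ?_)
    fin_cases i
    · exact hb u y hu
    · exact hb v y hv
    · exact hyx
    · exact bil_self a y
  refine tw_eq_zero_of_basis hli (fun i => ?_)
  fin_cases i
  · exact hu
  · exact hv
  · exact hx
  · exact hy

theorem tw_three {a : Tw K} {p q r : Pt K} (hli : LinearIndependent K ![p, q, r])
    (hp : ev a p = 0) (hq : ev a q = 0) (hr : ev a r = 0) : a = 0 := by
  obtain ⟨s, hs⟩ : ∃ s, s ∉ Submodule.span K (Set.range ![p, q, r]) := by
    by_contra hcon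
    push Not at hcon
    have h1 : Submodule.span K (Set.range ![p, q, r]) = ⊤ := by
      rw [Submodule.eq_top_iff']
      exact hcon
    have h2 := finrank_span_eq_card hli
    rw [h1, finrank_top] at h2
    simp at h2
  have hli' : LinearIndependent K ![s, p, q, r] := by
    have := linearIndependent_finCons (x := s) (v := ![p, q, r]) (K := K)
    exact this.2 ⟨hli, hs⟩
  have hli2 : LinearIndependent K ![p, q, r, s] := by
    have h1 := hli'.comp ![(1 : Fin 4), 2, 3, 0] (by decide)
    convert h1 using 1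
    funext i
    fin_cases i <;> rfl
  refine tw_two_pair hli2 hp hq ?_
  rw [bil, hr, dotProduct_zero]

/-- twists vanishing at one point -/
def van1 (p : Pt K) : Submodule K (Tw K) := LinearMap.ker (evL.flip p)

theorem mem_van1 {p : Pt K} {a : Tw K} : a ∈ van1 p ↔ ev a p = 0 := by
  rw [van1, LinearMap.mem_ker, LinearMap.flip_apply, evL_apply]

theorem exists_dot_one {p : Pt K} (hp : p ≠ 0) : ∃ v : Pt K, v ⬝ᵥ p = 1 := by
  obtain ⟨i, hi⟩ : ∃ i, p i ≠ 0 := by
    by_contra h
    push Not at h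
    exact hp (funext h)
  refine ⟨Pi.single i (p i)⁻¹, ?_⟩
  rw [single_dotProduct, inv_mul_cancel₀ hi]

/-- the points orthogonal to `p` -/
def perp (p : Pt K) : Submodule K (Pt K) := LinearMap.ker (dotProductBilin K K p)

theorem mem_perp {p y : Pt K} : y ∈ perp p ↔ p ⬝ᵥ y = 0 := by
  rw [perp, LinearMap.mem_ker]
  rfl

theorem finrank_perp {p : Pt K} (hp : p ≠ 0) : finrank K (perp p) = 3 := by
  have h1 := LinearMap.finrank_range_add_finrank_ker (dotProductBilin K K p)
  have h2 : LinearMap.range (dotProductBilin K K p) = ⊤ := by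
    rw [LinearMap.range_eq_top]
    intro c
    obtain ⟨v, hv⟩ := exists_dot_one hp
    refine ⟨c • v, ?_⟩
    change p ⬝ᵥ (c • v) = c
    rw [dotProduct_smul, dotProduct_comm, hv, smul_eq_mul, mul_one]
  rw [h2, finrank_top, finrank_self] at h1
  have h3 : finrank K (Fin 4 → K) = 4 := by simp
  rw [h3] at h1
  change 1 + finrank K (perp p) = 4 at h1
  omega

theorem finrank_van1 {p : Pt K} (hp : p ≠ 0) : finrank K (van1 p) = 3 := by
  have h1 := LinearMap.finrank_range_add_finrank_ker (evL.flip p)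
  have h2 : LinearMap.range (evL.flip p) = perp p := by
    ext y
    rw [mem_perp, LinearMap.mem_range]
    constructor
    · rintro ⟨a, rfl⟩
      exact bil_self a p
    · intro hy
      obtain ⟨v, hv⟩ := exists_dot_one hp
      refine ⟨wedge y v, ?_⟩
      rw [LinearMap.flip_apply, evL_apply, ev_wedge, hv, dotProduct_comm y p, hy, one_smul,
        zero_smul, sub_zero]
  rw [h2, finrank_perp hp] at h1
  have h3 : finrank K (Tw K) = 6 := by simp
  change 3 + finrank K (van1 p) = _ at h1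
  omega

theorem exists_dot_one_zero {p q : Pt K} (h : LinearIndependent K ![p, q]) :
    ∃ v : Pt K, v ⬝ᵥ q = 1 ∧ v ⬝ᵥ p = 0 := by
  by_contra hcon
  push Not at hcon
  have hp : p ≠ 0 := h.ne_zero 0
  have h1 : perp p ≤ perp q := by
    intro v hv
    rw [mem_perp] at hv ⊢
    by_contra hq
    refine hcon ((q ⬝ᵥ v)⁻¹ • v) ?_ ?_
    · rw [smul_dotProduct, dotProduct_comm v q, smul_eq_mul, inv_mul_cancel₀ hq]
    · rw [smul_dotProduct, dotProduct_comm v p, hv, smul_zero]
  have hq : q ≠ 0 := h.ne_zero 1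
  have h2 : perp p = perp q :=
    Submodule.eq_of_le_of_finrank_eq h1 (by rw [finrank_perp hp, finrank_perp hq])
  -- now p and q are proportional
  obtain ⟨v, hv⟩ := exists_dot_one hp
  have h3 : q = (v ⬝ᵥ q) • p := by
    have h4 : ∀ x : Pt K, q ⬝ᵥ (x - (p ⬝ᵥ x) • v) = 0 := by
      intro x
      rw [← mem_perp, ← h2, mem_perp, dotProduct_sub, dotProduct_smul, dotProduct_comm p v, hv,
        smul_eq_mul, mul_one, sub_self]
    funext i
    have h5 := h4 (Pi.single i 1)
    rw [dotProduct_sub, dotProduct_smul, dotProduct_single_one, dotProduct_single_one,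
      sub_eq_zero] at h5
    rw [h5, Pi.smul_apply, smul_eq_mul, smul_eq_mul, dotProduct_comm q v]
    ring
  rw [LinearIndependent.pair_iff] at h
  have h6 := (h (v ⬝ᵥ q) (-1) (by rw [← h3]; simp)).2
  simp at h6

theorem finrank_perp2 {p q : Pt K} (h : LinearIndependent K ![p, q]) :
    finrank K (perp p ⊓ perp q : Submodule K (Pt K)) = 2 := by
  have hp : p ≠ 0 := h.ne_zero 0
  have hq : q ≠ 0 := h.ne_zero 1
  have h1 := Submodule.finrank_sup_add_finrank_inf_eq (perp p) (perp q)
  rw [finrank_perp hp, finrank_perp hq] at h1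
  have h2 : perp p ⊔ perp q = ⊤ := by
    rw [Submodule.eq_top_iff']
    intro x
    obtain ⟨v, hv1, hv2⟩ := exists_dot_one_zero h
    rw [Submodule.mem_sup]
    refine ⟨(q ⬝ᵥ x) • v, ?_, x - (q ⬝ᵥ x) • v, ?_, by simp⟩
    · rw [mem_perp, dotProduct_smul, dotProduct_comm p v, hv2, smul_zero]
    · rw [mem_perp, dotProduct_sub, dotProduct_smul, dotProduct_comm q v, hv1, smul_eq_mul,
        mul_one, sub_self]
  rw [h2, finrank_top] at h1
  have h3 : finrank K (Pt K) = 4 := by simp
  omega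

theorem finrank_van2 {p q : Pt K} (h : LinearIndependent K ![p, q]) :
    finrank K (van1 p ⊓ van1 q : Submodule K (Tw K)) = 1 := by
  have hp : p ≠ 0 := h.ne_zero 0
  let f : van1 p →ₗ[K] Pt K := (evL.flip q).domRestrict (van1 p)
  have hf : ∀ a : van1 p, f a = ev a.1 q := fun a => rfl
  have h1 := LinearMap.finrank_range_add_finrank_ker f
  have h2 : LinearMap.range f = perp p ⊓ perp q := by
    ext y
    rw [Submodule.mem_inf, mem_perp, mem_perp, LinearMap.mem_range]
    constructor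
    · rintro ⟨⟨a, ha⟩, rfl⟩
      rw [mem_van1] at ha
      refine ⟨?_, bil_self a q⟩
      have h3 : bil a q p = - bil a p q := bil_swap a p q
      have h4 : bil a p q = 0 := by rw [bil, ha, dotProduct_zero]
      rw [h4, neg_zero] at h3
      exact h3
    · rintro ⟨hyp, hyq⟩
      obtain ⟨v, hv1, hv2⟩ := exists_dot_one_zero h
      refine ⟨⟨wedge y v, ?_⟩, ?_⟩
      · rw [mem_van1, ev_wedge, hv2, dotProduct_comm y p, hyp, zero_smul, zero_smul, sub_zero]
      · rw [hf, ev_wedge, hv1, dotProduct_comm y q, hyq, one_smul, zero_smul, sub_zero]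
  rw [h2, finrank_perp2 h, finrank_van1 hp] at h1
  have h3 : LinearMap.ker f = (van1 p ⊓ van1 q).comap (van1 p).subtype := by
    ext ⟨a, ha⟩
    rw [LinearMap.mem_ker, hf, Submodule.mem_comap, Submodule.mem_inf]
    constructor
    · intro h4
      exact ⟨ha, mem_van1.2 h4⟩
    · rintro ⟨_, h4⟩
      exact mem_van1.1 h4
  have h4 := (Submodule.comapSubtypeEquivOfLe (inf_le_left : van1 p ⊓ van1 q ≤ van1 p)).finrank_eq
  rw [h3, h4] at h1
  omega

/-- an integral vector on which two independent twists are independent -/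
theorem exists_int_vec [CharZero K] {w₁ w₂ : Tw K} (h : LinearIndependent K ![w₁, w₂]) :
    ∃ z : Fin 4 → ℤ, LinearIndependent K ![ev w₁ (fun i => (z i : K)), ev w₂ (fun i => (z i : K))] := by
  by_contra hcon
  push Not at hcon
  have H : ∀ (z : Fin 4 → ℤ) (k l : Fin 4),
      ev w₁ (fun i => (z i : K)) k * ev w₂ (fun i => (z i : K)) l =
        ev w₁ (fun i => (z i : K)) l * ev w₂ (fun i => (z i : K)) k := by
    intro z k l
    have h1 := hcon z
    rw [LinearIndependent.pair_iff] at h1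
    push Not at h1
    obtain ⟨s, t, hst, hne⟩ := h1
    have hk := congrFun hst k
    have hl := congrFun hst l
    simp only [Pi.add_apply, Pi.smul_apply, smul_eq_mul, Pi.zero_apply] at hk hl
    by_cases hs : s = 0
    · have ht := hne hs
      rw [hs] at hk hl
      simp only [zero_mul, zero_add, mul_eq_zero, ht, false_or] at hk hl
      rw [hk, hl, mul_zero, mul_zero]
    · apply mul_left_cancel₀ hs
      linear_combination ev w₂ (fun i => (z i : K)) l * hk - ev w₂ (fun i => (z i : K)) k * hl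
  have a0 := H ![1, 0, 0, 0]
  have a1 := H ![0, 1, 0, 0]
  have a2 := H ![0, 0, 1, 0]
  have a3 := H ![0, 0, 0, 1]
  have b01 := H ![1, 1, 0, 0] 2 3
  have b02 := H ![1, 0, 1, 0] 1 3
  have b03 := H ![1, 0, 0, 1] 1 2
  have c1 := a0 1 2
  have c2 := a0 1 3
  have c3 := a0 2 3
  have c4 := a1 0 2
  have c5 := a1 0 3
  have c6 := a1 2 3
  have c7 := a2 0 1
  have c8 := a2 0 3
  have c9 := a2 1 3
  have c10 := a3 0 1
  have c11 := a3 0 2
  have c12 := a3 1 2
  clear a0 a1 a2 a3
  simp [ev] at c1 c2 c3 c4 c5 c6 c7 c8 c9 c10 c11 c12 b01 b02 b03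
  have two : (2 : K) ≠ 0 := two_ne_zero
  have e1 : w₁ 0 * w₂ 5 = w₁ 5 * w₂ 0 := by
    apply mul_left_cancel₀ two
    linear_combination (b01 - c3 - c6) + (b02 - c2 + c9) - (b03 - c1 - c12)
  have e2 : w₁ 1 * w₂ 4 = w₁ 4 * w₂ 1 := by
    linear_combination (b03 - c1 - c12) + e1
  have e3 : w₁ 2 * w₂ 3 = w₁ 3 * w₂ 2 := by
    linear_combination e2 - (b01 - c3 - c6)
  have key : ∀ m n : Fin 6, w₁ m * w₂ n = w₁ n * w₂ m := by
    have key' : ∀ m n : Fin 6, m < n → w₁ m * w₂ n = w₁ n * w₂ m := by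
      intro m n hmn
      fin_cases m <;> fin_cases n <;> simp at hmn <;> assumption
    intro m n
    rcases lt_trichotomy m n with hmn | hmn | hmn
    · exact key' m n hmn
    · rw [hmn]
    · exact (key' n m hmn).symm
  have hw₁ : w₁ ≠ 0 := h.ne_zero 0
  obtain ⟨m, hm⟩ : ∃ m, w₁ m ≠ 0 := by
    by_contra hc
    push Not at hc
    exact hw₁ (funext hc)
  rw [LinearIndependent.pair_iff] at h
  refine hm (neg_eq_zero.1 (h (w₂ m) (- w₁ m) ?_).2)
  funext n
  simp only [Pi.add_apply, Pi.smul_apply, smul_eq_mul, Pi.zero_apply]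
  linear_combination - key m n

/-- a space of twists of dimension at most 2 is injected by the evaluation at some point -/
theorem exists_inj_pt [CharZero K] (W : Submodule K (Tw K)) (hW : finrank K W ≤ 2) :
    ∃ p : Pt K, ∀ w ∈ W, ev w p = 0 → w = 0 := by
  have hcases : finrank K W = 0 ∨ finrank K W = 1 ∨ finrank K W = 2 := by omega
  rcases hcases with h0 | h1 | h2
  · rw [Submodule.finrank_eq_zero] at h0
    refine ⟨0, fun w hw _ => ?_⟩
    rw [h0] at hw
    exact (Submodule.mem_bot K).1 hw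
  · obtain ⟨v, hv0, hv⟩ := finrank_eq_one_iff'.1 h1
    obtain ⟨p, hp⟩ : ∃ p : Pt K, ev (v : Tw K) p ≠ 0 := by
      by_contra hc
      push Not at hc
      exact hv0 (Subtype.ext (tw_ext hc))
    refine ⟨p, fun w hw hwp => ?_⟩
    obtain ⟨c, hc⟩ := hv ⟨w, hw⟩
    have hc' : w = c • (v : Tw K) := (congrArg Subtype.val hc).symm
    rw [hc', ev_smul_left] at hwp
    rcases smul_eq_zero.1 hwp with h3 | h3
    · rw [hc', h3, zero_smul]
    · exact absurd h3 hp
  · obtain ⟨b⟩ : Nonempty (Basis (Fin 2) K W) := ⟨finBasisOfFinrankEq K W h2⟩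
    have hli : LinearIndependent K ![(b 0 : Tw K), (b 1 : Tw K)] := by
      have h3 := b.linearIndependent.map' W.subtype (Submodule.ker_subtype W)
      have h4 : ![(b 0 : Tw K), (b 1 : Tw K)] = W.subtype ∘ b := by
        funext i
        fin_cases i <;> rfl
      rw [h4]
      exact h3
    obtain ⟨z, hz⟩ := exists_int_vec hli
    refine ⟨fun i => (z i : K), fun w hw hwp => ?_⟩
    have h4 := b.sum_repr ⟨w, hw⟩
    rw [Fin.sum_univ_two] at h4
    have h5 : w = b.repr ⟨w, hw⟩ 0 • (b 0 : Tw K) + b.repr ⟨w, hw⟩ 1 • (b 1 : Tw K) :=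
      (congrArg Subtype.val h4).symm
    rw [LinearIndependent.pair_iff] at hz
    obtain ⟨e0, e1⟩ := hz (b.repr ⟨w, hw⟩ 0) (b.repr ⟨w, hw⟩ 1) (by
      rw [← ev_smul_left, ← ev_smul_left, ← ev_add_left, ← h5]
      exact hwp)
    rw [h5, e0, e1, zero_smul, zero_smul, add_zero]

/-- the twist of a K4 -/
theorem exists_tw {Y ξ : Fin 4 → Pt K} (hY : LinearIndependent K Y)
    (h1 : ∀ i j, Y i ⬝ᵥ ξ j + Y j ⬝ᵥ ξ i = 0) (h0 : ∀ i, Y i ⬝ᵥ ξ i = 0) :
    ∃ a : Tw K, ∀ i, ev a (Y i) = ξ i := by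
  let b := basisOfLinearIndependentOfCardEqFinrank hY (by simp)
  let S : Pt K →ₗ[K] Pt K := b.constr K ξ
  have hS : ∀ i, S (Y i) = ξ i := by
    intro i
    have h2 := b.constr_basis K ξ i
    simp only [b, coe_basisOfLinearIndependentOfCardEqFinrank] at h2
    exact h2
  -- the map is alternating
  have hq : ∀ x : Pt K, x ⬝ᵥ S x = 0 := by
    intro x
    have hx := b.sum_repr x
    simp only [b, coe_basisOfLinearIndependentOfCardEqFinrank, Fin.sum_univ_four] at hx
    obtain ⟨c, hc⟩ : ∃ c : Fin 4 → K, x = c 0 • Y 0 + c 1 • Y 1 + c 2 • Y 2 + c 3 • Y 3 :=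
      ⟨_, hx.symm⟩
    rw [hc]
    simp only [map_add, map_smul, hS, add_dotProduct, dotProduct_add, smul_dotProduct,
      dotProduct_smul, smul_eq_mul]
    linear_combination c 0 * c 0 * h0 0 + c 1 * c 1 * h0 1 + c 2 * c 2 * h0 2 +
      c 3 * c 3 * h0 3 + c 0 * c 1 * h1 0 1 + c 0 * c 2 * h1 0 2 + c 0 * c 3 * h1 0 3 +
      c 1 * c 2 * h1 1 2 + c 1 * c 3 * h1 1 3 + c 2 * c 3 * h1 2 3
  have hp : ∀ x y : Pt K, x ⬝ᵥ S y + y ⬝ᵥ S x = 0 := by
    intro x y
    have h2 := hq (x + y)
    simp only [map_add, add_dotProduct, dotProduct_add] at h2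
    linear_combination h2 - hq x - hq y
  -- entries
  have hd : ∀ i : Fin 4, S (Pi.single i 1) i = 0 := by
    intro i
    have h2 := hq (Pi.single i 1)
    rwa [single_one_dotProduct] at h2
  have ha : ∀ i j : Fin 4, S (Pi.single j 1) i = - S (Pi.single i 1) j := by
    intro i j
    have h2 := hp (Pi.single i 1) (Pi.single j 1)
    rw [single_one_dotProduct, single_one_dotProduct] at h2
    linear_combination h2
  refine ⟨![S (Pi.single 1 1) 0, S (Pi.single 2 1) 0, S (Pi.single 3 1) 0, S (Pi.single 2 1) 1,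
    S (Pi.single 3 1) 1, S (Pi.single 3 1) 2], fun i => ?_⟩
  rw [← hS]
  generalize Y i = p
  have hpe : p = p 0 • Pi.single 0 1 + p 1 • Pi.single 1 1 + p 2 • Pi.single 2 1 +
      p 3 • Pi.single 3 1 := by
    funext k
    fin_cases k <;> simp
  have hSp : ∀ k, S p k = p 0 * S (Pi.single 0 1) k + p 1 * S (Pi.single 1 1) k +
      p 2 * S (Pi.single 2 1) k + p 3 * S (Pi.single 3 1) k := by
    intro k
    conv_lhs => rw [hpe]
    simp only [map_add, map_smul, Pi.add_apply, Pi.smul_apply, smul_eq_mul]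
  funext k
  rw [hSp k]
  fin_cases k
  · simp [ev]
    rw [hd 0]
    ring
  · simp [ev]
    rw [hd 1, ha 1 0]
    ring
  · simp [ev]
    rw [hd 2, ha 2 0, ha 2 1]
    ring
  · simp [ev]
    rw [hd 3, ha 3 0, ha 3 1, ha 3 2]
    ring

end P1

end Pool.Agent.H49BJ
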