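import Pool.Agent.H49BJ.GDefs
import Pool.Agent.H49BJ.Skew
import Pool.Agent.H49BJ.Semi

/-!
# The twists of the K4s and their classes
-/

open Matrix Module

namespace Pool.Agent.H49BJ

open SimpleGraph

variable {V : Type} [Fintype V] [DecidableEq V]

section li

omit [Fintype V] [DecidableEq V]

theorem gp_li_three {u v w : V} (huv : u ≠ v) (huw : u ≠ w) (hvw : v ≠ w) :
    LinearIndependent (GF V) ![gp V u, gp V v, gp V w] := by
  have h := gp_linearIndependent (ι := V) (n := 3) (by norm_num) ![u, v, w] (by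
    intro i j hij
    fin_cases i <;> fin_cases j <;> simp_all)
  have h2 : (fun i => gp V (![u, v, w] i)) = ![gp V u, gp V v, gp V w] := by
    funext i
    fin_cases i <;> rfl
  rwa [h2] at h

theorem gp_li_four {u v w x : V} (huv : u ≠ v) (huw : u ≠ w) (hux : u ≠ x) (hvw : v ≠ w)
    (hvx : v ≠ x) (hwx : w ≠ x) :
    LinearIndependent (GF V) ![gp V u, gp V v, gp V w, gp V x] := by
  have h := gp_linearIndependent (ι := V) (n := 4) (by norm_num) ![u, v, w, x] (by
    intro i j hij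
    fin_cases i <;> fin_cases j <;> simp_all)
  have h2 : (fun i => gp V (![u, v, w, x] i)) = ![gp V u, gp V v, gp V w, gp V x] := by
    funext i
    fin_cases i <;> rfl
  rwa [h2] at h

/-- Two twists that agree at three distinct generic points are equal. -/
theorem tw_eq_of_three {a b : Tw (GF V)} {u v w : V} (huv : u ≠ v) (huw : u ≠ w) (hvw : v ≠ w)
    (hu : ev a (gp V u) = ev b (gp V u)) (hv : ev a (gp V v) = ev b (gp V v))
    (hw : ev a (gp V w) = ev b (gp V w)) : a = b := by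
  rw [← sub_eq_zero]
  apply tw_three (gp_li_three huv huw hvw)
  · rw [ev_sub_left, hu, sub_self]
  · rw [ev_sub_left, hv, sub_self]
  · rw [ev_sub_left, hw, sub_self]

end li

omit [Fintype V] [DecidableEq V] in
theorem exists_tau (G : SimpleGraph V) (T : K4s G) :
    ∃ f : PM G (gp V) →ₗ[GF V] Tw (GF V),
      ∀ (ξ : PM G (gp V)) (v : V), v ∈ T.1 → ev (f ξ) (gp V v) = ξ.1 v := by
  obtain ⟨hcl, hcard⟩ := T.2
  let e : Fin 4 ≃ T.1 := (T.1.equivFinOfCardEq hcard).symm
  have hinj : Function.Injective (fun i => (e i : V)) :=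
    Subtype.val_injective.comp e.injective
  have hli : LinearIndependent (GF V) (fun i => gp V (e i : V)) :=
    gp_linearIndependent le_rfl (fun i => (e i : V)) hinj
  have huniq : ∀ a b : Tw (GF V), (∀ i, ev a (gp V (e i : V)) = ev b (gp V (e i : V))) →
      a = b := by
    intro a b h
    exact tw_eq_of_three (hinj.ne (by decide : (0 : Fin 4) ≠ 1))
      (hinj.ne (by decide : (0 : Fin 4) ≠ 2)) (hinj.ne (by decide : (1 : Fin 4) ≠ 2))
      (h 0) (h 1) (h 2)
  have hex : ∀ ξ : PM G (gp V), ∃ a : Tw (GF V), ∀ i, ev a (gp V (e i : V)) = ξ.1 (e i) := by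
    intro ξ
    obtain ⟨h0, h1⟩ := ξ.2
    refine exists_tw hli ?_ ?_
    · intro i j
      by_cases hij : i = j
      · subst hij
        rw [dotProduct_comm, h0, add_zero]
      · have hadj : G.Adj (e i : V) (e j : V) :=
          hcl (e i).2 (e j).2 (fun h => hij (hinj h))
        have := h1 _ _ hadj
        rw [dotProduct_comm (gp V _), dotProduct_comm (gp V (e j : V)), add_comm]
        exact this
    · intro i
      rw [dotProduct_comm]
      exact h0 _
  choose f hf using hex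
  refine ⟨{ toFun := f, map_add' := ?_, map_smul' := ?_ }, ?_⟩
  · intro ξ η
    apply huniq
    intro i
    rw [hf, ev_add_left, hf, hf]
    rfl
  · intro c ξ
    apply huniq
    intro i
    rw [hf, RingHom.id_apply, ev_smul_left, hf]
    rfl
  · intro ξ v hv
    obtain ⟨i, hi⟩ := e.surjective ⟨v, hv⟩
    have h2 := hf ξ i
    rw [hi] at h2
    exact h2

/-- the twist of a K4 as a linear function of the motion -/
noncomputable def tau (G : SimpleGraph V) (T : K4s G) : PM G (gp V) →ₗ[GF V] Tw (GF V) :=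
  (exists_tau G T).choose

omit [Fintype V] [DecidableEq V] in
theorem tau_spec (G : SimpleGraph V) (T : K4s G) (ξ : PM G (gp V)) {v : V} (hv : v ∈ T.1) :
    ev (tau G T ξ) (gp V v) = ξ.1 v :=
  (exists_tau G T).choose_spec ξ v hv

/-- the type of classes -/
abbrev Cls (G : SimpleGraph V) := {b : PM G (gp V) →ₗ[GF V] Tw (GF V) // b ∈ Set.range (tau G)}

noncomputable instance (G : SimpleGraph V) : Fintype (Cls G) := by
  haveI : Finite (K4s G) := inferInstance
  haveI : Finite (Cls G) := (Set.finite_range (tau G)).to_subtype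
  exact Fintype.ofFinite _

open Classical in
/-- the vertices of a class -/
noncomputable def Vb (G : SimpleGraph V) (b : Cls G) : Finset V :=
  Finset.univ.filter (fun v => ∃ T : K4s G, tau G T = b.1 ∧ v ∈ T.1)

theorem mem_Vb {G : SimpleGraph V} {b : Cls G} {v : V} :
    v ∈ Vb G b ↔ ∃ T : K4s G, tau G T = b.1 ∧ v ∈ T.1 := by
  simp [Vb]

theorem ev_cls (G : SimpleGraph V) (b : Cls G) (ξ : PM G (gp V)) {v : V} (hv : v ∈ Vb G b) :
    ev (b.1 ξ) (gp V v) = ξ.1 v := by
  obtain ⟨T, hT, hvT⟩ := mem_Vb.mp hv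
  rw [← hT]
  exact tau_spec G T ξ hvT

theorem four_le_Vb (G : SimpleGraph V) (b : Cls G) : 4 ≤ (Vb G b).card := by
  obtain ⟨T, hT⟩ := b.2
  rw [← T.2.card_eq]
  apply Finset.card_le_card
  intro v hv
  exact mem_Vb.mpr ⟨T, hT, hv⟩

theorem Vb_inter (G : SimpleGraph V) {b b' : Cls G} (h : b ≠ b') :
    (Vb G b ∩ Vb G b').card ≤ 2 := by
  by_contra hcon
  push Not at hcon
  obtain ⟨u, v, w, hu, hv, hw, huv, huw, hvw⟩ := Finset.two_lt_card_iff.mp hcon
  rw [Finset.mem_inter] at hu hv hw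
  apply h
  apply Subtype.ext
  apply LinearMap.ext
  intro ξ
  exact tw_eq_of_three huv huw hvw (by rw [ev_cls G b ξ hu.1, ev_cls G b' ξ hu.2])
    (by rw [ev_cls G b ξ hv.1, ev_cls G b' ξ hv.2])
    (by rw [ev_cls G b ξ hw.1, ev_cls G b' ξ hw.2])

/-- hinge pairs: no edges between the two differences -/
theorem hinge_no_edge (G : SimpleGraph V) {b b' : Cls G} (h : b ≠ b') {u v x y : V} (huv : u ≠ v)
    (hu : u ∈ Vb G b ∩ Vb G b') (hv : v ∈ Vb G b ∩ Vb G b')
    (hx : x ∈ Vb G b \ Vb G b') (hy : y ∈ Vb G b' \ Vb G b) : ¬ G.Adj x y := by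
  intro hadj
  rw [Finset.mem_inter] at hu hv
  rw [Finset.mem_sdiff] at hx hy
  have hux : u ≠ x := fun h => hx.2 (h ▸ hu.2)
  have hvx : v ≠ x := fun h => hx.2 (h ▸ hv.2)
  have huy : u ≠ y := fun h => hy.2 (h ▸ hu.1)
  have hvy : v ≠ y := fun h => hy.2 (h ▸ hv.1)
  apply h
  apply Subtype.ext
  apply LinearMap.ext
  intro ξ
  rw [← sub_eq_zero]
  apply tw_two_pair (gp_li_four huv hux huy hvx hvy hadj.ne)
  · rw [ev_sub_left, ev_cls G b ξ hu.1, ev_cls G b' ξ hu.2, sub_self]
  · rw [ev_sub_left, ev_cls G b ξ hv.1, ev_cls G b' ξ hv.2, sub_self]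
  · have h1 : bil (b.1 ξ - b'.1 ξ) (gp V x) (gp V y) =
        bil (b.1 ξ) (gp V x) (gp V y) - bil (b'.1 ξ) (gp V x) (gp V y) := by
      unfold bil
      rw [ev_sub_left, dotProduct_sub]
    rw [h1, bil_swap (b'.1 ξ) (gp V y) (gp V x)]
    unfold bil
    rw [ev_cls G b ξ hx.1, ev_cls G b' ξ hy.1, sub_neg_eq_add]
    have h2 := ξ.2.2 x y hadj
    rw [dotProduct_comm (gp V y), dotProduct_comm (gp V x)]
    exact h2

/-- the class of a K4 -/
noncomputable def clsOf (G : SimpleGraph V) (T : K4s G) : Cls G := ⟨tau G T, T, rfl⟩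

theorem mem_Vb_clsOf {G : SimpleGraph V} {T : K4s G} {v : V} (hv : v ∈ T.1) :
    v ∈ Vb G (clsOf G T) := mem_Vb.mpr ⟨T, rfl, hv⟩

/-- non-hinge pairs: a vertex of a K4 through `v` in class `b` has at most one neighbour in a K4
through `v` in class `b'` (besides `v`) -/
theorem match_edge (G : SimpleGraph V) {b b' : Cls G} {v : V}
    (hv : Vb G b ∩ Vb G b' = {v}) {T T' : K4s G} (hT : tau G T = b.1) (hT' : tau G T' = b'.1)
    (hvT : v ∈ T.1) (hvT' : v ∈ T'.1) {x y y' : V} (hx : x ∈ T.1) (hxv : x ≠ v)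
    (hy : y ∈ T'.1) (hyv : y ≠ v) (hy' : y' ∈ T'.1) (hyv' : y' ≠ v)
    (h1 : G.Adj x y) (h2 : G.Adj x y') : y = y' := by
  by_contra hne
  have hcl : G.IsNClique 4 ({v, x, y, y'} : Finset V) := by
    have a1 : G.Adj v x := T.2.isClique hvT hx (Ne.symm hxv)
    have a2 : G.Adj v y := T'.2.isClique hvT' hy (Ne.symm hyv)
    have a3 : G.Adj v y' := T'.2.isClique hvT' hy' (Ne.symm hyv')
    have a4 : G.Adj y y' := T'.2.isClique hy hy' hne
    rw [SimpleGraph.isNClique_iff]
    constructor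
    · intro a ha c hc hac
      simp only [Finset.coe_insert, Finset.coe_singleton, Set.mem_insert_iff,
        Set.mem_singleton_iff] at ha hc
      rcases ha with rfl | rfl | rfl | rfl <;> rcases hc with rfl | rfl | rfl | rfl <;>
        first
        | exact absurd rfl hac
        | assumption
        | (apply SimpleGraph.Adj.symm; assumption)
    · rw [Finset.card_insert_of_notMem, Finset.card_insert_of_notMem,
        Finset.card_insert_of_notMem, Finset.card_singleton]
      · simpa using hne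
      · simp [h1.ne, h2.ne]
      · simp [a1.ne, a2.ne, a3.ne]
  let T'' : K4s G := ⟨{v, x, y, y'}, hcl⟩
  have hb : clsOf G T'' = b' := by
    by_contra hbb
    have h3 := Vb_inter G hbb
    have h4 : 2 < (Vb G (clsOf G T'') ∩ Vb G b').card := by
      rw [Finset.two_lt_card_iff]
      refine ⟨v, y, y', ?_, ?_, ?_, Ne.symm hyv, Ne.symm hyv', hne⟩
      · rw [Finset.mem_inter]
        exact ⟨mem_Vb_clsOf (by simp [T'']), mem_Vb.mpr ⟨T', hT', hvT'⟩⟩
      · rw [Finset.mem_inter]
        exact ⟨mem_Vb_clsOf (by simp [T'']), mem_Vb.mpr ⟨T', hT', hy⟩⟩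
      · rw [Finset.mem_inter]
        exact ⟨mem_Vb_clsOf (by simp [T'']), mem_Vb.mpr ⟨T', hT', hy'⟩⟩
    omega
  have hxb' : x ∈ Vb G b' := by
    rw [← hb]
    exact mem_Vb_clsOf (by simp [T''])
  have hxb : x ∈ Vb G b := mem_Vb.mpr ⟨T, hT, hx⟩
  have h5 : x ∈ Vb G b ∩ Vb G b' := Finset.mem_inter.mpr ⟨hxb, hxb'⟩
  rw [hv, Finset.mem_singleton] at h5
  exact hxv h5

/-- every edge lies in a class -/
theorem edge_cls (G : SimpleGraph V) (hK : K4Covered G) {u v : V} (h : G.Adj u v) :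
    ∃ b : Cls G, u ∈ Vb G b ∧ v ∈ Vb G b := by
  obtain ⟨T, hT, hu, hv⟩ := hK u v h
  exact ⟨clsOf G ⟨T, hT⟩, mem_Vb_clsOf hu, mem_Vb_clsOf hv⟩

end Pool.Agent.H49BJ
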