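import Pool.Agent.H49BJ.Classes

/-!
# In a claw-free graph every vertex is in at most two classes
-/

open Matrix Module

namespace Pool.Agent.H49BJ

open SimpleGraph

variable {V : Type} [Fintype V] [DecidableEq V]

omit [Fintype V] in
theorem exists_avoid {A : Finset V} (hA : 3 ≤ A.card) (a b : V) : ∃ x ∈ A, x ≠ a ∧ x ≠ b := by
  have h1 : ¬ A ⊆ {a, b} := by
    intro h
    have h2 := Finset.card_le_card h
    have h3 : ({a, b} : Finset V).card ≤ 2 := Finset.card_le_two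
    omega
  rw [Finset.not_subset] at h1
  obtain ⟨x, hx, hxab⟩ := h1
  refine ⟨x, hx, ?_, ?_⟩
  · rintro rfl; exact hxab (by simp)
  · rintro rfl; exact hxab (by simp)

/-- For two classes and K4s through `v` in them: `x` in the first and `y` in the second are distinct
and not adjacent as soon as `x` avoids one vertex and `y` avoids one vertex depending on `x`. -/
theorem pair_avoid (G : SimpleGraph V) {b b' : Cls G} (hbb : b ≠ b') {v : V} {T T' : K4s G}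
    (hT : tau G T = b.1) (hT' : tau G T' = b'.1) (hvT : v ∈ T.1) (hvT' : v ∈ T'.1) :
    ∃ (p : V) (q : V → V), ∀ x ∈ T.1.erase v, ∀ y ∈ T'.1.erase v, x ≠ p → y ≠ q x →
      x ≠ y ∧ ¬ G.Adj x y := by
  classical
  have hvb : v ∈ Vb G b := mem_Vb.mpr ⟨T, hT, hvT⟩
  have hvb' : v ∈ Vb G b' := mem_Vb.mpr ⟨T', hT', hvT'⟩
  by_cases hst : ∃ u, u ≠ v ∧ u ∈ Vb G b ∩ Vb G b'
  · obtain ⟨u, huv, hu⟩ := hst
    have hin : ∀ z, z ∈ Vb G b → z ∈ Vb G b' → z = v ∨ z = u := by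
      intro z h1 h2
      by_contra hz
      push Not at hz
      have h3 := Vb_inter G hbb
      have h4 : 2 < (Vb G b ∩ Vb G b').card := by
        rw [Finset.two_lt_card_iff]
        exact ⟨v, u, z, Finset.mem_inter.mpr ⟨hvb, hvb'⟩, hu, Finset.mem_inter.mpr ⟨h1, h2⟩,
          huv.symm, hz.1.symm, hz.2.symm⟩
      omega
    refine ⟨u, fun _ => u, ?_⟩
    intro x hx y hy hxu hyu
    rw [Finset.mem_erase] at hx hy
    have hxb : x ∈ Vb G b := mem_Vb.mpr ⟨T, hT, hx.2⟩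
    have hyb : y ∈ Vb G b' := mem_Vb.mpr ⟨T', hT', hy.2⟩
    have hxb' : x ∉ Vb G b' := by
      intro h
      rcases hin x hxb h with h | h
      · exact hx.1 h
      · exact hxu h
    have hyb' : y ∉ Vb G b := by
      intro h
      rcases hin y h hyb with h | h
      · exact hy.1 h
      · exact hyu h
    refine ⟨fun h => hxb' (h ▸ hyb), ?_⟩
    exact hinge_no_edge G hbb huv.symm (Finset.mem_inter.mpr ⟨hvb, hvb'⟩) hu
      (Finset.mem_sdiff.mpr ⟨hxb, hxb'⟩) (Finset.mem_sdiff.mpr ⟨hyb, hyb'⟩)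
  · push Not at hst
    have hint : Vb G b ∩ Vb G b' = {v} := by
      ext z
      rw [Finset.mem_singleton]
      constructor
      · intro hz
        by_contra hne
        exact hst z hne hz
      · rintro rfl
        exact Finset.mem_inter.mpr ⟨hvb, hvb'⟩
    refine ⟨v, fun x => if h : ∃ y ∈ T'.1.erase v, G.Adj x y then h.choose else v, ?_⟩
    intro x hx y hy _ hyq
    have hx' := Finset.mem_erase.mp hx
    have hy' := Finset.mem_erase.mp hy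
    refine ⟨?_, ?_⟩
    · rintro rfl
      exact hst x hx'.1 (Finset.mem_inter.mpr ⟨mem_Vb.mpr ⟨T, hT, hx'.2⟩,
        mem_Vb.mpr ⟨T', hT', hy'.2⟩⟩)
    · intro hadj
      have hex : ∃ y ∈ T'.1.erase v, G.Adj x y := ⟨y, hy, hadj⟩
      simp only [dif_pos hex] at hyq
      obtain ⟨h1, h2⟩ := hex.choose_spec
      rw [Finset.mem_erase] at h1
      exact hyq (match_edge G hint hT hT' hvT hvT' hx'.2 hx'.1 hy'.2 hy'.1 h1.2 h1.1 hadj h2)

open Classical in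
/-- in a claw-free graph every vertex is in at most two classes -/
theorem le_two_classes (G : SimpleGraph V) (hc : ClawFree G) (v : V) :
    (Finset.univ.filter (fun b : Cls G => v ∈ Vb G b)).card ≤ 2 := by
  by_contra hcon
  push Not at hcon
  obtain ⟨b₁, b₂, b₃, h1, h2, h3, h12, h13, h23⟩ := Finset.two_lt_card_iff.mp hcon
  rw [Finset.mem_filter] at h1 h2 h3
  obtain ⟨T₁, hT₁, hv₁⟩ := mem_Vb.mp h1.2
  obtain ⟨T₂, hT₂, hv₂⟩ := mem_Vb.mp h2.2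
  obtain ⟨T₃, hT₃, hv₃⟩ := mem_Vb.mp h3.2
  obtain ⟨p₁₂, q₁₂, H₁₂⟩ := pair_avoid G h12 hT₁ hT₂ hv₁ hv₂
  obtain ⟨p₁₃, q₁₃, H₁₃⟩ := pair_avoid G h13 hT₁ hT₃ hv₁ hv₃
  obtain ⟨p₂₃, q₂₃, H₂₃⟩ := pair_avoid G h23 hT₂ hT₃ hv₂ hv₃
  have hcard : ∀ T : K4s G, v ∈ T.1 → 3 ≤ (T.1.erase v).card := by
    intro T hv
    rw [Finset.card_erase_of_mem hv, T.2.card_eq]
  obtain ⟨x₁, hx₁, ha₁, hb₁⟩ := exists_avoid (hcard T₁ hv₁) p₁₂ p₁₃
  obtain ⟨x₂, hx₂, ha₂, hb₂⟩ := exists_avoid (hcard T₂ hv₂) (q₁₂ x₁) p₂₃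
  obtain ⟨x₃, hx₃, ha₃, hb₃⟩ := exists_avoid (hcard T₃ hv₃) (q₁₃ x₁) (q₂₃ x₂)
  have hadj : ∀ T : K4s G, v ∈ T.1 → ∀ x ∈ T.1.erase v, G.Adj v x := by
    intro T hv x hx
    rw [Finset.mem_erase] at hx
    exact T.2.isClique hv hx.2 hx.1.symm
  apply hc
  exact ⟨v, x₁, x₂, x₃, hadj T₁ hv₁ x₁ hx₁, hadj T₂ hv₂ x₂ hx₂, hadj T₃ hv₃ x₃ hx₃,
    (H₁₂ x₁ hx₁ x₂ hx₂ ha₁ ha₂).1, (H₁₃ x₁ hx₁ x₃ hx₃ hb₁ ha₃).1, (H₂₃ x₂ hx₂ x₃ hx₃ hb₂ hb₃).1,
    (H₁₂ x₁ hx₁ x₂ hx₂ ha₁ ha₂).2, (H₁₃ x₁ hx₁ x₃ hx₃ hb₁ ha₃).2, (H₂₃ x₂ hx₂ x₃ hx₃ hb₂ hb₃).2⟩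

end Pool.Agent.H49BJ
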