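import Pool.Agent.H49BJ.GDefs

/-!
# The purely combinatorial counting lemma
-/

open Matrix Module

namespace Pool.Agent.H49BJ

open SimpleGraph

variable {V : Type} [Fintype V] [DecidableEq V]

/-- no small cuts in a 6-connected graph -/
theorem KConn.cut {k : ℕ} {G : SimpleGraph V} (h : KConn k G) (S A : Finset V) {a c : V}
    (ha : a ∈ A) (haS : a ∉ S) (hc : c ∉ A) (hcS : c ∉ S)
    (hno : ∀ x ∈ A, x ∉ S → ∀ y, y ∉ A → y ∉ S → ¬ G.Adj x y) : k ≤ S.card := by
  by_contra hlt
  have hconn := h.2 S (not_le.mp hlt)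
  have key : ∀ (x y : ((S : Set V)ᶜ : Set V)), (G.induce ((S : Set V)ᶜ)).Reachable x y →
      x.1 ∈ A → y.1 ∈ A := by
    rintro x y ⟨p⟩
    induction p with
    | nil => exact id
    | cons hadj p ih =>
      intro hx
      apply ih
      by_contra hn
      rename_i u v w
      have hu : u.1 ∉ S := fun h => u.2 (by simpa using h)
      have hv : v.1 ∉ S := fun h => v.2 (by simpa using h)
      exact hno u.1 hx hu v.1 hn hv hadj
  have := key ⟨a, by simpa using haS⟩ ⟨c, by simpa using hcS⟩
    (hconn.preconnected _ _) ha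
  exact hc this

open Classical in
theorem counting (G : SimpleGraph V) [LinearOrder V] (h6 : KConn 6 G) {β : Type*} [Fintype β]
    (U : β → Finset V) (h4 : ∀ b, 4 ≤ (U b).card) (h2 : ∀ b b', b ≠ b' → (U b ∩ U b').card ≤ 2)
    (hE : ∀ u v, G.Adj u v → ∃ b, u ∈ U b ∧ v ∈ U b)
    (hv : ∀ v, (Finset.univ.filter (fun b => v ∈ U b)).card ≤ 2) (hβ : 2 ≤ Fintype.card β) :
    6 * Fintype.card β
      + (Finset.univ.filter (fun v => (Finset.univ.filter (fun b => v ∈ U b)).card = 2 ∧
          ∃ w, w < v ∧ (Finset.univ.filter (fun b => w ∈ U b)).card = 2 ∧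
            ∀ b, v ∈ U b ↔ w ∈ U b)).card
      ≤ 3 * (Finset.univ.filter (fun v => (Finset.univ.filter (fun b => v ∈ U b)).card = 2)).card := by
  obtain ⟨cl, hcl⟩ : ∃ cl : V → Finset β, cl = fun v => Finset.univ.filter (fun b => v ∈ U b) :=
    ⟨_, rfl⟩
  have hcl' : ∀ v, Finset.univ.filter (fun b => v ∈ U b) = cl v := by intro v; rw [hcl]
  simp only [hcl'] at hv ⊢
  obtain ⟨J, hJ⟩ : ∃ J : Finset V, J = Finset.univ.filter (fun v => (cl v).card = 2) := ⟨_, rfl⟩
  obtain ⟨J1, hJ1⟩ : ∃ J1 : Finset V, J1 = Finset.univ.filter (fun v => (cl v).card = 2 ∧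
          ∃ w, w < v ∧ (cl w).card = 2 ∧ ∀ b, v ∈ U b ↔ w ∈ U b) := ⟨_, rfl⟩
  rw [← hJ, ← hJ1]
  have mem_cl : ∀ v b, b ∈ cl v ↔ v ∈ U b := by intro v b; simp [hcl]
  have two_cl : ∀ v b b', b ≠ b' → v ∈ U b → v ∈ U b' → cl v = {b, b'} := by
    intro v b b' hne h h'
    symm
    apply Finset.eq_of_subset_of_card_le
    · intro x hx
      simp only [Finset.mem_insert, Finset.mem_singleton] at hx
      rcases hx with rfl | rfl
      · exact (mem_cl v _).2 h
      · exact (mem_cl v _).2 h'
    · rw [Finset.card_pair hne]; exact hv v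
  have three : ∀ v b b' b'', b ≠ b' → v ∈ U b → v ∈ U b' → v ∈ U b'' → b'' = b ∨ b'' = b' := by
    intro v b b' b'' hne h h' h''
    have := two_cl v b b' hne h h'
    have h3 : b'' ∈ cl v := (mem_cl v b'').2 h''
    rw [this] at h3
    simpa using h3
  have J_iff : ∀ v, v ∈ J ↔ (cl v).card = 2 := by intro v; simp [hJ]
  have mem_J : ∀ v b b', b ≠ b' → v ∈ U b → v ∈ U b' → v ∈ J := by
    intro v b b' hne h h'
    rw [J_iff, two_cl v b b' hne h h', Finset.card_pair hne]
  obtain ⟨d, hd⟩ : ∃ d : β → ℕ, d = fun b => (J ∩ U b).card := ⟨_, rfl⟩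
  have hd' : ∀ b, d b = (J ∩ U b).card := by intro b; rw [hd]
  -- every class misses a vertex
  have miss : ∀ b, ∃ c, c ∉ U b := by
    intro b
    have : Nontrivial β := Fintype.one_lt_card_iff_nontrivial.1 hβ
    obtain ⟨b', hb'⟩ := exists_ne b
    by_contra hcon
    push Not at hcon
    have h1 : U b ∩ U b' = U b' := Finset.inter_eq_right.2 (fun x _ => hcon x)
    have := h2 b b' hb'.symm
    rw [h1] at this
    have := h4 b'
    omega
  -- (1)
  have priv : ∀ b, ¬ (U b ⊆ J) → 6 ≤ d b := by
    intro b hb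
    obtain ⟨a, haU, haJ⟩ := Finset.not_subset.1 hb
    obtain ⟨c, hc⟩ := miss b
    rw [hd']
    refine h6.cut (J ∩ U b) (U b) haU (fun h => haJ (Finset.mem_inter.1 h).1) hc
      (fun h => hc (Finset.mem_inter.1 h).2) ?_
    intro x hx hxS y hy _ hadj
    obtain ⟨b'', hb1, hb2⟩ := hE x y hadj
    have hne : b ≠ b'' := by rintro rfl; exact hy hb2
    exact hxS (Finset.mem_inter.2 ⟨mem_J x b b'' hne hx hb1, hx⟩)
  have four_d : ∀ b, 4 ≤ d b := by
    intro b
    by_cases h : U b ⊆ J
    · rw [hd', Finset.inter_eq_right.2 h]; exact h4 b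
    · have := priv b h; omega
  have small_d : ∀ b, d b < 6 → d b = (U b).card := by
    intro b hb
    have h : U b ⊆ J := by
      by_contra h
      have := priv b h; omega
    rw [hd', Finset.inter_eq_right.2 h]
  -- (2)
  have pair : ∀ b b', b ≠ b' → (U b ∩ U b').card = 2 → 10 ≤ d b + d b' := by
    intro b b' hne hc2
    have hsubJ : U b ∩ U b' ⊆ J := by
      intro x hx
      rw [Finset.mem_inter] at hx
      exact mem_J x b b' hne hx.1 hx.2
    obtain ⟨S, hS⟩ : ∃ S : Finset V, S = (J ∩ U b) \ U b' ∪ (J ∩ U b') \ U b := ⟨_, rfl⟩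
    have e1 : ((J ∩ U b) \ U b').card + 2 = d b := by
      rw [hd', ← Finset.card_sdiff_add_card_inter (J ∩ U b) (U b')]
      congr 1
      rw [← hc2, Finset.inter_assoc, Finset.inter_eq_right.2 hsubJ]
    have e2 : ((J ∩ U b') \ U b).card + 2 = d b' := by
      rw [hd', ← Finset.card_sdiff_add_card_inter (J ∩ U b') (U b)]
      congr 1
      rw [← hc2, Finset.inter_assoc, Finset.inter_comm (U b') (U b), Finset.inter_eq_right.2 hsubJ]
    have e3 : S.card + 4 = d b + d b' := by
      rw [hS, Finset.card_union_of_disjoint]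
      · omega
      · rw [Finset.disjoint_left]
        intro x hx hx'
        simp only [Finset.mem_sdiff, Finset.mem_inter] at hx hx'
        exact hx.2 hx'.1.2
    -- vertices of S are in a third class
    have third : ∀ x ∈ S, ∃ b'', b'' ≠ b ∧ b'' ≠ b' ∧ x ∈ U b'' := by
      intro x hx
      rw [hS, Finset.mem_union] at hx
      simp only [Finset.mem_sdiff, Finset.mem_inter] at hx
      rcases hx with ⟨⟨hxJ, hxb⟩, hxb'⟩ | ⟨⟨hxJ, hxb⟩, hxb'⟩
      · rw [J_iff] at hxJ
        obtain ⟨b'', hb'', hne''⟩ := Finset.exists_mem_ne (by omega : 1 < (cl x).card) b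
        rw [mem_cl] at hb''
        exact ⟨b'', hne'', by rintro rfl; exact hxb' hb'', hb''⟩
      · rw [J_iff] at hxJ
        obtain ⟨b'', hb'', hne''⟩ := Finset.exists_mem_ne (by omega : 1 < (cl x).card) b'
        rw [mem_cl] at hb''
        exact ⟨b'', by rintro rfl; exact hxb' hb'', hne'', hb''⟩
    by_cases hW : ∃ c, c ∉ U b ∪ U b'
    · obtain ⟨c, hc⟩ := hW
      have hcb : c ∉ U b := fun h => hc (Finset.mem_union_left _ h)
      have hcb' : c ∉ U b' := fun h => hc (Finset.mem_union_right _ h)
      obtain ⟨u, hu⟩ := Finset.card_pos.1 (by omega : 0 < (U b ∩ U b').card)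
      rw [Finset.mem_inter] at hu
      have h6' : 6 ≤ S.card := by
        refine h6.cut S (U b ∪ U b') (a := u) (c := c) (Finset.mem_union_left _ hu.1) ?_ hc ?_ ?_
        · intro h
          rw [hS, Finset.mem_union] at h
          simp only [Finset.mem_sdiff, Finset.mem_inter] at h
          rcases h with h | h
          · exact h.2 hu.2
          · exact h.2 hu.1
        · intro h
          rw [hS, Finset.mem_union] at h
          simp only [Finset.mem_sdiff, Finset.mem_inter] at h
          rcases h with h | h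
          · exact hcb h.1.2
          · exact hcb' h.1.2
        · intro x hx hxS y hy _ hadj
          obtain ⟨b'', hb1, hb2⟩ := hE x y hadj
          have hn1 : b'' ≠ b := by rintro rfl; exact hy (Finset.mem_union_left _ hb2)
          have hn2 : b'' ≠ b' := by rintro rfl; exact hy (Finset.mem_union_right _ hb2)
          apply hxS
          rw [hS, Finset.mem_union]
          simp only [Finset.mem_sdiff, Finset.mem_inter]
          rw [Finset.mem_union] at hx
          rcases hx with hx | hx
          · left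
            refine ⟨⟨mem_J x b b'' hn1.symm hx hb1, hx⟩, fun hx' => ?_⟩
            rcases three x b b' b'' hne hx hx' hb1 with h | h
            · exact hn1 h
            · exact hn2 h
          · right
            refine ⟨⟨mem_J x b' b'' hn2.symm hx hb1, hx⟩, fun hx' => ?_⟩
            rcases three x b b' b'' hne hx' hx hb1 with h | h
            · exact hn1 h
            · exact hn2 h
      omega
    · push Not at hW
      by_contra hlt
      have hb4 := four_d b
      have hb4' := four_d b'
      have hdb := small_d b (by omega)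
      have hdb' := small_d b' (by omega)
      have huniv : U b ∪ U b' = Finset.univ := Finset.eq_univ_iff_forall.2 hW
      have hcard := Finset.card_union_add_card_inter (U b) (U b')
      rw [huniv, Finset.card_univ, hc2] at hcard
      have hV := h6.1
      have hS5 : S.card = 5 := by omega
      -- a third class has four vertices, all in S
      have inS : ∀ b'', b'' ≠ b → b'' ≠ b' → U b'' ⊆ S := by
        intro b'' hn1 hn2 x hx
        rw [hS, Finset.mem_union]
        simp only [Finset.mem_sdiff, Finset.mem_inter]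
        rcases Finset.mem_union.1 (hW x) with hx' | hx'
        · left
          refine ⟨⟨mem_J x b b'' hn1.symm hx' hx, hx'⟩, fun h => ?_⟩
          rcases three x b b' b'' hne hx' h hx with h | h
          · exact hn1 h
          · exact hn2 h
        · right
          refine ⟨⟨mem_J x b' b'' hn2.symm hx' hx, hx'⟩, fun h => ?_⟩
          rcases three x b b' b'' hne h hx' hx with h | h
          · exact hn1 h
          · exact hn2 h
      have hSsub : ∀ x ∈ S, x ∈ U b ∨ x ∈ U b' := by
        intro x hx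
        exact Finset.mem_union.1 (hW x)
      have le4 : ∀ b'', b'' ≠ b → b'' ≠ b' → (U b'').card ≤ 4 := by
        intro b'' hn1 hn2
        have hsub : U b'' ⊆ (U b ∩ U b'') ∪ (U b' ∩ U b'') := by
          intro x hx
          rcases Finset.mem_union.1 (hW x) with h | h
          · exact Finset.mem_union_left _ (Finset.mem_inter.2 ⟨h, hx⟩)
          · exact Finset.mem_union_right _ (Finset.mem_inter.2 ⟨h, hx⟩)
        have h1 := Finset.card_le_card hsub
        have h3 := Finset.card_union_le (U b ∩ U b'') (U b' ∩ U b'')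
        have h5 := h2 b b'' hn1.symm
        have h7 := h2 b' b'' hn2.symm
        omega
      obtain ⟨s, hs⟩ := Finset.card_pos.1 (by omega : 0 < S.card)
      obtain ⟨b1, hb1, hb1', hsb1⟩ := third s hs
      obtain ⟨t, htS, htb1⟩ : ∃ t ∈ S, t ∉ U b1 := by
        by_contra hcon
        push Not at hcon
        have h1 := Finset.card_le_card (show S ⊆ U b1 from hcon)
        have h3 := le4 b1 hb1 hb1'
        omega
      obtain ⟨b2', hb2, hb2', htb2⟩ := third t htS
      have hne12 : b1 ≠ b2' := by rintro rfl; exact htb1 htb2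
      have hdisj : Disjoint (U b1) (U b2') := by
        rw [Finset.disjoint_left]
        intro x hx hx'
        rcases hSsub x (inS b1 hb1 hb1' hx) with h | h
        · rcases three x b b1 b2' hb1.symm h hx hx' with h | h
          · exact hb2 h
          · exact hne12 h.symm
        · rcases three x b' b1 b2' hb1'.symm h hx hx' with h | h
          · exact hb2' h
          · exact hne12 h.symm
      have hsub := Finset.card_le_card
        (Finset.union_subset (inS b1 hb1 hb1') (inS b2' hb2 hb2'))
      rw [Finset.card_union_of_disjoint hdisj] at hsub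
      have := h4 b1
      have := h4 b2'
      omega
  -- (3)
  obtain ⟨w, hw⟩ : ∃ w : β → ℕ, w = fun b => min (d b - 4) 2 := ⟨_, rfl⟩
  have hw' : ∀ b, w b = min (d b - 4) 2 := by intro b; rw [hw]
  have hwd : ∀ b, w b * d b + 24 ≤ 6 * d b := by
    intro b
    have := four_d b
    rw [hw']
    rcases Nat.lt_or_ge (d b) 6 with h | h
    · interval_cases h : d b <;> simp
    · rw [min_eq_right (by omega)]; omega
  -- twins
  have twin_pair : ∀ v w', v ≠ w' → v ∈ J → (∀ b, v ∈ U b ↔ w' ∈ U b) →
      ∃ b b', b ≠ b' ∧ cl v = {b, b'} ∧ U b ∩ U b' = {v, w'} := by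
    intro v w' hvw hvJ hsame
    rw [J_iff, Finset.card_eq_two] at hvJ
    obtain ⟨b, b', hne, hbb'⟩ := hvJ
    refine ⟨b, b', hne, hbb', ?_⟩
    have m1 : v ∈ U b := (mem_cl v b).1 (by rw [hbb']; simp)
    have m2 : v ∈ U b' := (mem_cl v b').1 (by rw [hbb']; simp)
    symm
    apply Finset.eq_of_subset_of_card_le
    · intro x hx
      simp only [Finset.mem_insert, Finset.mem_singleton] at hx
      rcases hx with rfl | rfl
      · exact Finset.mem_inter.2 ⟨m1, m2⟩
      · exact Finset.mem_inter.2 ⟨(hsame b).1 m1, (hsame b').1 m2⟩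
    · rw [Finset.card_pair hvw]; exact h2 b b' hne
  obtain ⟨Jp, hJp⟩ : ∃ Jp : Finset V, Jp = J.filter (fun v => ∃ w', v ≠ w' ∧
    ∀ b, v ∈ U b ↔ w' ∈ U b) := ⟨_, rfl⟩
  -- weights
  have hwt : ∀ v ∈ Jp, 2 ≤ ∑ b ∈ cl v, w b := by
    intro v hvp
    rw [hJp, Finset.mem_filter] at hvp
    obtain ⟨hvJ, w', hvw, hsame⟩ := hvp
    obtain ⟨b, b', hne, hbb', hint⟩ := twin_pair v w' hvw hvJ hsame
    have h10 := pair b b' hne (by rw [hint, Finset.card_pair hvw])
    rw [hbb', Finset.sum_pair hne, hw', hw']
    have := four_d b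
    have := four_d b'
    omega
  have dc : ∀ (T : Finset V) (f : β → ℕ), ∑ v ∈ T, ∑ b ∈ cl v, f b
      = ∑ b, f b * (T ∩ U b).card := by
    intro T f
    have h1 : ∀ v ∈ T, ∑ b ∈ cl v, f b = ∑ b, if v ∈ U b then f b else 0 := by
      intro v _
      rw [hcl, Finset.sum_filter]
    rw [Finset.sum_congr rfl h1, Finset.sum_comm]
    refine Finset.sum_congr rfl (fun b _ => ?_)
    rw [← Finset.sum_filter, Finset.sum_const, smul_eq_mul, mul_comm]
    congr 2
  have hsumd : ∑ b, d b = 2 * J.card := by
    have h1 := dc J (fun _ => 1)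
    simp only [Finset.sum_const, smul_eq_mul, mul_one, one_mul] at h1
    have h3 : ∑ v ∈ J, (cl v).card = 2 * J.card := by
      rw [Finset.sum_congr rfl (fun v hv => (J_iff v).1 hv), Finset.sum_const, smul_eq_mul, mul_comm]
    rw [h3] at h1
    rw [hd]
    exact h1.symm
  have hJp2 : 2 * Jp.card + 24 * Fintype.card β ≤ 12 * J.card := by
    have h1 : 2 * Jp.card ≤ ∑ v ∈ Jp, ∑ b ∈ cl v, w b := by
      have := Finset.sum_le_sum hwt
      rw [Finset.sum_const, smul_eq_mul, mul_comm] at this
      exact this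
    rw [dc] at h1
    have h3 : ∑ b, w b * (Jp ∩ U b).card ≤ ∑ b, w b * d b := by
      refine Finset.sum_le_sum (fun b _ => Nat.mul_le_mul_left _ ?_)
      rw [hd']
      apply Finset.card_le_card
      apply Finset.inter_subset_inter_right
      rw [hJp]
      exact Finset.filter_subset _ _
    have h5 : ∑ b, (w b * d b + 24) ≤ ∑ b, 6 * d b := Finset.sum_le_sum (fun b _ => hwd b)
    rw [Finset.sum_add_distrib, Finset.sum_const, ← Finset.mul_sum, hsumd, Finset.card_univ,
      smul_eq_mul] at h5
    omega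
  -- |J1| twice
  have hJ1p : 2 * J1.card ≤ Jp.card := by
    have hex : ∀ v ∈ J1, ∃ w', w' < v ∧ w' ∈ J ∧ ∀ b, v ∈ U b ↔ w' ∈ U b := by
      intro v hv1
      rw [hJ1, Finset.mem_filter] at hv1
      obtain ⟨_, _, w', h1, h3, h5⟩ := hv1
      exact ⟨w', h1, (J_iff w').2 h3, h5⟩
    choose! f hf1 hf2 hf3 using hex
    have hJ1J : ∀ v ∈ J1, v ∈ J := by
      intro v hv1
      rw [hJ1, Finset.mem_filter] at hv1
      exact (J_iff v).2 hv1.2.1
    -- three mutually twin vertices: impossible
    have no3 : ∀ x y z, x ∈ J → x ≠ y → x ≠ z → y ≠ z → (∀ b, x ∈ U b ↔ y ∈ U b) →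
        (∀ b, x ∈ U b ↔ z ∈ U b) → False := by
      intro x y z hx hxy hxz hyz h1 h3
      obtain ⟨b, b', hne, hbb', hint⟩ := twin_pair x y hxy hx h1
      have m1 : x ∈ U b := (mem_cl x b).1 (by rw [hbb']; simp)
      have m2 : x ∈ U b' := (mem_cl x b').1 (by rw [hbb']; simp)
      have : z ∈ U b ∩ U b' := Finset.mem_inter.2 ⟨(h3 b).1 m1, (h3 b').1 m2⟩
      rw [hint] at this
      simp only [Finset.mem_insert, Finset.mem_singleton] at this
      rcases this with h | h
      · exact hxz h.symm
      · exact hyz h.symm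
    have hinj : Set.InjOn f J1 := by
      intro x hx y hy hxy
      by_contra hne
      have hx' : x ∈ J1 := hx
      have hy' : y ∈ J1 := hy
      refine no3 (f x) x y (hf2 x hx') (hf1 x hx').ne (by rw [hxy]; exact (hf1 y hy').ne) hne
        (fun b => (hf3 x hx' b).symm) (fun b => by rw [hxy]; exact (hf3 y hy' b).symm)
    have hdis : Disjoint J1 (J1.image f) := by
      rw [Finset.disjoint_left]
      intro x hx hx'
      obtain ⟨y, hy, hyx⟩ := Finset.mem_image.1 hx'
      have h1 := hf1 y hy
      have h3 := hf3 y hy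
      rw [hyx] at h1 h3
      have h5 := hf1 x hx
      have h7 := hf3 x hx
      refine no3 x y (f x) (hJ1J x hx) h1.ne h5.ne' (h5.trans h1).ne' (fun b => (h3 b).symm) h7
    have hsub : J1 ∪ J1.image f ⊆ Jp := by
      intro x hx
      rw [hJp, Finset.mem_filter]
      rcases Finset.mem_union.1 hx with hx | hx
      · exact ⟨hJ1J x hx, f x, (hf1 x hx).ne', hf3 x hx⟩
      · obtain ⟨y, hy, rfl⟩ := Finset.mem_image.1 hx
        exact ⟨hf2 y hy, y, (hf1 y hy).ne, fun b => (hf3 y hy b).symm⟩
    have := Finset.card_le_card hsub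
    rw [Finset.card_union_of_disjoint hdis, Finset.card_image_of_injOn hinj] at this
    omega
  omega

end Pool.Agent.H49BJ
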