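import Mathlib

/-!
# Generic body-and-joint structures in the projective model of 3-space: definitions

A twist is given by the six coordinates of a skew-symmetric 4 x 4 matrix.  A point is a vector of
`K^4` (homogeneous coordinates).
-/

open Matrix Module

namespace Pool.Agent.H49BJ

/-- A twist: the coordinates `(01, 02, 03, 12, 13, 23)` of a skew-symmetric 4 x 4 matrix. -/
abbrev Tw (K : Type*) := Fin 6 → K

/-- A point in homogeneous coordinates. -/
abbrev Pt (K : Type*) := Fin 4 → K

section basic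

variable {K : Type*} [Field K]

/-- The skew-symmetric matrix with coordinates `a`, applied to the vector `p`. -/
def ev (a : Tw K) (p : Pt K) : Pt K :=
  ![a 0 * p 1 + a 1 * p 2 + a 2 * p 3,
    - (a 0 * p 0) + a 3 * p 2 + a 4 * p 3,
    - (a 1 * p 0) - a 3 * p 1 + a 5 * p 3,
    - (a 2 * p 0) - a 4 * p 1 - a 5 * p 2]

/-- The alternating form `q · (a p)`. -/
def bil (a : Tw K) (p q : Pt K) : K := q ⬝ᵥ ev a p

/-- The skew-symmetric matrix `u vᵀ - v uᵀ`. -/
def wedge (u v : Pt K) : Tw K :=
  ![u 0 * v 1 - u 1 * v 0, u 0 * v 2 - u 2 * v 0, u 0 * v 3 - u 3 * v 0,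
    u 1 * v 2 - u 2 * v 1, u 1 * v 3 - u 3 * v 1, u 2 * v 3 - u 3 * v 2]

theorem ev_add_left (a b : Tw K) (p : Pt K) : ev (a + b) p = ev a p + ev b p := by
  funext i; fin_cases i <;> simp [ev] <;> ring

theorem ev_smul_left (c : K) (a : Tw K) (p : Pt K) : ev (c • a) p = c • ev a p := by
  funext i; fin_cases i <;> simp [ev] <;> ring

theorem ev_add_right (a : Tw K) (p q : Pt K) : ev a (p + q) = ev a p + ev a q := by
  funext i; fin_cases i <;> simp [ev] <;> ring

theorem ev_smul_right (c : K) (a : Tw K) (p : Pt K) : ev a (c • p) = c • ev a p := by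
  funext i; fin_cases i <;> simp [ev] <;> ring

/-- `ev` as a bilinear map. -/
def evL : Tw K →ₗ[K] Pt K →ₗ[K] Pt K :=
  LinearMap.mk₂ K ev ev_add_left ev_smul_left ev_add_right (fun c a p => ev_smul_right c a p)

@[simp] theorem evL_apply (a : Tw K) (p : Pt K) : evL a p = ev a p := rfl

@[simp] theorem ev_zero_left (p : Pt K) : ev (0 : Tw K) p = 0 := by
  funext i; fin_cases i <;> simp [ev]

@[simp] theorem ev_zero_right (a : Tw K) : ev a (0 : Pt K) = 0 := by
  funext i; fin_cases i <;> simp [ev]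

theorem ev_neg_left (a : Tw K) (p : Pt K) : ev (-a) p = - ev a p := by
  funext i; fin_cases i <;> simp [ev] <;> ring

theorem ev_neg_right (a : Tw K) (p : Pt K) : ev a (-p) = - ev a p := by
  funext i; fin_cases i <;> simp [ev] <;> ring

theorem ev_sub_left (a b : Tw K) (p : Pt K) : ev (a - b) p = ev a p - ev b p := by
  funext i; fin_cases i <;> simp [ev] <;> ring

theorem ev_sub_right (a : Tw K) (p q : Pt K) : ev a (p - q) = ev a p - ev a q := by
  funext i; fin_cases i <;> simp [ev] <;> ring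

theorem bil_def (a : Tw K) (p q : Pt K) : bil a p q =
    a 0 * (q 0 * p 1 - q 1 * p 0) + a 1 * (q 0 * p 2 - q 2 * p 0) + a 2 * (q 0 * p 3 - q 3 * p 0)
    + a 3 * (q 1 * p 2 - q 2 * p 1) + a 4 * (q 1 * p 3 - q 3 * p 1)
    + a 5 * (q 2 * p 3 - q 3 * p 2) := by
  simp [bil, ev, dotProduct, Fin.sum_univ_four]; ring

theorem bil_swap (a : Tw K) (p q : Pt K) : bil a q p = - bil a p q := by
  rw [bil_def, bil_def]; ring

@[simp] theorem bil_self (a : Tw K) (p : Pt K) : bil a p p = 0 := by
  rw [bil_def]; ring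

theorem ev_wedge (u v p : Pt K) : ev (wedge u v) p = (v ⬝ᵥ p) • u - (u ⬝ᵥ p) • v := by
  funext i; fin_cases i <;> simp [ev, wedge, dotProduct, Fin.sum_univ_four] <;> ring

end basic

section structures

variable {K : Type*} [Field K] {β ι : Type*}

/-- The motion space of the body-and-joint structure with bodies `B`, joints `J` (joint `j` joins
the bodies `s j` and `t j` at the point `X j`). -/
def Mot (B : Finset β) (J : Finset ι) (s t : ι → β) (X : ι → Pt K) : Submodule K (β → Tw K) where
  carrier := {M | (∀ b, b ∉ B → M b = 0) ∧ ∀ j ∈ J, ev (M (s j)) (X j) = ev (M (t j)) (X j)}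
  add_mem' := by
    rintro M N ⟨h1, h2⟩ ⟨h3, h4⟩
    refine ⟨fun b hb => by simp [h1 b hb, h3 b hb], fun j hj => ?_⟩
    simp [ev_add_left, h2 j hj, h4 j hj]
  zero_mem' := by
    refine ⟨fun b _ => rfl, fun j _ => by simp⟩
  smul_mem' := by
    rintro c M ⟨h1, h2⟩
    refine ⟨fun b hb => by simp [h1 b hb], fun j hj => ?_⟩
    simp [ev_smul_left, h2 j hj]

theorem mem_Mot {B : Finset β} {J : Finset ι} {s t : ι → β} {X : ι → Pt K} {M : β → Tw K} :
    M ∈ Mot B J s t X ↔
      (∀ b, b ∉ B → M b = 0) ∧ ∀ j ∈ J, ev (M (s j)) (X j) = ev (M (t j)) (X j) := Iff.rfl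

/-- No two bodies are rigidly attached to each other. -/
def NR (B : Finset β) (J : Finset ι) (s t : ι → β) (X : ι → Pt K) : Prop :=
  ∀ a ∈ B, ∀ b ∈ B, a ≠ b → ∃ M ∈ Mot B J s t X, M a ≠ M b

/-- Two joints are parallel if they join the same two bodies. -/
def Par (s t : ι → β) (i j : ι) : Prop :=
  (s i = s j ∧ t i = t j) ∨ (s i = t j ∧ t i = s j)

end structures

section generic

/-- The field of rational functions in the coordinates of the joints. -/
abbrev GF (ι : Type*) := FractionRing (MvPolynomial (ι × Fin 4) ℚ)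

/-- The generic position of the joints. -/
noncomputable def gp (ι : Type*) : ι → Pt (GF ι) :=
  fun j i => algebraMap (MvPolynomial (ι × Fin 4) ℚ) (GF ι) (MvPolynomial.X (j, i))

end generic

end Pool.Agent.H49BJ
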