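import Pool.Agent.H49BJ.Defs

/-!
# Dimension counting lemmas
-/

open Matrix Module

namespace Pool.Agent.H49BJ

section dim

variable {K V W : Type*} [Field K] [AddCommGroup V] [Module K V] [FiniteDimensional K V]
  [AddCommGroup W] [Module K W]

theorem finrank_map_add_ker (f : V →ₗ[K] W) (E : Submodule K V) :
    finrank K (E.map f) + finrank K (E ⊓ LinearMap.ker f : Submodule K V) = finrank K E := by
  have h := LinearMap.finrank_range_add_finrank_ker (f.domRestrict E)
  rw [LinearMap.range_domRestrict] at h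
  rw [← h]
  congr 1
  have e : (E ⊓ LinearMap.ker f : Submodule K V)
      = (LinearMap.ker (f.domRestrict E)).map E.subtype := by
    ext x
    simp only [Submodule.mem_inf, LinearMap.mem_ker, Submodule.mem_map, Submodule.subtype_apply]
    constructor
    · rintro ⟨hx, h0⟩
      exact ⟨⟨x, hx⟩, h0, rfl⟩
    · rintro ⟨y, hy, rfl⟩
      exact ⟨y.2, hy⟩
  rw [e, Submodule.finrank_map_subtype_eq]

theorem finrank_map_le_add (δ : V →ₗ[K] W) {E₀ E : Submodule K V} (h : E₀ ≤ E) :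
    finrank K (E.map δ) + finrank K E₀ ≤ finrank K (E₀.map δ) + finrank K E := by
  have h1 := finrank_map_add_ker δ E
  have h2 := finrank_map_add_ker δ E₀
  have h3 : finrank K (E₀ ⊓ LinearMap.ker δ : Submodule K V)
      ≤ finrank K (E ⊓ LinearMap.ker δ : Submodule K V) :=
    Submodule.finrank_mono (inf_le_inf_right _ h)
  omega

theorem finrank_le_comap_add_one [FiniteDimensional K W] (f : V →ₗ[K] W) (E : Submodule K V)
    (N₁ N₀ : Submodule K W) (hE : E.map f ≤ N₁) (h0 : N₀ ≤ N₁)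
    (h1 : finrank K N₁ ≤ finrank K N₀ + 1) :
    finrank K E ≤ finrank K (E ⊓ N₀.comap f : Submodule K V) + 1 := by
  have e1 := finrank_map_add_ker f E
  have e2 := finrank_map_add_ker f (E ⊓ N₀.comap f)
  have e3 : (E ⊓ N₀.comap f) ⊓ LinearMap.ker f = E ⊓ LinearMap.ker f := by
    ext x
    simp only [Submodule.mem_inf, Submodule.mem_comap, LinearMap.mem_ker]
    constructor
    · rintro ⟨⟨a, _⟩, c⟩; exact ⟨a, c⟩
    · rintro ⟨a, c⟩; exact ⟨⟨a, by rw [c]; exact N₀.zero_mem⟩, c⟩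
  have e4 : (E ⊓ N₀.comap f).map f = E.map f ⊓ N₀ := by
    ext x
    simp only [Submodule.mem_inf, Submodule.mem_comap, Submodule.mem_map]
    constructor
    · rintro ⟨y, ⟨a, b⟩, rfl⟩; exact ⟨⟨y, a, rfl⟩, b⟩
    · rintro ⟨⟨y, a, rfl⟩, b⟩; exact ⟨y, ⟨a, b⟩, rfl⟩
  rw [e3, e4] at e2
  have e5 := Submodule.finrank_sup_add_finrank_inf_eq (E.map f) N₀
  have e6 : finrank K (E.map f ⊔ N₀ : Submodule K W) ≤ finrank K N₁ :=
    Submodule.finrank_mono (sup_le hE h0)
  omega

/-- the dimension of the preimage of a subspace -/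
theorem finrank_comap_inf (δ : V →ₗ[K] W) [FiniteDimensional K W] (E : Submodule K V)
    (U : Submodule K W) :
    finrank K (E ⊓ U.comap δ : Submodule K V) + finrank K (E.map δ)
      = finrank K E + finrank K (E.map δ ⊓ U : Submodule K W) := by
  have e1 := finrank_map_add_ker δ E
  have e2 := finrank_map_add_ker δ (E ⊓ U.comap δ)
  have e3 : (E ⊓ U.comap δ) ⊓ LinearMap.ker δ = E ⊓ LinearMap.ker δ := by
    ext x
    simp only [Submodule.mem_inf, Submodule.mem_comap, LinearMap.mem_ker]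
    constructor
    · rintro ⟨⟨a, _⟩, c⟩; exact ⟨a, c⟩
    · rintro ⟨a, c⟩; exact ⟨⟨a, by rw [c]; exact U.zero_mem⟩, c⟩
  have e4 : (E ⊓ U.comap δ).map δ = E.map δ ⊓ U := by
    ext x
    simp only [Submodule.mem_inf, Submodule.mem_comap, Submodule.mem_map]
    constructor
    · rintro ⟨y, ⟨a, b⟩, rfl⟩; exact ⟨⟨y, a, rfl⟩, b⟩
    · rintro ⟨⟨y, a, rfl⟩, b⟩; exact ⟨y, ⟨a, b⟩, rfl⟩
  rw [e3, e4] at e2
  omega

/-- a nonzero functional cuts the dimension by one -/
theorem finrank_inf_ker_lt (φ : V →ₗ[K] K) (E : Submodule K V) (h : ∃ x ∈ E, φ x ≠ 0) :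
    finrank K (E ⊓ LinearMap.ker φ : Submodule K V) + 1 ≤ finrank K E := by
  have e1 := finrank_map_add_ker φ E
  obtain ⟨x, hx, hne⟩ := h
  have : 1 ≤ finrank K (E.map φ) := by
    rw [Nat.one_le_iff_ne_zero]
    intro h0
    rw [Submodule.finrank_eq_zero] at h0
    have : φ x ∈ E.map φ := ⟨x, hx, rfl⟩
    rw [h0] at this
    exact hne this
  omega

end dim

end Pool.Agent.H49BJ
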