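import Pool.Agent.H49BJ.GDefs
import Pool.Agent.H49BJ.Semi

/-!
# The rigidity matrix and the projective model
-/

open Matrix Module

namespace Pool.Agent.H49BJ

open SimpleGraph

set_option linter.unusedSectionVars false

variable {V : Type} [Fintype V] [DecidableEq V]

theorem exists_generic : ∃ p : V → Fin 3 → ℝ, GenericPos p := by
  obtain ⟨s, hs⟩ := exists_isTranscendenceBasis ℚ ℝ
  have hinf : Infinite s := by
    by_contra hfin
    rw [not_infinite_iff_finite] at hfin
    have h1 : Countable (MvPolynomial s ℚ) := by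
      have h0 := MvPolynomial.cardinalMk_le_max_lift (σ := s) (R := ℚ)
      rw [← Cardinal.mk_le_aleph0_iff]
      refine h0.trans ?_
      simp
    have h2 : Countable (Algebra.adjoin ℚ (Set.range ((↑) : s → ℝ))) :=
      hs.1.aevalEquiv.symm.toEquiv.countable_iff.2 h1
    have h3 := hs.isAlgebraic
    have h4 := Algebra.IsAlgebraic.cardinalMk_le_max
      (Algebra.adjoin ℚ (Set.range ((↑) : s → ℝ))) ℝ
    rw [max_eq_right (Cardinal.mk_le_aleph0_iff.2 h2), Cardinal.mk_real] at h4
    exact absurd h4 (not_le.2 Cardinal.aleph0_lt_continuum)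
  obtain ⟨g⟩ : Nonempty (V × Fin 3 ↪ s) := by
    have := Fintype.ofFinite (V × Fin 3)
    exact ⟨(Fintype.equivFin (V × Fin 3)).toEmbedding.trans
      ((Fin.valEmbedding).trans (Infinite.natEmbedding s))⟩
  refine ⟨fun v i => (g (v, i) : ℝ), ?_⟩
  exact hs.1.comp g g.injective

/-- The rigidity matrix as a matrix of polynomials. -/
noncomputable def rigidityPoly (G : SimpleGraph V) :
    Matrix G.edgeSet (V × Fin 3) (MvPolynomial (V × Fin 3) ℚ) :=
  fun e c => Sym2.lift ⟨fun u v =>
    (if c.1 = u then MvPolynomial.X (u, c.2) - MvPolynomial.X (v, c.2) else 0) +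
      (if c.1 = v then MvPolynomial.X (v, c.2) - MvPolynomial.X (u, c.2) else 0),
    fun u v => by ring⟩ (e : Sym2 V)

theorem rigidityPoly_map {K : Type*} [Field K] [Algebra ℚ K] (G : SimpleGraph V)
    (p : V → Fin 3 → K) :
    (rigidityPoly G).map (MvPolynomial.aeval (fun x : V × Fin 3 => p x.1 x.2)) =
      rigidityMatrix G p := by
  ext ⟨e, he⟩ c
  induction e using Sym2.ind with
  | _ u v =>
    simp only [Matrix.map_apply, rigidityPoly, rigidityMatrix, Sym2.lift_mk]
    split_ifs <;> simp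

theorem rigidityMatrix_mulVec {K : Type*} [Field K] (G : SimpleGraph V)
    (p : V → Fin 3 → K) (w : V × Fin 3 → K) (u v : V) (h : G.Adj u v) :
    (rigidityMatrix G p *ᵥ w) ⟨s(u, v), h⟩ =
      ∑ i, (p u i - p v i) * (w (u, i) - w (v, i)) := by
  simp only [Matrix.mulVec, dotProduct, rigidityMatrix, Sym2.lift_mk, Fintype.sum_prod_type,
    add_mul, Finset.sum_add_distrib, ite_mul, zero_mul]
  rw [Finset.sum_comm]
  conv_lhs => 
    rw [add_comm]
    rw [Finset.sum_comm]
  simp only [Finset.sum_ite_eq', Finset.mem_univ, if_true]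
  rw [← Finset.sum_add_distrib]
  refine Finset.sum_congr rfl fun i _ => ?_
  ring

theorem mem_ker_iff {K : Type*} [Field K] (G : SimpleGraph V)
    (p : V → Fin 3 → K) (w : V × Fin 3 → K) :
    w ∈ LinearMap.ker (rigidityMatrix G p).mulVecLin ↔
      ∀ u v, G.Adj u v → ∑ i, (p u i - p v i) * (w (u, i) - w (v, i)) = 0 := by
  rw [LinearMap.mem_ker, Matrix.mulVecLin_apply]
  constructor
  · intro h u v huv
    rw [← rigidityMatrix_mulVec G p w u v huv, h]
    rfl
  · intro h
    funext ⟨e, he⟩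
    induction e using Sym2.ind with
    | _ u v =>
      rw [rigidityMatrix_mulVec G p w u v he]
      exact h u v he

theorem rank_add_ker {K : Type*} [Field K] (G : SimpleGraph V) (p : V → Fin 3 → K) :
    (rigidityMatrix G p).rank + finrank K (LinearMap.ker (rigidityMatrix G p).mulVecLin) =
      3 * Fintype.card V := by
  rw [Matrix.rank, LinearMap.finrank_range_add_finrank_ker]
  simp [mul_comm]

/-- The special point over the field of rational functions. -/
noncomputable def spP (V : Type) (v : V) (i : Fin 3) : GF V := gp V v i.castSucc / gp V v 3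

theorem gp_ne_zero (v : V) (i : Fin 4) : gp V v i ≠ 0 := by
  rw [gp]
  intro h
  have h1 := (map_eq_zero_iff _ (IsFractionRing.injective (MvPolynomial (V × Fin 4) ℚ) (GF V))).1 h
  exact MvPolynomial.X_ne_zero _ h1

/-- The map from the kernel of the rigidity matrix at the special point to the projective motions. -/
noncomputable def toPM : (V × Fin 3 → GF V) →ₗ[GF V] (V → Pt (GF V)) where
  toFun w := fun v => gp V v 3 • ![w (v, 0), w (v, 1), w (v, 2),
    -(spP V v 0 * w (v, 0) + spP V v 1 * w (v, 1) + spP V v 2 * w (v, 2))]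
  map_add' w w' := by
    funext v i
    fin_cases i <;> simp <;> ring
  map_smul' c w := by
    funext v i
    fin_cases i <;> simp <;> ring

theorem toPM_injective : Function.Injective (toPM (V := V)) := by
  rw [← LinearMap.ker_eq_bot, LinearMap.ker_eq_bot']
  intro w hw
  funext ⟨v, i⟩
  have h1 := congrFun hw v
  have h2 : ∀ j : Fin 4, gp V v 3 * ![w (v, 0), w (v, 1), w (v, 2),
    -(spP V v 0 * w (v, 0) + spP V v 1 * w (v, 1) + spP V v 2 * w (v, 2))] j = 0 :=
    fun j => congrFun h1 j
  have h3 : ∀ j : Fin 4, ![w (v, 0), w (v, 1), w (v, 2),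
    -(spP V v 0 * w (v, 0) + spP V v 1 * w (v, 1) + spP V v 2 * w (v, 2))] j = 0 :=
    fun j => (mul_eq_zero.1 (h2 j)).resolve_left (gp_ne_zero v 3)
  fin_cases i
  · exact h3 0
  · exact h3 1
  · exact h3 2

theorem toPM_mem (G : SimpleGraph V) {w : V × Fin 3 → GF V}
    (hw : w ∈ LinearMap.ker (rigidityMatrix G (spP V)).mulVecLin) : toPM w ∈ PM G (gp V) := by
  rw [mem_ker_iff] at hw
  have h0 : ∀ v, gp V v 3 ≠ 0 := fun v => gp_ne_zero v 3
  constructor
  · intro v
    have := h0 v
    simp only [toPM, LinearMap.coe_mk, AddHom.coe_mk, dotProduct, Fin.sum_univ_four, spP,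
      Pi.smul_apply, smul_eq_mul]
    simp
    field_simp
    ring
  · intro u v huv
    have h1 := h0 u
    have h2 := h0 v
    have h3 := hw u v huv
    simp only [toPM, LinearMap.coe_mk, AddHom.coe_mk, dotProduct, Fin.sum_univ_four,
      Pi.smul_apply, smul_eq_mul]
    rw [Fin.sum_univ_three] at h3
    have e0 : ∀ v, gp V v 0 = gp V v 3 * spP V v 0 := by
      intro v
      rw [spP, mul_div_cancel₀ _ (h0 v)]
      rfl
    have e1 : ∀ v, gp V v 1 = gp V v 3 * spP V v 1 := by
      intro v
      rw [spP, mul_div_cancel₀ _ (h0 v)]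
      rfl
    have e2 : ∀ v, gp V v 2 = gp V v 3 * spP V v 2 := by
      intro v
      rw [spP, mul_div_cancel₀ _ (h0 v)]
      rfl
    simp only [Matrix.cons_val_zero, Matrix.cons_val_one, Matrix.cons_val]
    rw [e0 v, e1 v, e2 v, e0 u, e1 u, e2 u]
    linear_combination (-(gp V u 3 * gp V v 3)) * h3

theorem nullity_le (G : SimpleGraph V) (h : finrank (GF V) (PM G (gp V)) ≤ 6) :
    finrank (GF V) (LinearMap.ker (rigidityMatrix G (spP V)).mulVecLin) ≤ 6 := by
  refine le_trans ?_ h
  exact LinearMap.finrank_le_finrank_of_injective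
    (f := (toPM.restrict fun w hw => toPM_mem G hw :
      LinearMap.ker (rigidityMatrix G (spP V)).mulVecLin →ₗ[GF V] PM G (gp V)))
    (fun x y hxy => Subtype.ext (toPM_injective (congrArg Subtype.val hxy)))

/-- The trivial motions. -/
def triv (p : V → Fin 3 → ℝ) : (Fin 3 → ℝ) × (Fin 3 → ℝ) →ₗ[ℝ] (V × Fin 3 → ℝ) where
  toFun x := fun c => crossProduct x.1 (p c.1) c.2 + x.2 c.2
  map_add' x y := by
    funext c
    simp [add_add_add_comm]
  map_smul' a x := by
    funext c
    simp [mul_add]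

theorem triv_mem (G : SimpleGraph V) (p : V → Fin 3 → ℝ) (x : (Fin 3 → ℝ) × (Fin 3 → ℝ)) :
    triv p x ∈ LinearMap.ker (rigidityMatrix G p).mulVecLin := by
  rw [mem_ker_iff]
  intro u v _
  simp only [triv, LinearMap.coe_mk, AddHom.coe_mk, Fin.sum_univ_three, cross_apply]
  simp
  ring

theorem triv_injective (p : V → Fin 3 → ℝ) (hp : GenericPos p) (hV : 6 < Fintype.card V) :
    Function.Injective (triv p) := by
  obtain ⟨a, b, c, hab, hac, hbc⟩ := Fintype.two_lt_card_iff.1 (by omega : 2 < Fintype.card V)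
  -- a nonzero minor
  have hm : (p a 0 - p c 0) * (p b 1 - p c 1) - (p a 1 - p c 1) * (p b 0 - p c 0) ≠ 0 := by
    intro h
    have h1 : MvPolynomial.aeval (fun x : V × Fin 3 => p x.1 x.2)
        (((MvPolynomial.X (a, 0) - MvPolynomial.X (c, 0)) *
          (MvPolynomial.X (b, 1) - MvPolynomial.X (c, 1)) -
          (MvPolynomial.X (a, 1) - MvPolynomial.X (c, 1)) *
          (MvPolynomial.X (b, 0) - MvPolynomial.X (c, 0)) : MvPolynomial (V × Fin 3) ℚ)) = 0 := by
      simpa using h
    have h2 := (algebraicIndependent_iff.1 hp) _ h1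
    have h3 := congrArg (MvPolynomial.eval (fun x : V × Fin 3 =>
      if x = (a, 0) then (1 : ℚ) else if x = (b, 1) then 1 else 0)) h2
    simp [hab, hac.symm, hbc.symm] at h3
  rw [← LinearMap.ker_eq_bot, LinearMap.ker_eq_bot']
  rintro ⟨w, t⟩ hw
  have h1 : ∀ v i, crossProduct w (p v) i + t i = 0 := fun v i => congrFun hw (v, i)
  have h2 : ∀ v, w 1 * p v 2 - w 2 * p v 1 + t 0 = 0 ∧ w 2 * p v 0 - w 0 * p v 2 + t 1 = 0 ∧
      w 0 * p v 1 - w 1 * p v 0 + t 2 = 0 := by
    intro v
    have e0 := h1 v 0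
    have e1 := h1 v 1
    have e2 := h1 v 2
    simp only [cross_apply] at e0 e1 e2
    simp at e0 e1 e2
    exact ⟨e0, e1, e2⟩
  obtain ⟨a0, a1, a2⟩ := h2 a
  obtain ⟨b0, b1, b2⟩ := h2 b
  obtain ⟨c0, c1, c2⟩ := h2 c
  have w0 : w 0 = 0 := by
    have : w 0 * ((p a 0 - p c 0) * (p b 1 - p c 1) - (p a 1 - p c 1) * (p b 0 - p c 0)) = 0 := by
      linear_combination (p a 0 - p c 0) * (b2 - c2) - (p b 0 - p c 0) * (a2 - c2)
    exact (mul_eq_zero.1 this).resolve_right hm
  have w1 : w 1 = 0 := by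
    have : w 1 * ((p a 0 - p c 0) * (p b 1 - p c 1) - (p a 1 - p c 1) * (p b 0 - p c 0)) = 0 := by
      linear_combination (p a 1 - p c 1) * (b2 - c2) - (p b 1 - p c 1) * (a2 - c2)
    exact (mul_eq_zero.1 this).resolve_right hm
  have w2 : w 2 = 0 := by
    rw [w0] at a1 b1 c1
    rw [w1] at a0 b0 c0
    have : w 2 * ((p a 0 - p c 0) * (p b 1 - p c 1) - (p a 1 - p c 1) * (p b 0 - p c 0)) = 0 := by
      linear_combination (p b 1 - p c 1) * (a1 - c1) - (p a 1 - p c 1) * (b1 - c1)
    exact (mul_eq_zero.1 this).resolve_right hm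
  rw [w1, w2] at c0
  rw [w0, w2] at c1
  rw [w0, w1] at c2
  refine Prod.ext ?_ ?_
  · funext i
    fin_cases i
    · exact w0
    · exact w1
    · exact w2
  · funext i
    fin_cases i
    · simpa using c0
    · simpa using c1
    · simpa using c2

theorem rigid_of_finrank_PM_le (G : SimpleGraph V) (hV : 6 < Fintype.card V)
    (h : finrank (GF V) (PM G (gp V)) ≤ 6) : Rigid3 G := by
  intro p hp
  have := Fintype.ofFinite G.edgeSet
  have h1 := rank_add_ker G (spP V)
  have h2 := rank_add_ker G p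
  have h3 := nullity_le G h
  have h4 := rank_special_le_rank_generic (rigidityPoly G) (fun x : V × Fin 3 => p x.1 x.2) hp
    (fun x : V × Fin 3 => spP V x.1 x.2)
  rw [rigidityPoly_map, rigidityPoly_map] at h4
  have h5 : 6 ≤ finrank ℝ (LinearMap.ker (rigidityMatrix G p).mulVecLin) := by
    have h6 : finrank ℝ ((Fin 3 → ℝ) × (Fin 3 → ℝ)) = 6 := by simp
    rw [← h6]
    exact LinearMap.finrank_le_finrank_of_injective
      (f := ((triv p).codRestrict _ (triv_mem G p)))
      (fun x y hxy => triv_injective p hp hV (congrArg Subtype.val hxy))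
  omega

end Pool.Agent.H49BJ
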