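import Pool.Agent.H49BJ.Tay
import Pool.Agent.H49BJ.Claw
import Pool.Agent.H49BJ.Count
import Pool.Agent.H49BJ.Rigid

/-!
# Rigidity of 6-connected K4-covered graphs in which every vertex is in at most two classes
-/

open Matrix Module

namespace Pool.Agent.H49BJ

open SimpleGraph

variable {V : Type} [Fintype V] [DecidableEq V]

/-- in a 6-connected graph every vertex has a neighbour -/
theorem KConn.exists_adj {G : SimpleGraph V} (h6 : KConn 6 G) (v : V) : ∃ w, G.Adj v w := by
  have hcard : 6 < Fintype.card V := h6.1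
  have h := h6.2 ∅ (by simp)
  obtain ⟨w, hw⟩ : ∃ w, w ≠ v := by
    have : Nontrivial V := Fintype.one_lt_card_iff_nontrivial.1 (by omega)
    exact exists_ne v
  have hv : v ∈ ((↑(∅ : Finset V) : Set V)ᶜ) := by simp
  have hw' : w ∈ ((↑(∅ : Finset V) : Set V)ᶜ) := by simp
  have : Nontrivial ↑((↑(∅ : Finset V) : Set V)ᶜ) :=
    ⟨⟨⟨v, hv⟩, ⟨w, hw'⟩, fun h => hw (congrArg Subtype.val h).symm⟩⟩
  obtain ⟨u, hu⟩ := h.preconnected.exists_adj_of_nontrivial ⟨v, hv⟩
  exact ⟨u.1, hu⟩

open Classical in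
/-- the classes of each vertex number at most two: then the graph has only one class -/
theorem card_cls_le_one (G : SimpleGraph V) (h6 : KConn 6 G) (hK : K4Covered G)
    (h2c : ∀ v, (Finset.univ.filter (fun b : Cls G => v ∈ Vb G b)).card ≤ 2) :
    Fintype.card (Cls G) ≤ 1 := by
  by_contra hcon
  push Not at hcon
  have : Nonempty (Cls G) := Fintype.card_pos_iff.1 (by omega)
  -- a linear order on the vertices
  let e := Fintype.equivFin V
  letI : LinearOrder V := LinearOrder.lift' e e.injective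
  -- the two classes of a joint
  have hst0 : ∀ v : V, ∃ q : Cls G × Cls G,
      (Finset.univ.filter (fun b : Cls G => v ∈ Vb G b)).card = 2 →
        q.1 ≠ q.2 ∧ Finset.univ.filter (fun b : Cls G => v ∈ Vb G b) = {q.1, q.2} := by
    intro v
    by_cases h : (Finset.univ.filter (fun b : Cls G => v ∈ Vb G b)).card = 2
    · obtain ⟨a, b, hab, h'⟩ := Finset.card_eq_two.1 h
      exact ⟨(a, b), fun _ => ⟨hab, h'⟩⟩
    · exact ⟨Classical.arbitrary _, fun h' => absurd h' h⟩
  choose q hq using hst0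
  let s : V → Cls G := fun v => (q v).1
  let t : V → Cls G := fun v => (q v).2
  let J : Finset V :=
    Finset.univ.filter (fun v => (Finset.univ.filter (fun b : Cls G => v ∈ Vb G b)).card = 2)
  have hJ : ∀ v ∈ J, s v ≠ t v ∧ Finset.univ.filter (fun b : Cls G => v ∈ Vb G b) = {s v, t v} :=
    fun v hv => hq v (Finset.mem_filter.1 hv).2
  have hst : ∀ j ∈ J, s j ∈ (Finset.univ : Finset (Cls G)) ∧
      t j ∈ (Finset.univ : Finset (Cls G)) ∧ s j ≠ t j :=
    fun j hj => ⟨Finset.mem_univ _, Finset.mem_univ _, (hJ j hj).1⟩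
  have hsV : ∀ v ∈ J, v ∈ Vb G (s v) := by
    intro v hv
    have : s v ∈ Finset.univ.filter (fun b : Cls G => v ∈ Vb G b) := by
      rw [(hJ v hv).2]; simp
    exact (Finset.mem_filter.1 this).2
  have htV : ∀ v ∈ J, v ∈ Vb G (t v) := by
    intro v hv
    have : t v ∈ Finset.univ.filter (fun b : Cls G => v ∈ Vb G b) := by
      rw [(hJ v hv).2]; simp
    exact (Finset.mem_filter.1 this).2
  -- no two classes are rigid
  have hNR : NR (Finset.univ : Finset (Cls G)) J s t (gp V) := by
    intro a _ b _ hab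
    have : ∃ ξ, a.1 ξ ≠ b.1 ξ := by
      by_contra hc
      push Not at hc
      exact hab (Subtype.ext (LinearMap.ext hc))
    obtain ⟨ξ, hξ⟩ := this
    refine ⟨fun c => c.1 ξ, ⟨fun c hc => absurd (Finset.mem_univ c) hc, fun j hj => ?_⟩, hξ⟩
    change ev ((s j).1 ξ) (gp V j) = ev ((t j).1 ξ) (gp V j)
    rw [ev_cls G (s j) ξ (hsV j hj), ev_cls G (t j) ξ (htV j hj)]
  have h7 := seven_le' (K := GF V) (fun j hj => ⟨(hst j hj).1, (hst j hj).2.1⟩) hNR (by
    rw [Finset.card_univ]; omega)
  have htay := tay_bound (Finset.univ : Finset (Cls G)) J s t hst hNR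
  have hcount := counting G h6 (Vb G) (four_le_Vb G) (fun b b' h => by
      have := Vb_inter G h
      convert this) (fun u v h => edge_cls G hK h) h2c (by omega)
  have hsub : {j ∈ J | ∃ i ∈ J, i < j ∧ Par s t i j} ⊆
      (Finset.univ.filter (fun v => (Finset.univ.filter (fun b : Cls G => v ∈ Vb G b)).card = 2 ∧
          ∃ w, w < v ∧ (Finset.univ.filter (fun b : Cls G => w ∈ Vb G b)).card = 2 ∧
            ∀ b, v ∈ Vb G b ↔ w ∈ Vb G b)) := by
    intro j hj
    rw [Finset.mem_filter] at hj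
    obtain ⟨hjJ, i, hi, hij, hp⟩ := hj
    refine Finset.mem_filter.2 ⟨Finset.mem_univ _, (Finset.mem_filter.1 hjJ).2, i, hij,
      (Finset.mem_filter.1 hi).2, fun b => ?_⟩
    have e1 : b ∈ Finset.univ.filter (fun b : Cls G => j ∈ Vb G b) ↔ j ∈ Vb G b := by simp
    have e2 : b ∈ Finset.univ.filter (fun b : Cls G => i ∈ Vb G b) ↔ i ∈ Vb G b := by simp
    rw [← e1, ← e2, (hJ j hjJ).2, (hJ i hi).2]
    rcases hp with ⟨h1, h2⟩ | ⟨h1, h2⟩
    · rw [h1, h2]
    · rw [h1, h2, Finset.pair_comm]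
  have hle := Finset.card_le_card hsub
  rw [Finset.card_univ] at htay
  have hJdef : J = Finset.univ.filter
    (fun v => (Finset.univ.filter (fun b : Cls G => v ∈ Vb G b)).card = 2) := rfl
  rw [← hJdef] at hcount
  omega

open Classical in
theorem finrank_PM_le' (G : SimpleGraph V) (h6 : KConn 6 G) (hK : K4Covered G)
    (h2c : ∀ v, (Finset.univ.filter (fun b : Cls G => v ∈ Vb G b)).card ≤ 2) :
    finrank (GF V) (PM G (gp V)) ≤ 6 := by
  have h1 := card_cls_le_one G h6 hK h2c
  have hcl : ∀ v, ∃ b : Cls G, v ∈ Vb G b := by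
    intro v
    obtain ⟨w, hw⟩ := h6.exists_adj v
    obtain ⟨b, hb, _⟩ := edge_cls G hK hw
    exact ⟨b, hb⟩
  have : Nonempty V := Fintype.card_pos_iff.1 (by have := h6.1; omega)
  obtain ⟨b, _⟩ := hcl (Classical.arbitrary V)
  have hall : ∀ v, v ∈ Vb G b := by
    intro v
    obtain ⟨b', hb'⟩ := hcl v
    have : b' = b := Fintype.card_le_one_iff.1 h1 b' b
    rwa [this] at hb'
  have hinj : Function.Injective b.1 := by
    rw [injective_iff_map_eq_zero]
    intro ξ hξ
    apply Subtype.ext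
    funext v
    have := ev_cls G b ξ (hall v)
    rw [hξ, ev_zero_left] at this
    exact this.symm
  have := LinearMap.finrank_le_finrank_of_injective hinj
  simpa using this

/-- **Main theorem.** Every 6-connected, `K₄`-covered, claw-free graph is rigid in `ℝ³`. -/
theorem rigid_of_clawFree (G : SimpleGraph V) (h6 : KConn 6 G) (hK : K4Covered G)
    (hc : ClawFree G) : Rigid3 G :=
  rigid_of_finrank_PM_le G h6.1 (finrank_PM_le' G h6 hK (le_two_classes G hc))

end Pool.Agent.H49BJ
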