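import Pool.Agent.H49BJ.Defs

/-!
# Graph definitions

`K4Covered`, `KConn`, `ClawFree`, the rigidity matrix, and the space `PM` of infinitesimal motions
in the projective model.
-/

open Matrix Module

namespace Pool.Agent.H49BJ

open SimpleGraph

variable {V : Type} [Fintype V] [DecidableEq V]

/-- 6-connected (`k`-connected): more than `k` vertices and no cut of fewer than `k` vertices -/
def KConn (k : ℕ) (G : SimpleGraph V) : Prop :=
  k < Fintype.card V ∧ ∀ S : Finset V, S.card < k → (G.induce ((S : Set V)ᶜ)).Connected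

/-- every edge lies in a complete subgraph on four vertices -/
def K4Covered (G : SimpleGraph V) : Prop :=
  ∀ u v, G.Adj u v → ∃ T : Finset V, G.IsNClique 4 T ∧ u ∈ T ∧ v ∈ T

/-- no vertex has three pairwise non-adjacent neighbours -/
def ClawFree (G : SimpleGraph V) : Prop :=
  ¬ ∃ v x y z, G.Adj v x ∧ G.Adj v y ∧ G.Adj v z ∧ x ≠ y ∧ x ≠ z ∧ y ≠ z ∧
    ¬ G.Adj x y ∧ ¬ G.Adj x z ∧ ¬ G.Adj y z

/-- The space of infinitesimal motions in the projective model. -/
def PM {K : Type*} [Field K] (G : SimpleGraph V) (Y : V → Pt K) : Submodule K (V → Pt K) where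
  carrier := {ξ | (∀ v, ξ v ⬝ᵥ Y v = 0) ∧ ∀ u v, G.Adj u v → ξ u ⬝ᵥ Y v + ξ v ⬝ᵥ Y u = 0}
  add_mem' := by
    rintro a b ⟨h1, h2⟩ ⟨h3, h4⟩
    refine ⟨fun v => by simp [add_dotProduct, h1 v, h3 v], fun u v huv => ?_⟩
    simp only [Pi.add_apply, add_dotProduct]
    linear_combination h2 u v huv + h4 u v huv
  zero_mem' := by
    refine ⟨fun v => by simp, fun u v _ => by simp⟩
  smul_mem' := by
    rintro c a ⟨h1, h2⟩
    refine ⟨fun v => by simp [smul_dotProduct, h1 v], fun u v huv => ?_⟩
    simp only [Pi.smul_apply, smul_dotProduct, smul_eq_mul]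
    linear_combination c * h2 u v huv

/-- the type of K4s -/
abbrev K4s (G : SimpleGraph V) := {T : Finset V // G.IsNClique 4 T}

/-- The rigidity matrix of `(G, p)`. -/
noncomputable def rigidityMatrix {K : Type*} [Field K] (G : SimpleGraph V) (p : V → Fin 3 → K) :
    Matrix G.edgeSet (V × Fin 3) K :=
  fun e c => Sym2.lift ⟨fun u v =>
    (if c.1 = u then p u c.2 - p v c.2 else 0) + (if c.1 = v then p v c.2 - p u c.2 else 0),
    fun u v => by ring⟩ (e : Sym2 V)

/-- `p` is generic: its coordinates are algebraically independent over the rationals -/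
def GenericPos (p : V → Fin 3 → ℝ) : Prop :=
  AlgebraicIndependent ℚ (fun x : V × Fin 3 => p x.1 x.2)

/-- `G` is rigid in `ℝ³`: the rigidity matrix at every generic `p` has rank `3|V| - 6`. -/
def Rigid3 (G : SimpleGraph V) : Prop :=
  ∀ p : V → Fin 3 → ℝ, GenericPos p → (rigidityMatrix G p).rank + 6 = 3 * Fintype.card V

end Pool.Agent.H49BJ
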