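import Pool.Agent.H49BJ.Defs

/-!
# Integrability: derivations of the field of rational functions (package P3)
-/

open Matrix Module

namespace Pool.Agent.H49BJ

namespace Integ

/-- derivations of the field of rational functions with prescribed values on the variables -/
theorem exists_der {σ K : Type*} [Field K] [Algebra (MvPolynomial σ ℚ) K]
    [IsFractionRing (MvPolynomial σ ℚ) K] (v : σ → K) :
    ∃ D : K → K,
      (∀ x y, D (x + y) = D x + D y) ∧ (∀ x y, D (x * y) = x * D y + y * D x) ∧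
      ∀ i, D (algebraMap (MvPolynomial σ ℚ) K (MvPolynomial.X i)) = v i := by
  let φ : MvPolynomial σ ℚ →+* TrivSqZeroExt K K :=
    MvPolynomial.eval₂Hom ((TrivSqZeroExt.inlHom K K).comp
        ((algebraMap (MvPolynomial σ ℚ) K).comp MvPolynomial.C))
      (fun i => TrivSqZeroExt.inl (algebraMap (MvPolynomial σ ℚ) K (MvPolynomial.X i))
        + TrivSqZeroExt.inr (v i))
  let fs : TrivSqZeroExt K K →+* K := (TrivSqZeroExt.fstHom K K K).toRingHom
  have hfs : ∀ x, fs x = x.fst := fun x => rfl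
  have h1 : fs.comp φ = algebraMap (MvPolynomial σ ℚ) K := by
    apply MvPolynomial.ringHom_ext
    · intro r
      simp only [RingHom.comp_apply, φ, MvPolynomial.coe_eval₂Hom, MvPolynomial.eval₂_C]
      rw [hfs, TrivSqZeroExt.inlHom_apply, TrivSqZeroExt.fst_inl]
    · intro i
      simp [φ, hfs]
  have h2 : ∀ y : nonZeroDivisors (MvPolynomial σ ℚ), IsUnit (φ y) := by
    intro y
    rw [TrivSqZeroExt.isUnit_iff_isUnit_fst, ← hfs, ← RingHom.comp_apply, h1, isUnit_iff_ne_zero]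
    exact (map_ne_zero_iff _ (IsFractionRing.injective (MvPolynomial σ ℚ) K)).2
      (nonZeroDivisors.ne_zero y.2)
  let ψ : K →+* TrivSqZeroExt K K :=
    IsLocalization.lift (M := nonZeroDivisors (MvPolynomial σ ℚ)) (g := φ) h2
  have h3 : ∀ a, ψ (algebraMap (MvPolynomial σ ℚ) K a) = φ a := fun a =>
    IsLocalization.lift_eq h2 a
  have h4 : ∀ x, (ψ x).fst = x := by
    intro x
    have : fs.comp ψ = RingHom.id K := by
      apply IsLocalization.ringHom_ext (nonZeroDivisors (MvPolynomial σ ℚ))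
      apply RingHom.ext
      intro a
      simp only [RingHom.comp_apply, RingHom.id_apply]
      rw [h3, ← RingHom.comp_apply, h1]
    exact RingHom.congr_fun this x
  refine ⟨fun x => (ψ x).snd, ?_, ?_, ?_⟩
  · intro x y
    simp
  · intro x y
    simp only [map_mul, TrivSqZeroExt.snd_mul, h4]
    simp [smul_eq_mul, mul_comm]
  · intro i
    beta_reduce
    rw [h3]
    simp [φ]

variable {K : Type*} [Field K]

theorem tw_ext' {a : Tw K} (h : ∀ p : Pt K, ev a p = 0) : a = 0 := by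
  have h0 := h ![1, 0, 0, 0]
  have h1 := h ![0, 1, 0, 0]
  have h2 := h ![0, 0, 1, 0]
  have e01 := congrFun h0 1
  have e02 := congrFun h0 2
  have e03 := congrFun h0 3
  have e12 := congrFun h1 2
  have e13 := congrFun h1 3
  have e23 := congrFun h2 3
  simp [ev] at e01 e02 e03 e12 e13 e23
  funext i
  fin_cases i <;> simp [*]

theorem eq_zero_of_idot {u : Pt K} (h : ∀ r : Pt K, r ⬝ᵥ u = 0) : u = 0 := by
  funext i
  have := h (Pi.single i 1)
  simpa using this

/-- a vector on which two independent twists are independent -/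
theorem exists_vec {w₁ w₂ : Tw K} (h : LinearIndependent K ![w₁, w₂]) :
    ∃ z : Pt K, LinearIndependent K ![ev w₁ z, ev w₂ z] := by
  by_contra hcon
  push Not at hcon
  rw [LinearIndependent.pair_iff] at h
  have dep : ∀ z : Pt K, ∃ s t : K, s • ev w₁ z + t • ev w₂ z = 0 ∧ ¬ (s = 0 ∧ t = 0) := by
    intro z
    have := hcon z
    rw [LinearIndependent.pair_iff] at this
    push Not at this
    obtain ⟨s, t, h1, h2⟩ := this
    exact ⟨s, t, h1, fun h => h2 h.1 h.2⟩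
  have hw1 : w₁ ≠ 0 := by
    rintro rfl
    have := h 1 0 (by simp)
    exact one_ne_zero this.1
  obtain ⟨p, hp⟩ : ∃ p : Pt K, ev w₁ p ≠ 0 := by
    by_contra hh
    push Not at hh
    exact hw1 (tw_ext' hh)
  -- the factor at `p`
  obtain ⟨μ, hμ⟩ : ∃ μ : K, ev w₂ p = μ • ev w₁ p := by
    obtain ⟨s, t, h1, h2⟩ := dep p
    have ht : t ≠ 0 := by
      rintro rfl
      rw [zero_smul, add_zero, smul_eq_zero] at h1
      exact h2 ⟨h1.resolve_right hp, rfl⟩
    refine ⟨-(t⁻¹ * s), ?_⟩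
    have h3 : t⁻¹ • (s • ev w₁ p + t • ev w₂ p) = 0 := by rw [h1, smul_zero]
    rw [smul_add, smul_smul, smul_smul, inv_mul_cancel₀ ht, one_smul] at h3
    rw [neg_smul]
    exact eq_neg_of_add_eq_zero_right h3
  set w : Tw K := w₂ - μ • w₁ with hw
  have hwp : ev w p = 0 := by
    rw [hw, ev_sub_left, ev_smul_left, hμ, sub_self]
  have hw0 : w ≠ 0 := by
    intro h0
    have := h (-μ) 1 (by
      rw [hw] at h0
      rw [one_smul, neg_smul, neg_add_eq_sub]
      exact h0)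
    exact one_ne_zero this.2
  -- every nonzero value of `w` is parallel to `ev w₁ p`
  have par : ∀ q : Pt K, ∃ κ : K, ev w q = κ • ev w₁ p := by
    intro q
    by_cases hq : ev w q = 0
    · exact ⟨0, by rw [hq, zero_smul]⟩
    have key : ∀ z : Pt K, ev w z ≠ 0 → ∃ ν : K, ev w₁ z = ν • ev w z := by
      intro z hz
      obtain ⟨s, t, h1, h2⟩ := dep z
      have h3 : (s + t * μ) • ev w₁ z + t • ev w z = 0 := by
        rw [hw, ev_sub_left, ev_smul_left, ← h1]
        module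
      have hst : s + t * μ ≠ 0 := by
        intro h4
        rw [h4, zero_smul, zero_add, smul_eq_zero] at h3
        have ht := h3.resolve_right hz
        rw [ht, zero_mul, add_zero] at h4
        exact h2 ⟨h4, ht⟩
      refine ⟨-((s + t * μ)⁻¹ * t), ?_⟩
      have h5 : (s + t * μ)⁻¹ • ((s + t * μ) • ev w₁ z + t • ev w z) = 0 := by
        rw [h3, smul_zero]
      rw [smul_add, smul_smul, smul_smul, inv_mul_cancel₀ hst, one_smul] at h5
      rw [neg_smul]
      exact eq_neg_of_add_eq_zero_left h5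
    obtain ⟨ν, hν⟩ := key q hq
    have hpq : ev w (p + q) = ev w q := by rw [ev_add_right, hwp, zero_add]
    obtain ⟨κ, hκ⟩ := key (p + q) (by rwa [hpq])
    rw [ev_add_right, hpq, hν] at hκ
    have h6 : ev w₁ p = (κ - ν) • ev w q := by
      rw [sub_smul, ← hκ, add_sub_cancel_right]
    have h7 : κ - ν ≠ 0 := by
      intro h8
      rw [h8, zero_smul] at h6
      exact hp h6
    refine ⟨(κ - ν)⁻¹, ?_⟩
    rw [h6, smul_smul, inv_mul_cancel₀ h7, one_smul]
  obtain ⟨q, hq⟩ : ∃ q : Pt K, ev w q ≠ 0 := by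
    by_contra hh
    push Not at hh
    exact hw0 (tw_ext' hh)
  obtain ⟨κ, hκ⟩ := par q
  have hκ0 : κ ≠ 0 := by
    rintro rfl
    rw [zero_smul] at hκ
    exact hq hκ
  apply hq
  apply eq_zero_of_idot
  intro r
  obtain ⟨τ, hτ⟩ := par r
  have h8 : ev w r = (τ * κ⁻¹) • ev w q := by
    rw [hτ, hκ, smul_smul, mul_assoc, inv_mul_cancel₀ hκ0, mul_one]
  have h9 : bil w r q = (τ * κ⁻¹) * bil w q q := by
    rw [bil, bil, h8, dotProduct_smul, smul_eq_mul]
  rw [bil_self, mul_zero] at h9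
  have h10 : r ⬝ᵥ ev w q = bil w q r := rfl
  rw [h10, bil_swap, h9, neg_zero]

section der

variable {D D₁ D₂ : K → K}

theorem der_zero (ha : ∀ x y, D (x + y) = D x + D y) : D 0 = 0 := by
  have := ha 0 0
  rw [add_zero] at this
  exact left_eq_add.1 this

theorem der_neg (ha : ∀ x y, D (x + y) = D x + D y) (x : K) : D (-x) = - D x := by
  have := ha x (-x)
  rw [add_neg_cancel, der_zero ha] at this
  exact eq_neg_of_add_eq_zero_right this.symm

theorem der_sub (ha : ∀ x y, D (x + y) = D x + D y) (x y : K) : D (x - y) = D x - D y := by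
  rw [sub_eq_add_neg, ha, der_neg ha, sub_eq_add_neg]

theorem der_ev (ha : ∀ x y, D (x + y) = D x + D y) (hm : ∀ x y, D (x * y) = x * D y + y * D x)
    (a : Tw K) (p : Pt K) :
    (fun i => D (ev a p i)) = ev (fun k => D (a k)) p + ev a (fun k => D (p k)) := by
  funext i
  fin_cases i <;> simp [ev, ha, hm, der_neg ha, der_sub ha] <;> ring

theorem dot_ev_swap (a : Tw K) (p q : Pt K) : ev a p ⬝ᵥ q = - (p ⬝ᵥ ev a q) := by
  rw [dotProduct_comm]
  change bil a p q = - bil a q p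
  rw [bil_swap]

theorem dot_ev_self (a : Tw K) (p : Pt K) : ev a p ⬝ᵥ p = 0 := by
  rw [dotProduct_comm]
  exact bil_self a p

/-- the bracket of two velocity fields -/
theorem bracket_ev (ha₁ : ∀ x y, D₁ (x + y) = D₁ x + D₁ y)
    (hm₁ : ∀ x y, D₁ (x * y) = x * D₁ y + y * D₁ x)
    (ha₂ : ∀ x y, D₂ (x + y) = D₂ x + D₂ y)
    (hm₂ : ∀ x y, D₂ (x * y) = x * D₂ y + y * D₂ x) (a₁ a₂ : Tw K) (Y z : Pt K)
    (h₁ : (fun k => D₁ (Y k)) = (z ⬝ᵥ ev a₁ Y) • z) (h₂ : (fun k => D₂ (Y k)) = (z ⬝ᵥ ev a₂ Y) • z) :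
    ev ((fun k => D₁ (a₂ k) - D₂ (a₁ k)) + wedge (ev a₁ z) (ev a₂ z)) Y =
      fun i => D₁ (ev a₂ Y i) - D₂ (ev a₁ Y i) := by
  have e1 := der_ev ha₁ hm₁ a₂ Y
  have e2 := der_ev ha₂ hm₂ a₁ Y
  have e3 : (fun i => D₁ (ev a₂ Y i) - D₂ (ev a₁ Y i)) =
      (fun i => D₁ (ev a₂ Y i)) - fun i => D₂ (ev a₁ Y i) := rfl
  have e4 : (fun k => D₁ (a₂ k) - D₂ (a₁ k)) = (fun k => D₁ (a₂ k)) - fun k => D₂ (a₁ k) := rfl
  rw [e3, e1, e2, h₁, h₂, e4, ev_add_left, ev_sub_left, ev_wedge, ev_smul_right, ev_smul_right,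
    dot_ev_swap, dot_ev_swap]
  module

end der

end Integ

/-- If the relative twists of `a, c` and of `a, b` are proportional on the generic motion space,
the factor is `0` or `1`. -/
theorem lambda_zero_or_one {β ι : Type*} [DecidableEq β] [DecidableEq ι]
    (B : Finset β) (J : Finset ι) (s t : ι → β) (hst : ∀ j ∈ J, s j ∈ B ∧ t j ∈ B)
    {a b c : β} (ha : a ∈ B) (hb : b ∈ B) (hc : c ∈ B) (lam : GF ι)
    (hlam : ∀ M ∈ Mot B J s t (gp ι), M c - M a = lam • (M b - M a))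
    (hli : ∃ M₁ ∈ Mot B J s t (gp ι), ∃ M₂ ∈ Mot B J s t (gp ι),
      LinearIndependent (GF ι) ![M₁ b - M₁ a, M₂ b - M₂ a]) :
    lam = 0 ∨ lam = 1 := by
  obtain ⟨M₁, hM₁, M₂, hM₂, hli⟩ := hli
  obtain ⟨z, hz⟩ := Integ.exists_vec hli
  -- normalisation
  have hnorm : ∀ M ∈ Mot B J s t (gp ι), ∃ N ∈ Mot B J s t (gp ι), N a = 0 ∧
      N b = M b - M a ∧ N c = M c - M a := by
    intro M hM
    refine ⟨fun x => if x ∈ B then M x - M a else 0, ⟨?_, ?_⟩, ?_, ?_, ?_⟩
    · intro x hx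
      simp [hx]
    · intro j hj
      have h1 := hM.2 j hj
      simp only [(hst j hj).1, (hst j hj).2, if_true, ev_sub_left, h1]
    · simp [ha]
    · simp [hb]
    · simp [hc]
  obtain ⟨N₁, hN₁, ha₁, hb₁, hc₁⟩ := hnorm M₁ hM₁
  obtain ⟨N₂, hN₂, ha₂, hb₂, hc₂⟩ := hnorm M₂ hM₂
  rw [hlam M₁ hM₁, ← hb₁] at hc₁
  rw [hlam M₂ hM₂, ← hb₂] at hc₂
  rw [← hb₁, ← hb₂] at hz
  clear hli hb₁ hb₂
  set w₁ := N₁ b with hw₁
  set w₂ := N₂ b with hw₂
  -- the derivations
  obtain ⟨D₁, hD₁a, hD₁m, hD₁⟩ := Integ.exists_der (σ := ι × Fin 4) (K := GF ι)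
    (fun x => if x.1 ∈ J then (z ⬝ᵥ ev (N₁ (s x.1)) (gp ι x.1)) * z x.2 else 0)
  obtain ⟨D₂, hD₂a, hD₂m, hD₂⟩ := Integ.exists_der (σ := ι × Fin 4) (K := GF ι)
    (fun x => if x.1 ∈ J then (z ⬝ᵥ ev (N₂ (s x.1)) (gp ι x.1)) * z x.2 else 0)
  have hY₁ : ∀ j ∈ J, (fun k => D₁ (gp ι j k)) = (z ⬝ᵥ ev (N₁ (s j)) (gp ι j)) • z := by
    intro j hj
    funext k
    simp only [gp]
    rw [hD₁ (j, k)]
    simp [hj]
  have hY₂ : ∀ j ∈ J, (fun k => D₂ (gp ι j k)) = (z ⬝ᵥ ev (N₂ (s j)) (gp ι j)) • z := by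
    intro j hj
    funext k
    simp only [gp]
    rw [hD₂ (j, k)]
    simp [hj]
  -- the bracket is a motion
  let N : β → Tw (GF ι) := fun x => if x ∈ B then
    (fun k => D₁ (N₂ x k) - D₂ (N₁ x k)) + wedge (ev (N₁ x) z) (ev (N₂ x) z) else 0
  have hN : N ∈ Mot B J s t (gp ι) := by
    refine ⟨fun x hx => by simp [N, hx], ?_⟩
    intro j hj
    have h1 := hN₁.2 j hj
    have h2 := hN₂.2 j hj
    have hs : ev (N (s j)) (gp ι j) =
        fun i => D₁ (ev (N₂ (s j)) (gp ι j) i) - D₂ (ev (N₁ (s j)) (gp ι j) i) := by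
      simp only [N, (hst j hj).1, if_true]
      exact Integ.bracket_ev hD₁a hD₁m hD₂a hD₂m _ _ _ _ (hY₁ j hj) (hY₂ j hj)
    have ht : ev (N (t j)) (gp ι j) =
        fun i => D₁ (ev (N₂ (t j)) (gp ι j) i) - D₂ (ev (N₁ (t j)) (gp ι j) i) := by
      simp only [N, (hst j hj).2, if_true]
      refine Integ.bracket_ev hD₁a hD₁m hD₂a hD₂m _ _ _ _ ?_ ?_
      · rw [← h1]
        exact hY₁ j hj
      · rw [← h2]
        exact hY₂ j hj
    rw [hs, ht, h1, h2]
  have hNa : N a = 0 := by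
    simp only [N, ha, if_true, ha₁, ha₂, ev_zero_left]
    funext k
    simp [Integ.der_zero hD₁a, Integ.der_zero hD₂a, wedge]
    fin_cases k <;> simp
  have hrel := hlam N hN
  rw [hNa, sub_zero, sub_zero] at hrel
  have hNb : N b = (fun k => D₁ (w₂ k) - D₂ (w₁ k)) + wedge (ev w₁ z) (ev w₂ z) := by
    simp only [N, hb, if_true, ← hw₁, ← hw₂]
  have hNc : N c = (fun k => D₁ ((lam • w₂) k) - D₂ ((lam • w₁) k)) +
      wedge (ev (lam • w₁) z) (ev (lam • w₂) z) := by
    simp only [N, hc, if_true, hc₁, hc₂]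
  rw [hNb, hNc] at hrel
  have hmain : D₁ lam • w₂ - D₂ lam • w₁ +
      (lam * lam - lam) • wedge (ev w₁ z) (ev w₂ z) = 0 := by
    funext k
    have h1 := congrFun hrel k
    have h2 : wedge (ev (lam • w₁) z) (ev (lam • w₂) z) =
        (lam * lam) • wedge (ev w₁ z) (ev w₂ z) := by
      rw [ev_smul_left, ev_smul_left]
      funext i
      fin_cases i <;> simp [wedge] <;> ring
    rw [h2] at h1
    simp only [Pi.add_apply, Pi.smul_apply, smul_eq_mul, hD₁m, hD₂m] at h1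
    simp only [Pi.add_apply, Pi.sub_apply, Pi.smul_apply, smul_eq_mul, Pi.zero_apply]
    linear_combination h1
  rw [LinearIndependent.pair_iff] at hz
  have hev : ev (wedge (ev w₁ z) (ev w₂ z)) z = 0 := by
    rw [ev_wedge, Integ.dot_ev_self, Integ.dot_ev_self, zero_smul, zero_smul, sub_zero]
  have hmz : (- D₂ lam) • ev w₁ z + D₁ lam • ev w₂ z = 0 := by
    have h1 : ev (D₁ lam • w₂ - D₂ lam • w₁ +
      (lam * lam - lam) • wedge (ev w₁ z) (ev w₂ z)) z = 0 := by rw [hmain, ev_zero_left]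
    rw [ev_add_left, ev_sub_left, ev_smul_left, ev_smul_left, ev_smul_left, hev, smul_zero,
      add_zero] at h1
    rw [neg_smul, neg_add_eq_sub]
    exact h1
  obtain ⟨hd2, hd1⟩ := hz _ _ hmz
  rw [neg_eq_zero] at hd2
  rw [hd1, hd2, zero_smul, zero_smul, sub_zero, zero_add, smul_eq_zero] at hmain
  rcases hmain with h | h
  · have h1 : lam * (lam - 1) = 0 := by
      rw [mul_sub, mul_one]
      exact h
    rcases mul_eq_zero.1 h1 with h2 | h2
    · exact Or.inl h2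
    · exact Or.inr (sub_eq_zero.1 h2)
  · exfalso
    have h1 : ev w₂ z = 0 := by
      apply Integ.eq_zero_of_idot
      intro r
      have h2 : ev (wedge (ev w₁ z) (ev w₂ z)) r = 0 := by rw [h, ev_zero_left]
      rw [ev_wedge, sub_eq_add_neg, ← neg_smul] at h2
      rw [dotProduct_comm]
      exact (hz _ _ h2).1
    have h3 := hz 0 1 (by rw [h1, smul_zero, zero_smul, add_zero])
    exact one_ne_zero h3.2


end Pool.Agent.H49BJ
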