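import Pool.Agent.H49BJ.Skew

/-!
# The triangle lemma
-/

open Matrix Module

namespace Pool.Agent.H49BJ

section poly

variable {K : Type*} [Field K]

/-- polynomial functions on `K^4` -/
def IsPoly (f : Pt K → K) : Prop :=
  ∃ P : MvPolynomial (Fin 4) K, ∀ p, f p = MvPolynomial.eval p P

theorem IsPoly.const (c : K) : IsPoly (fun _ : Pt K => c) :=
  ⟨MvPolynomial.C c, fun p => by simp⟩

theorem IsPoly.coord (i : Fin 4) : IsPoly (fun p : Pt K => p i) :=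
  ⟨MvPolynomial.X i, fun p => by simp⟩

theorem IsPoly.add {f g : Pt K → K} (hf : IsPoly f) (hg : IsPoly g) :
    IsPoly (fun p => f p + g p) := by
  obtain ⟨P, hP⟩ := hf
  obtain ⟨Q, hQ⟩ := hg
  exact ⟨P + Q, fun p => by simp [hP, hQ]⟩

theorem IsPoly.mul {f g : Pt K → K} (hf : IsPoly f) (hg : IsPoly g) :
    IsPoly (fun p => f p * g p) := by
  obtain ⟨P, hP⟩ := hf
  obtain ⟨Q, hQ⟩ := hg
  exact ⟨P * Q, fun p => by simp [hP, hQ]⟩

theorem IsPoly.sub {f g : Pt K → K} (hf : IsPoly f) (hg : IsPoly g) :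
    IsPoly (fun p => f p - g p) := by
  obtain ⟨P, hP⟩ := hf
  obtain ⟨Q, hQ⟩ := hg
  exact ⟨P - Q, fun p => by simp [hP, hQ]⟩

theorem IsPoly.dot (v : Pt K) : IsPoly (fun p : Pt K => v ⬝ᵥ p) := by
  have : (fun p : Pt K => v ⬝ᵥ p) =
      fun p => ((v 0 * p 0 + v 1 * p 1) + v 2 * p 2) + v 3 * p 3 := by
    funext p; simp [dotProduct, Fin.sum_univ_four]
  rw [this]
  exact ((((IsPoly.const _).mul (IsPoly.coord 0)).add ((IsPoly.const _).mul (IsPoly.coord 1))).add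
    ((IsPoly.const _).mul (IsPoly.coord 2))).add ((IsPoly.const _).mul (IsPoly.coord 3))

theorem IsPoly.dot' (v : Pt K) : IsPoly (fun p : Pt K => p ⬝ᵥ v) := by
  have : (fun p : Pt K => p ⬝ᵥ v) = fun p => v ⬝ᵥ p := by
    funext p; exact dotProduct_comm _ _
  rw [this]; exact IsPoly.dot v

theorem IsPoly.bil_right (a : Tw K) (p : Pt K) : IsPoly (fun q : Pt K => bil a p q) :=
  IsPoly.dot' (ev a p)

theorem IsPoly.bil_left (a : Tw K) (q : Pt K) : IsPoly (fun p : Pt K => bil a p q) := by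
  have : (fun p : Pt K => bil a p q) = fun p => 0 - bil a q p := by
    funext p; rw [bil_swap]; ring
  rw [this]; exact (IsPoly.const 0).sub (IsPoly.bil_right a q)

theorem poly_avoid [CharZero K] {f g : Pt K → K} (hf : IsPoly f) (hg : IsPoly g)
    (h1 : ∃ p, f p ≠ 0) (h2 : ∃ p, g p ≠ 0) : ∃ p, f p ≠ 0 ∧ g p ≠ 0 := by
  obtain ⟨P, hP⟩ := hf
  obtain ⟨Q, hQ⟩ := hg
  obtain ⟨p1, hp1⟩ := h1
  obtain ⟨p2, hp2⟩ := h2
  have hP0 : P ≠ 0 := by rintro rfl; rw [hP] at hp1; simp at hp1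
  have hQ0 : Q ≠ 0 := by rintro rfl; rw [hQ] at hp2; simp at hp2
  have hPQ : P * Q ≠ 0 := mul_ne_zero hP0 hQ0
  by_contra hcon
  push Not at hcon
  apply hPQ
  apply MvPolynomial.funext
  intro p
  rw [map_mul, ← hP, ← hQ, map_zero]
  by_cases h : f p = 0
  · rw [h, zero_mul]
  · rw [hcon p h, mul_zero]

end poly

section lin

variable {K : Type*} [Field K]

/-- dual vectors of a linearly independent family -/
theorem exists_dual {n : ℕ} {v : Fin n → Pt K} (h : LinearIndependent K v) :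
    ∃ r : Fin n → Pt K, ∀ i j, r i ⬝ᵥ v j = if i = j then 1 else 0 := by
  classical
  have hinj : LinearMap.ker (Fintype.linearCombination K v) = ⊥ :=
    LinearMap.ker_eq_bot.2 h.fintypeLinearCombination_injective
  obtain ⟨g, hg⟩ := LinearMap.exists_leftInverse_of_injective _ hinj
  refine ⟨fun i k => g (Pi.single k 1) i, fun i j => ?_⟩
  have h1 : g (v j) = Pi.single j 1 := by
    have := LinearMap.congr_fun hg (Pi.single j 1)
    simpa [Fintype.linearCombination_apply] using this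
  have h2 : v j = ∑ k, v j k • (Pi.single k (1 : K) : Pt K) := by
    funext l
    simp [Finset.sum_apply, Pi.single_apply]
  have h3 : g (v j) i = ∑ k, v j k * g (Pi.single k 1) i := by
    conv_lhs => rw [h2]
    simp [map_sum, Finset.sum_apply]
  rw [h1] at h3
  rw [dotProduct]
  have h4 : ∑ k, g (Pi.single k 1) i * v j k = ∑ k, v j k * g (Pi.single k 1) i :=
    Finset.sum_congr rfl (fun k _ => mul_comm _ _)
  rw [h4, ← h3, Pi.single_apply]

theorem exists_dot_ne {v : Pt K} (h : v ≠ 0) : ∃ r : Pt K, r ⬝ᵥ v ≠ 0 := by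
  by_contra hcon
  push Not at hcon
  apply h
  funext i
  have := hcon (Pi.single i 1)
  simpa using this

theorem eq_zero_of_fdot {v : Pt K} (h : ∀ r : Pt K, r ⬝ᵥ v = 0) : v = 0 := by
  by_contra hv
  obtain ⟨r, hr⟩ := exists_dot_ne hv
  exact hr (h r)

/-- a bilinear identity forcing proportionality -/
theorem prop_of_cross {v₁ v₂ c₁ c₂ : Pt K} (h : LinearIndependent K ![v₁, v₂])
    (hr : ∀ r : Pt K, (r ⬝ᵥ c₁) * (r ⬝ᵥ v₂) = (r ⬝ᵥ c₂) * (r ⬝ᵥ v₁)) :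
    ∃ lam : K, c₁ = lam • v₁ ∧ c₂ = lam • v₂ := by
  obtain ⟨d, hd⟩ := exists_dual h
  have d11 : d 0 ⬝ᵥ v₁ = 1 := by simpa using hd 0 0
  have d12 : d 0 ⬝ᵥ v₂ = 0 := by simpa using hd 0 1
  have d21 : d 1 ⬝ᵥ v₁ = 0 := by simpa using hd 1 0
  have d22 : d 1 ⬝ᵥ v₂ = 1 := by simpa using hd 1 1
  -- c₁ vanishes on the vectors killing v₁
  have k1 : ∀ r : Pt K, r ⬝ᵥ v₁ = 0 → r ⬝ᵥ c₁ = 0 := by
    intro r h0
    have e0 : d 1 ⬝ᵥ c₁ = 0 := by
      have := hr (d 1); rw [d22, d21] at this; simpa using this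
    by_cases h2 : r ⬝ᵥ v₂ = 0
    · have e1 := hr (r + d 1)
      rw [add_dotProduct, add_dotProduct, add_dotProduct, add_dotProduct, h0, h2, d21, d22, e0] at e1
      simpa using e1
    · have e1 := hr r
      rw [h0, mul_zero] at e1
      exact (mul_eq_zero.1 e1).resolve_right h2
  have k2 : ∀ r : Pt K, r ⬝ᵥ v₂ = 0 → r ⬝ᵥ c₂ = 0 := by
    intro r h0
    have e0 : d 0 ⬝ᵥ c₂ = 0 := by
      have := hr (d 0); rw [d11, d12] at this; simpa using this.symm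
    by_cases h2 : r ⬝ᵥ v₁ = 0
    · have e1 := hr (r + d 0)
      rw [add_dotProduct, add_dotProduct, add_dotProduct, add_dotProduct, h0, h2, d11, d12, e0] at e1
      simpa using e1.symm
    · have e1 := hr r
      rw [h0, mul_zero] at e1
      exact (mul_eq_zero.1 e1.symm).resolve_right h2
  have e1 : c₁ = (d 0 ⬝ᵥ c₁) • v₁ := by
    refine sub_eq_zero.1 (eq_zero_of_fdot (fun r => ?_))
    have := k1 (r - (r ⬝ᵥ v₁) • d 0) (by rw [sub_dotProduct, smul_dotProduct, d11]; simp)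
    rw [sub_dotProduct, smul_dotProduct] at this
    rw [dotProduct_sub, dotProduct_smul]
    simp only [smul_eq_mul] at *
    linear_combination this
  have e2 : c₂ = (d 1 ⬝ᵥ c₂) • v₂ := by
    refine sub_eq_zero.1 (eq_zero_of_fdot (fun r => ?_))
    have := k2 (r - (r ⬝ᵥ v₂) • d 1) (by rw [sub_dotProduct, smul_dotProduct, d22]; simp)
    rw [sub_dotProduct, smul_dotProduct] at this
    rw [dotProduct_sub, dotProduct_smul]
    simp only [smul_eq_mul] at *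
    linear_combination this
  refine ⟨d 0 ⬝ᵥ c₁, e1, ?_⟩
  have h3 := hr (d 0 + d 1)
  have h4 : d 1 ⬝ᵥ c₁ = 0 := k1 _ d21
  have h5 : d 0 ⬝ᵥ c₂ = 0 := k2 _ d12
  simp only [add_dotProduct, d11, d12, d21, d22, h4, h5] at h3
  have h6 : d 0 ⬝ᵥ c₁ = d 1 ⬝ᵥ c₂ := by linear_combination h3
  rw [h6]; exact e2

end lin

set_option linter.unusedSectionVars false

section tri

variable {K N : Type*} [Field K] [CharZero K] [AddCommGroup N] [Module K N]

/-- the determinant of three functionals of the form `bil` -/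
def d3 (x₁ x₂ x₃ y₁ y₂ y₃ z₁ z₂ z₃ : K) : K :=
  x₁ * (y₂ * z₃ - y₃ * z₂) - x₂ * (y₁ * z₃ - y₃ * z₁) + x₃ * (y₁ * z₂ - y₂ * z₁)

/-- hypothesis of the triangle lemma -/
def TH (A C : N →ₗ[K] Tw K) : Prop :=
  ∀ (p₁ p₂ p₃ : Pt K) (M₁ M₂ M₃ : N),
    d3 (bil (A M₁) p₁ p₂) (bil (A M₂) p₁ p₂) (bil (A M₃) p₁ p₂)
      (bil (C M₁) p₁ p₃) (bil (C M₂) p₁ p₃) (bil (C M₃) p₁ p₃)
      (bil (C M₁ - A M₁) p₂ p₃) (bil (C M₂ - A M₂) p₂ p₃) (bil (C M₃ - A M₃) p₂ p₃) = 0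

theorem TH.symm {A C : N →ₗ[K] Tw K} (H : TH A C) : TH C A := by
  intro p₁ p₂ p₃ M₁ M₂ M₃
  have h := H p₁ p₃ p₂ M₁ M₂ M₃
  have a3 : ∀ (a b : Tw K), bil (a - b) p₂ p₃ = bil a p₂ p₃ - bil b p₂ p₃ := by
    intro a b; simp only [bil_def, Pi.sub_apply]; ring
  have a4 : ∀ (a b : Tw K), bil (a - b) p₃ p₂ = bil b p₂ p₃ - bil a p₂ p₃ := by
    intro a b; simp only [bil_def, Pi.sub_apply]; ring
  simp only [d3, a3, a4] at h ⊢
  linear_combination -h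

theorem TH.t1 {A C : N →ₗ[K] Tw K} (H : TH A C) (p q r : Pt K) (M₁ M₂ M₃ : N) :
    d3 (bil (A M₁) p q) (bil (A M₂) p q) (bil (A M₃) p q)
      (bil (C M₁) p r) (bil (C M₂) p r) (bil (C M₃) p r)
      (bil (A M₁) p r) (bil (A M₂) p r) (bil (A M₃) p r) = 0 := by
  have h1 := H p (p + q) r M₁ M₂ M₃
  have h2 := H p (p + (2 : K) • q) r M₁ M₂ M₃
  have a1 : ∀ (a : Tw K) (c : K), bil a p (p + c • q) = c * bil a p q := by
    intro a c; simp only [bil_def, Pi.add_apply, Pi.smul_apply, smul_eq_mul]; ring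
  have a2 : ∀ (a : Tw K) (c : K), bil a (p + c • q) r = bil a p r + c * bil a q r := by
    intro a c; simp only [bil_def, Pi.add_apply, Pi.smul_apply, smul_eq_mul]; ring
  have a3 : ∀ (a b : Tw K) (x y : Pt K), bil (a - b) x y = bil a x y - bil b x y := by
    intro a b x y; simp only [bil_def, Pi.sub_apply]; ring
  have a1' : ∀ (a : Tw K), bil a p (p + q) = bil a p q := by
    intro a; simpa using a1 a 1
  have a2' : ∀ (a : Tw K), bil a (p + q) r = bil a p r + bil a q r := by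
    intro a; simpa using a2 a 1
  simp only [a1, a2, a3, a1', a2', d3] at h1 h2 ⊢
  linear_combination (-2) * h1 + (1/2) * h2

theorem li_three_of_d3 {w₁ w₂ w₃ r₁ r₂ r₃ : Pt K}
    (h : d3 (r₁ ⬝ᵥ w₁) (r₁ ⬝ᵥ w₂) (r₁ ⬝ᵥ w₃) (r₂ ⬝ᵥ w₁) (r₂ ⬝ᵥ w₂) (r₂ ⬝ᵥ w₃)
      (r₃ ⬝ᵥ w₁) (r₃ ⬝ᵥ w₂) (r₃ ⬝ᵥ w₃) ≠ 0) : LinearIndependent K ![w₁, w₂, w₃] := by
  rw [Fintype.linearIndependent_iff]
  intro c hc
  simp only [Fin.sum_univ_three, Matrix.cons_val_zero, Matrix.cons_val_one, Matrix.cons_val] at hc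
  have e : ∀ r : Pt K, c 0 * (r ⬝ᵥ w₁) + c 1 * (r ⬝ᵥ w₂) + c 2 * (r ⬝ᵥ w₃) = 0 := by
    intro r
    have := congrArg (fun x => r ⬝ᵥ x) hc
    simpa [dotProduct_add, dotProduct_smul] using this
  have e1 := e r₁
  have e2 := e r₂
  have e3 := e r₃
  have h0 : c 0 * d3 (r₁ ⬝ᵥ w₁) (r₁ ⬝ᵥ w₂) (r₁ ⬝ᵥ w₃) (r₂ ⬝ᵥ w₁) (r₂ ⬝ᵥ w₂) (r₂ ⬝ᵥ w₃)
      (r₃ ⬝ᵥ w₁) (r₃ ⬝ᵥ w₂) (r₃ ⬝ᵥ w₃) = 0 := by
    simp only [d3]
    linear_combination ((r₂ ⬝ᵥ w₂) * (r₃ ⬝ᵥ w₃) - (r₂ ⬝ᵥ w₃) * (r₃ ⬝ᵥ w₂)) * e1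
      - ((r₁ ⬝ᵥ w₂) * (r₃ ⬝ᵥ w₃) - (r₁ ⬝ᵥ w₃) * (r₃ ⬝ᵥ w₂)) * e2
      + ((r₁ ⬝ᵥ w₂) * (r₂ ⬝ᵥ w₃) - (r₁ ⬝ᵥ w₃) * (r₂ ⬝ᵥ w₂)) * e3
  have h1 : c 1 * d3 (r₁ ⬝ᵥ w₁) (r₁ ⬝ᵥ w₂) (r₁ ⬝ᵥ w₃) (r₂ ⬝ᵥ w₁) (r₂ ⬝ᵥ w₂) (r₂ ⬝ᵥ w₃)
      (r₃ ⬝ᵥ w₁) (r₃ ⬝ᵥ w₂) (r₃ ⬝ᵥ w₃) = 0 := by
    simp only [d3]
    linear_combination -((r₂ ⬝ᵥ w₁) * (r₃ ⬝ᵥ w₃) - (r₂ ⬝ᵥ w₃) * (r₃ ⬝ᵥ w₁)) * e1
      + ((r₁ ⬝ᵥ w₁) * (r₃ ⬝ᵥ w₃) - (r₁ ⬝ᵥ w₃) * (r₃ ⬝ᵥ w₁)) * e2
      - ((r₁ ⬝ᵥ w₁) * (r₂ ⬝ᵥ w₃) - (r₁ ⬝ᵥ w₃) * (r₂ ⬝ᵥ w₁)) * e3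
  have h2 : c 2 * d3 (r₁ ⬝ᵥ w₁) (r₁ ⬝ᵥ w₂) (r₁ ⬝ᵥ w₃) (r₂ ⬝ᵥ w₁) (r₂ ⬝ᵥ w₂) (r₂ ⬝ᵥ w₃)
      (r₃ ⬝ᵥ w₁) (r₃ ⬝ᵥ w₂) (r₃ ⬝ᵥ w₃) = 0 := by
    simp only [d3]
    linear_combination ((r₂ ⬝ᵥ w₁) * (r₃ ⬝ᵥ w₂) - (r₂ ⬝ᵥ w₂) * (r₃ ⬝ᵥ w₁)) * e1
      - ((r₁ ⬝ᵥ w₁) * (r₃ ⬝ᵥ w₂) - (r₁ ⬝ᵥ w₂) * (r₃ ⬝ᵥ w₁)) * e2
      + ((r₁ ⬝ᵥ w₁) * (r₂ ⬝ᵥ w₂) - (r₁ ⬝ᵥ w₂) * (r₂ ⬝ᵥ w₁)) * e3
  intro i
  fin_cases i
  · exact (mul_eq_zero.1 h0).resolve_right h
  · exact (mul_eq_zero.1 h1).resolve_right h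
  · exact (mul_eq_zero.1 h2).resolve_right h

theorem li_two_of_minor {w₁ w₂ r₁ r₂ : Pt K}
    (h : (r₁ ⬝ᵥ w₁) * (r₂ ⬝ᵥ w₂) - (r₁ ⬝ᵥ w₂) * (r₂ ⬝ᵥ w₁) ≠ 0) :
    LinearIndependent K ![w₁, w₂] := by
  rw [LinearIndependent.pair_iff]
  intro a b hab
  have e : ∀ r : Pt K, a * (r ⬝ᵥ w₁) + b * (r ⬝ᵥ w₂) = 0 := by
    intro r
    have := congrArg (fun x => r ⬝ᵥ x) hab
    simpa [dotProduct_add, dotProduct_smul] using this
  have e1 := e r₁
  have e2 := e r₂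
  have h0 : a * ((r₁ ⬝ᵥ w₁) * (r₂ ⬝ᵥ w₂) - (r₁ ⬝ᵥ w₂) * (r₂ ⬝ᵥ w₁)) = 0 := by
    linear_combination (r₂ ⬝ᵥ w₂) * e1 - (r₁ ⬝ᵥ w₂) * e2
  have h1 : b * ((r₁ ⬝ᵥ w₁) * (r₂ ⬝ᵥ w₂) - (r₁ ⬝ᵥ w₂) * (r₂ ⬝ᵥ w₁)) = 0 := by
    linear_combination -(r₂ ⬝ᵥ w₁) * e1 + (r₁ ⬝ᵥ w₁) * e2
  exact ⟨(mul_eq_zero.1 h0).resolve_right h, (mul_eq_zero.1 h1).resolve_right h⟩

/-- the cross identity at a good point -/
theorem TH.cross {A C : N →ₗ[K] Tw K} (H : TH A C) {p : Pt K} {M₁ M₂ M₃ : N}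
    (hli : LinearIndependent K ![ev (A M₁) p, ev (A M₂) p, ev (A M₃) p]) :
    ∃ lam : K, ev (C M₁) p = lam • ev (A M₁) p ∧ ev (C M₂) p = lam • ev (A M₂) p := by
  obtain ⟨d, hd⟩ := exists_dual hli
  have h12 : LinearIndependent K ![ev (A M₁) p, ev (A M₂) p] := by
    apply li_two_of_minor (r₁ := d 0) (r₂ := d 1)
    have a := hd 0 0
    have b := hd 0 1
    have c := hd 1 0
    have e := hd 1 1
    simp at a b c e
    rw [a, b, c, e]; simp
  apply prop_of_cross h12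
  intro r
  have h := H.t1 p (d 2) r M₁ M₂ M₃
  have a : bil (A M₁) p (d 2) = 0 := by unfold bil; simpa using hd 2 0
  have b : bil (A M₂) p (d 2) = 0 := by unfold bil; simpa using hd 2 1
  have c : bil (A M₃) p (d 2) = 1 := by unfold bil; simpa using hd 2 2
  rw [a, b, c] at h
  simp only [d3, bil] at h
  linear_combination h

theorem TH.good_prop {A C : N →ₗ[K] Tw K} (H : TH A C) {p : Pt K} {M₁ M₂ M₃ : N}
    (hli : LinearIndependent K ![ev (A M₁) p, ev (A M₂) p, ev (A M₃) p]) :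
    ∃ lam : K, ∀ M, ev (C M) p = lam • ev (A M) p := by
  obtain ⟨d, hd⟩ := exists_dual hli
  have d00 : d 0 ⬝ᵥ ev (A M₁) p = 1 := by simpa using hd 0 0
  have d01 : d 0 ⬝ᵥ ev (A M₂) p = 0 := by simpa using hd 0 1
  have d02 : d 0 ⬝ᵥ ev (A M₃) p = 0 := by simpa using hd 0 2
  have d10 : d 1 ⬝ᵥ ev (A M₁) p = 0 := by simpa using hd 1 0
  have d11 : d 1 ⬝ᵥ ev (A M₂) p = 1 := by simpa using hd 1 1
  have d12 : d 1 ⬝ᵥ ev (A M₃) p = 0 := by simpa using hd 1 2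
  have d20 : d 2 ⬝ᵥ ev (A M₁) p = 0 := by simpa using hd 2 0
  have d21 : d 2 ⬝ᵥ ev (A M₂) p = 0 := by simpa using hd 2 1
  have d22 : d 2 ⬝ᵥ ev (A M₃) p = 1 := by simpa using hd 2 2
  obtain ⟨lam, h1, h2⟩ := H.cross hli
  refine ⟨lam, fun M => ?_⟩
  have key : ∀ M' : N, d 0 ⬝ᵥ ev (A M') p ≠ 0 → ev (C M') p = lam • ev (A M') p := by
    intro M' hM'
    have hli' : LinearIndependent K ![ev (A M') p, ev (A M₂) p, ev (A M₃) p] := by
      apply li_three_of_d3 (r₁ := d 0) (r₂ := d 1) (r₃ := d 2)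
      rw [d01, d02, d11, d12, d21, d22]
      simpa [d3] using hM'
    obtain ⟨mu, h3, h4⟩ := H.cross hli'
    have h5 : lam = mu := by
      have := congrArg (fun x => d 1 ⬝ᵥ x) (h2.symm.trans h4)
      simpa [dotProduct_smul, d11] using this
    rw [h5]; exact h3
  by_cases h0 : d 0 ⬝ᵥ ev (A M) p = 0
  · have h6 := key (M + M₁) (by
      rw [map_add, ev_add_left, dotProduct_add, h0, d00]; simp)
    rw [map_add, map_add, ev_add_left, ev_add_left, h1, smul_add] at h6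
    exact add_right_cancel h6
  · exact key M h0

theorem bil_add_smul_left (a : Tw K) (x y q : Pt K) (c : K) :
    bil a (x + c • y) q = bil a x q + c * bil a y q := by
  simp only [bil_def, Pi.add_apply, Pi.smul_apply, smul_eq_mul]; ring

/-- vectors orthogonal to three independent vectors of `p^⊥` are multiples of `p` -/
theorem perp_three {p p' v₁ v₂ v₃ : Pt K} (hli : LinearIndependent K ![v₁, v₂, v₃])
    (h1 : p ⬝ᵥ v₁ = 0) (h2 : p ⬝ᵥ v₂ = 0) (h3 : p ⬝ᵥ v₃ = 0)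
    (h1' : p' ⬝ᵥ v₁ = 0) (h2' : p' ⬝ᵥ v₂ = 0) (h3' : p' ⬝ᵥ v₃ = 0) :
    ¬ LinearIndependent K ![p, p'] := by
  intro hpp
  -- the space of vectors orthogonal to `p` and `p'`
  let φ : Pt K →ₗ[K] (Fin 2 → K) :=
    { toFun := fun x => ![p ⬝ᵥ x, p' ⬝ᵥ x]
      map_add' := by intro x y; funext i; fin_cases i <;> simp [dotProduct_add]
      map_smul' := by intro c x; funext i; fin_cases i <;> simp [dotProduct_smul] }
  obtain ⟨d, hd⟩ := exists_dual hpp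
  have d00 : d 0 ⬝ᵥ p = 1 := by simpa using hd 0 0
  have d01 : d 0 ⬝ᵥ p' = 0 := by simpa using hd 0 1
  have d10 : d 1 ⬝ᵥ p = 0 := by simpa using hd 1 0
  have d11 : d 1 ⬝ᵥ p' = 1 := by simpa using hd 1 1
  have hsurj : Function.Surjective φ := by
    intro y
    refine ⟨y 0 • d 0 + y 1 • d 1, ?_⟩
    funext i
    fin_cases i
    · simp [φ, dotProduct_add, dotProduct_smul, dotProduct_comm p, d00, d10]
    · simp [φ, dotProduct_add, dotProduct_smul, dotProduct_comm p', d01, d11]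
  have hr := LinearMap.finrank_range_add_finrank_ker φ
  rw [LinearMap.range_eq_top.2 hsurj, finrank_top] at hr
  simp only [finrank_fintype_fun_eq_card, Fintype.card_fin] at hr
  have hker : finrank K (LinearMap.ker φ) = 2 := by omega
  have hmem : ∀ i, ![v₁, v₂, v₃] i ∈ LinearMap.ker φ := by
    intro i
    rw [LinearMap.mem_ker]
    fin_cases i
    · funext j; fin_cases j <;> simp [φ, h1, h1']
    · funext j; fin_cases j <;> simp [φ, h2, h2']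
    · funext j; fin_cases j <;> simp [φ, h3, h3']
  have hli' : LinearIndependent K (fun i => (⟨![v₁, v₂, v₃] i, hmem i⟩ : LinearMap.ker φ)) := by
    apply LinearIndependent.of_comp (LinearMap.ker φ).subtype
    exact hli
  have := hli'.fintype_card_le_finrank
  rw [hker] at this
  simp at this

theorem TH.free_case {A C : N →ₗ[K] Tw K} (H : TH A C) {p : Pt K} {M₁ M₂ M₃ : N}
    (hli : LinearIndependent K ![ev (A M₁) p, ev (A M₂) p, ev (A M₃) p]) :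
    ∃ lam : K, C = lam • A := by
  obtain ⟨lam, hlam⟩ := H.good_prop hli
  refine ⟨lam, LinearMap.ext fun M => ?_⟩
  rw [LinearMap.smul_apply, ← sub_eq_zero]
  apply tw_ext
  intro q
  rw [ev_sub_left, ev_smul_left, sub_eq_zero]
  by_cases hpq : LinearIndependent K ![p, q]
  · -- a good point on the line
    obtain ⟨d, hd⟩ := exists_dual hli
    have d00 : d 0 ⬝ᵥ ev (A M₁) p = 1 := by simpa using hd 0 0
    have d01 : d 0 ⬝ᵥ ev (A M₂) p = 0 := by simpa using hd 0 1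
    have d02 : d 0 ⬝ᵥ ev (A M₃) p = 0 := by simpa using hd 0 2
    have d10 : d 1 ⬝ᵥ ev (A M₁) p = 0 := by simpa using hd 1 0
    have d11 : d 1 ⬝ᵥ ev (A M₂) p = 1 := by simpa using hd 1 1
    have d12 : d 1 ⬝ᵥ ev (A M₃) p = 0 := by simpa using hd 1 2
    have d20 : d 2 ⬝ᵥ ev (A M₁) p = 0 := by simpa using hd 2 0
    have d21 : d 2 ⬝ᵥ ev (A M₂) p = 0 := by simpa using hd 2 1
    have d22 : d 2 ⬝ᵥ ev (A M₃) p = 1 := by simpa using hd 2 2
    have hs : ∃ s : K, s ≠ 0 ∧ LinearIndependent K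
        ![ev (A M₁) (p + s • q), ev (A M₂) (p + s • q), ev (A M₃) (p + s • q)] := by
      by_contra hcon
      push Not at hcon
      have hz : ∀ s : K, s ≠ 0 →
          d3 (d 0 ⬝ᵥ ev (A M₁) (p + s • q)) (d 0 ⬝ᵥ ev (A M₂) (p + s • q))
            (d 0 ⬝ᵥ ev (A M₃) (p + s • q)) (d 1 ⬝ᵥ ev (A M₁) (p + s • q))
            (d 1 ⬝ᵥ ev (A M₂) (p + s • q)) (d 1 ⬝ᵥ ev (A M₃) (p + s • q))
            (d 2 ⬝ᵥ ev (A M₁) (p + s • q)) (d 2 ⬝ᵥ ev (A M₂) (p + s • q))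
            (d 2 ⬝ᵥ ev (A M₃) (p + s • q)) = 0 := by
        intro s hs
        by_contra hne
        exact hcon s hs (li_three_of_d3 hne)
      have z1 := hz 1 one_ne_zero
      have z2 := hz 2 two_ne_zero
      have z3 := hz 3 three_ne_zero
      have z4 := hz 4 (by norm_num)
      simp only [ev_add_right, ev_smul_right, dotProduct_add, dotProduct_smul, smul_eq_mul,
        d00, d01, d02, d10, d11, d12, d20, d21, d22, d3] at z1 z2 z3 z4
      have : (1 : K) = 0 := by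
        linear_combination 4 * z1 - 6 * z2 + 4 * z3 - z4
      exact one_ne_zero this
    obtain ⟨s, hs0, hs⟩ := hs
    obtain ⟨mu, hmu⟩ := H.good_prop hs
    have hmul : mu = lam := by
      by_contra hne
      have hz : ∀ M', q ⬝ᵥ ev (A M') p = 0 := by
        intro M'
        have e1 := congrArg (fun x => p ⬝ᵥ x) (hmu M')
        simp only [ev_add_right, ev_smul_right, dotProduct_add, dotProduct_smul, smul_eq_mul] at e1
        have e2 : p ⬝ᵥ ev (A M') p = 0 := bil_self _ _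
        have e3 : p ⬝ᵥ ev (C M') p = 0 := bil_self _ _
        have e4 : p ⬝ᵥ ev (C M') q = - (q ⬝ᵥ ev (C M') p) := bil_swap _ _ _
        have e5 : p ⬝ᵥ ev (A M') q = - (q ⬝ᵥ ev (A M') p) := bil_swap _ _ _
        have e6 : q ⬝ᵥ ev (C M') p = lam * (q ⬝ᵥ ev (A M') p) := by
          rw [hlam, dotProduct_smul, smul_eq_mul]
        rw [e2, e3, e4, e5, e6] at e1
        have e7 : (mu - lam) * (s * (q ⬝ᵥ ev (A M') p)) = 0 := by linear_combination e1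
        rcases mul_eq_zero.1 e7 with h | h
        · exact absurd (sub_eq_zero.1 h) hne
        · exact (mul_eq_zero.1 h).resolve_left hs0
      exact perp_three hli (bil_self _ _) (bil_self _ _) (bil_self _ _) (hz M₁) (hz M₂) (hz M₃) hpq
    have e := hmu M
    rw [hmul, ev_add_right, ev_add_right, ev_smul_right, ev_smul_right, smul_add, hlam M] at e
    have e' := add_left_cancel e
    rw [smul_comm lam s] at e'
    exact smul_right_injective _ hs0 e'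
  · rw [LinearIndependent.pair_iff] at hpq
    push Not at hpq
    obtain ⟨a, b, hab, hne⟩ := hpq
    have hp0 : p ≠ 0 := by
      rintro rfl
      have := hli.ne_zero 0
      simp at this
    have hb : b ≠ 0 := by
      rintro rfl
      have ha : a ≠ 0 := by
        intro ha; exact hne ha rfl
      rw [zero_smul, add_zero] at hab
      exact hp0 ((smul_eq_zero.1 hab).resolve_left ha)
    have hq : q = (-(b⁻¹ * a)) • p := by
      have : b • q = - (a • p) := by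
        rw [eq_neg_iff_add_eq_zero, add_comm]; exact hab
      calc q = b⁻¹ • (b • q) := by rw [smul_smul, inv_mul_cancel₀ hb, one_smul]
        _ = (-(b⁻¹ * a)) • p := by rw [this, smul_neg, smul_smul, neg_smul]
    rw [hq, ev_smul_right, ev_smul_right, hlam, smul_comm]

/-- a functional that is nonzero somewhere is not always proportional to `bil (A ·) p x` -/
theorem exists_cross {A : N →ₗ[K] Tw K} {p : Pt K} {M₁ M₂ M₃ : N}
    (h2 : LinearIndependent K ![ev (A M₁) p, ev (A M₂) p]) (g : N → K) (hg : g M₃ ≠ 0) :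
    ∃ (x : Pt K) (N₁ N₂ : N), bil (A N₁) p x * g N₂ - bil (A N₂) p x * g N₁ ≠ 0 := by
  obtain ⟨d, hd⟩ := exists_dual h2
  have d00 : bil (A M₁) p (d 0) = 1 := by unfold bil; simpa using hd 0 0
  have d01 : bil (A M₂) p (d 0) = 0 := by unfold bil; simpa using hd 0 1
  have d10 : bil (A M₁) p (d 1) = 0 := by unfold bil; simpa using hd 1 0
  have d11 : bil (A M₂) p (d 1) = 1 := by unfold bil; simpa using hd 1 1
  by_contra hcon
  push Not at hcon
  have e1 := hcon (d 1) M₂ M₁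
  rw [d11, d10] at e1
  have e2 := hcon (d 0) M₁ M₃
  rw [d00] at e2
  have e3 : g M₁ = 0 := by linear_combination e1
  rw [e3] at e2
  exact hg (by linear_combination e2)

theorem TH.rank_two_case {A C : N →ₗ[K] Tw K} (H : TH A C) (hC : C ≠ 0) (hB : C ≠ A)
    {p₀ : Pt K} {N₁ N₂ : N} (hli : LinearIndependent K ![ev (A N₁) p₀, ev (A N₂) p₀]) :
    ∃ p : Pt K, ∀ M, ev (A M) p = 0 → A M = 0 ∧ C M = 0 := by
  -- nonvanishing data
  obtain ⟨d, hd⟩ := exists_dual hli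
  obtain ⟨M₃, hM₃⟩ : ∃ M₃, C M₃ ≠ 0 := by
    by_contra hcon; push Not at hcon; exact hC (LinearMap.ext hcon)
  obtain ⟨M₄, hM₄⟩ : ∃ M₄, C M₄ - A M₄ ≠ 0 := by
    by_contra hcon; push Not at hcon
    exact hB (LinearMap.ext fun M => sub_eq_zero.1 (hcon M))
  have hex : ∀ a : Tw K, a ≠ 0 → ∃ p r : Pt K, bil a p r ≠ 0 := by
    intro a ha
    by_contra hcon
    push Not at hcon
    exact ha (tw_ext fun p => eq_zero_of_fdot (fun r => hcon p r))
  obtain ⟨p₃, r₃, h3⟩ := hex _ hM₃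
  obtain ⟨p₄, r₄, h4⟩ := hex _ hM₄
  have hf : IsPoly (fun p => bil (A N₁) p (d 0) * bil (A N₂) p (d 1)
      - bil (A N₂) p (d 0) * bil (A N₁) p (d 1)) :=
    ((IsPoly.bil_left _ _).mul (IsPoly.bil_left _ _)).sub
      ((IsPoly.bil_left _ _).mul (IsPoly.bil_left _ _))
  have hf0 : ∃ p, bil (A N₁) p (d 0) * bil (A N₂) p (d 1)
      - bil (A N₂) p (d 0) * bil (A N₁) p (d 1) ≠ 0 := by
    refine ⟨p₀, ?_⟩
    have a : bil (A N₁) p₀ (d 0) = 1 := by unfold bil; simpa using hd 0 0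
    have b : bil (A N₂) p₀ (d 0) = 0 := by unfold bil; simpa using hd 0 1
    have c : bil (A N₁) p₀ (d 1) = 0 := by unfold bil; simpa using hd 1 0
    have e : bil (A N₂) p₀ (d 1) = 1 := by unfold bil; simpa using hd 1 1
    rw [a, b, c, e]; simp
  have hg : IsPoly (fun p => bil (C M₃) p r₃ * bil (C M₄ - A M₄) p r₄) :=
    (IsPoly.bil_left _ _).mul (IsPoly.bil_left _ _)
  have hg0 : ∃ p, bil (C M₃) p r₃ * bil (C M₄ - A M₄) p r₄ ≠ 0 := by
    obtain ⟨p, h5, h6⟩ := poly_avoid (IsPoly.bil_left (C M₃) r₃)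
      (IsPoly.bil_left (C M₄ - A M₄) r₄) ⟨p₃, h3⟩ ⟨p₄, h4⟩
    exact ⟨p, mul_ne_zero h5 h6⟩
  obtain ⟨p, hp1, hp2⟩ := poly_avoid hf hg hf0 hg0
  have hp3 : bil (C M₃) p r₃ ≠ 0 := left_ne_zero_of_mul hp2
  have hp4 : bil (C M₄ - A M₄) p r₄ ≠ 0 := right_ne_zero_of_mul hp2
  have hli2 : LinearIndependent K ![ev (A N₁) p, ev (A N₂) p] := by
    apply li_two_of_minor (r₁ := d 0) (r₂ := d 1)
    exact hp1
  refine ⟨p, fun M₀ hM₀ => ?_⟩
  -- claim 1
  have c1 : ev (C M₀) p = 0 := by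
    by_contra hne
    obtain ⟨e, he⟩ := exists_dual hli2
    have e00 : e 0 ⬝ᵥ ev (A N₁) p = 1 := by simpa using he 0 0
    have e10 : bil (A N₁) p (e 1) = 0 := by unfold bil; simpa using he 1 0
    have e11 : bil (A N₂) p (e 1) = 1 := by unfold bil; simpa using he 1 1
    obtain ⟨r0, hr0⟩ := exists_dot_ne hne
    obtain ⟨r, hr1, hr2⟩ := poly_avoid (IsPoly.dot' (ev (C M₀) p)) (IsPoly.dot' (ev (A N₁) p))
      ⟨r0, hr0⟩ ⟨e 0, by rw [e00]; exact one_ne_zero⟩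
    have h := H.t1 p (e 1) r N₁ N₂ M₀
    have z : ∀ y : Pt K, bil (A M₀) p y = 0 := by intro y; unfold bil; rw [hM₀]; simp
    rw [e10, e11, z, z] at h
    simp only [d3] at h
    have h' : bil (C M₀) p r * bil (A N₁) p r = 0 := by linear_combination h
    rcases mul_eq_zero.1 h' with h'' | h''
    · exact hr1 h''
    · exact hr2 h''
  have zA : ∀ y : Pt K, bil (A M₀) p y = 0 := by intro y; unfold bil; rw [hM₀]; simp
  have zC : ∀ y : Pt K, bil (C M₀) p y = 0 := by intro y; unfold bil; rw [c1]; simp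
  have zB : ∀ y : Pt K, bil (C M₀ - A M₀) p y = 0 := by
    intro y; unfold bil; rw [ev_sub_left, c1, hM₀]; simp
  -- claim 2
  have c2 : C M₀ - A M₀ = 0 := by
    by_contra hne
    obtain ⟨y0, r5, h5⟩ := hex _ hne
    obtain ⟨y, hy1, hy2⟩ := poly_avoid (IsPoly.bil_right (C M₃) p)
      (IsPoly.bil_left (C M₀ - A M₀) r5) ⟨r₃, hp3⟩ ⟨y0, h5⟩
    obtain ⟨x0, Q₁, Q₂, hx0⟩ := exists_cross hli2 (fun M => bil (C M) p y) hy1
    have hF : IsPoly (fun x => bil (A Q₁) p x * bil (C Q₂) p y - bil (A Q₂) p x * bil (C Q₁) p y) :=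
      ((IsPoly.bil_right _ _).mul (IsPoly.const _)).sub
        ((IsPoly.bil_right _ _).mul (IsPoly.const _))
    obtain ⟨x, hx1, hx2⟩ := poly_avoid (IsPoly.bil_left (C M₀ - A M₀) y) hF
      ⟨r5, by rw [bil_swap]; exact neg_ne_zero.2 hy2⟩ ⟨x0, hx0⟩
    have h := H p x y Q₁ Q₂ M₀
    rw [zA, zC] at h
    simp only [d3] at h
    have h' : bil (C M₀ - A M₀) x y
        * (bil (A Q₁) p x * bil (C Q₂) p y - bil (A Q₂) p x * bil (C Q₁) p y) = 0 := by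
      linear_combination h
    rcases mul_eq_zero.1 h' with h'' | h''
    · exact hx1 h''
    · exact hx2 h''
  -- claim 3
  have c3 : C M₀ = 0 := by
    by_contra hne
    obtain ⟨y0, r5, h5⟩ := hex _ hne
    obtain ⟨y, hy1, hy2⟩ := poly_avoid (IsPoly.bil_right (C M₄ - A M₄) p)
      (IsPoly.bil_left (C M₀) r5) ⟨r₄, hp4⟩ ⟨y0, h5⟩
    obtain ⟨x0, Q₁, Q₂, hx0⟩ := exists_cross hli2 (fun M => bil (C M - A M) p y) hy1
    have hF : IsPoly (fun x => bil (A Q₁) p x * bil (C Q₂ - A Q₂) p y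
        - bil (A Q₂) p x * bil (C Q₁ - A Q₁) p y) :=
      ((IsPoly.bil_right _ _).mul (IsPoly.const _)).sub
        ((IsPoly.bil_right _ _).mul (IsPoly.const _))
    obtain ⟨x, hx1, hx2⟩ := poly_avoid (IsPoly.bil_left (C M₀) y) hF
      ⟨r5, by rw [bil_swap]; exact neg_ne_zero.2 hy2⟩ ⟨x0, hx0⟩
    have h := H x p y Q₁ Q₂ M₀
    rw [bil_swap (A Q₁) p x, bil_swap (A Q₂) p x, bil_swap (A M₀) p x, zA, zB] at h
    simp only [d3] at h
    have h' : bil (C M₀) x y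
        * (bil (A Q₁) p x * bil (C Q₂ - A Q₂) p y - bil (A Q₂) p x * bil (C Q₁ - A Q₁) p y) = 0 := by
      linear_combination h
    rcases mul_eq_zero.1 h' with h'' | h''
    · exact hx1 h''
    · exact hx2 h''
  rw [c3, zero_sub, neg_eq_zero] at c2
  exact ⟨c2, c3⟩

/-- the map `M ↦ ev (A M) p` -/
def evAt (A : N →ₗ[K] Tw K) (p : Pt K) : N →ₗ[K] Pt K := (evL.flip p).comp A

theorem evAt_apply (A : N →ₗ[K] Tw K) (p : Pt K) (M : N) : evAt A p M = ev (A M) p := rfl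

theorem TH.side {A C : N →ₗ[K] Tw K} [FiniteDimensional K N] (H : TH A C) (hC : C ≠ 0)
    (hB : C ≠ A) :
    (∃ lam : K, C = lam • A) ∨ finrank K (LinearMap.range A) ≤ 1 ∨
      finrank K N ≤ finrank K (LinearMap.ker A ⊓ LinearMap.ker C : Submodule K N) + 2 := by
  by_cases h3 : ∃ (p : Pt K) (M₁ M₂ M₃ : N),
      LinearIndependent K ![ev (A M₁) p, ev (A M₂) p, ev (A M₃) p]
  · obtain ⟨p, M₁, M₂, M₃, hli⟩ := h3
    exact Or.inl (H.free_case hli)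
  right
  by_cases h2 : ∃ (p : Pt K) (M₁ M₂ : N), LinearIndependent K ![ev (A M₁) p, ev (A M₂) p]
  · obtain ⟨p₀, M₁, M₂, hli⟩ := h2
    right
    obtain ⟨p, hp⟩ := H.rank_two_case hC hB hli
    have hr := LinearMap.finrank_range_add_finrank_ker (evAt A p)
    have hle : finrank K (LinearMap.range (evAt A p)) ≤ 2 := by
      by_contra hcon
      push Not at hcon
      obtain ⟨f, hf⟩ := exists_linearIndependent_of_le_finrank (R := K)
        (M := LinearMap.range (evAt A p)) (n := 3) hcon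
      have h0 := (f 0).2
      have h1 := (f 1).2
      have h2 := (f 2).2
      rw [LinearMap.mem_range] at h0 h1 h2
      obtain ⟨M₁, hM₁⟩ := h0
      obtain ⟨M₂, hM₂⟩ := h1
      obtain ⟨M₃, hM₃⟩ := h2
      apply h3
      refine ⟨p, M₁, M₂, M₃, ?_⟩
      have hf' := hf.map' (LinearMap.range (evAt A p)).subtype (Submodule.ker_subtype _)
      have heq : ![ev (A M₁) p, ev (A M₂) p, ev (A M₃) p]
          = (LinearMap.range (evAt A p)).subtype ∘ f := by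
        funext i
        fin_cases i
        · exact hM₁
        · exact hM₂
        · exact hM₃
      rw [heq]; exact hf'
    have hle2 : LinearMap.ker (evAt A p) ≤ LinearMap.ker A ⊓ LinearMap.ker C := by
      intro M hM
      rw [LinearMap.mem_ker, evAt_apply] at hM
      obtain ⟨a, b⟩ := hp M hM
      exact ⟨LinearMap.mem_ker.2 a, LinearMap.mem_ker.2 b⟩
    have := Submodule.finrank_mono hle2
    omega
  · left
    by_contra hcon
    push Not at hcon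
    obtain ⟨f, hf⟩ := exists_linearIndependent_of_le_finrank (R := K)
      (M := LinearMap.range A) (n := 2) hcon
    have h0 := (f 0).2
    have h1 := (f 1).2
    rw [LinearMap.mem_range] at h0 h1
    obtain ⟨M₁, hM₁⟩ := h0
    obtain ⟨M₂, hM₂⟩ := h1
    have hf' := hf.map' (LinearMap.range A).subtype (Submodule.ker_subtype _)
    have hf2 : LinearIndependent K ![A M₁, A M₂] := by
      have heq : ![A M₁, A M₂] = (LinearMap.range A).subtype ∘ f := by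
        funext i
        fin_cases i
        · exact hM₁
        · exact hM₂
      rw [heq]; exact hf'
    obtain ⟨z, hz⟩ := exists_int_vec hf2
    exact h2 ⟨_, M₁, M₂, hz⟩

/-- **The triangle lemma.** -/
theorem triangle_lemma [FiniteDimensional K N] (A C : N →ₗ[K] Tw K) (hA : A ≠ 0) (hC : C ≠ 0)
    (hB : C ≠ A) (H : TH A C) :
    (∃ lam : K, C = lam • A) ∨ (∃ lam : K, A = lam • C) ∨
      finrank K N ≤ finrank K (LinearMap.ker A ⊓ LinearMap.ker C : Submodule K N) + 2 := by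
  rcases H.side hC hB with h | h | h
  · exact Or.inl h
  · rcases H.symm.side hA (Ne.symm hB) with h' | h' | h'
    · exact Or.inr (Or.inl h')
    · right; right
      -- both ranges have dimension at most one
      have h1 := LinearMap.finrank_range_add_finrank_ker A
      have h2 := LinearMap.finrank_range_add_finrank_ker C
      have h4 := Submodule.finrank_sup_add_finrank_inf_eq (LinearMap.ker A) (LinearMap.ker C)
      have h5 := Submodule.finrank_le (LinearMap.ker A ⊔ LinearMap.ker C)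
      omega
    · right; right
      rw [inf_comm]; exact h'
  · exact Or.inr (Or.inr h)

end tri

end Pool.Agent.H49BJ
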