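import Pool.Agent.H49BJ.Dim
import Pool.Agent.H49BJ.Tri
import Pool.Agent.H49BJ.Integ
import Pool.Agent.H49BJ.Semi

/-!
# The dimension bound for body-and-joint structures
-/

open Matrix Module

namespace Pool.Agent.H49BJ

section basic

variable {K : Type*} [Field K] {β ι : Type*}

theorem Mot_congr (B : Finset β) (J : Finset ι) (s t : ι → β) {X X' : ι → Pt K}
    (h : ∀ j ∈ J, X j = X' j) : Mot B J s t X = Mot B J s t X' := by
  ext M
  rw [mem_Mot, mem_Mot]
  refine and_congr Iff.rfl (forall₂_congr fun j hj => ?_)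
  rw [h j hj]

theorem Mot_mono {B : Finset β} {J J' : Finset ι} (s t : ι → β) (X : ι → Pt K) (h : J' ⊆ J) :
    Mot B J s t X ≤ Mot B J' s t X := by
  intro M hM
  exact ⟨hM.1, fun j hj => hM.2 j (h hj)⟩

theorem NR.mono {B : Finset β} {J J' : Finset ι} {s t : ι → β} {X : ι → Pt K} (h : J' ⊆ J)
    (hN : NR B J s t X) : NR B J' s t X := by
  intro a ha b hb hab
  obtain ⟨M, hM, hne⟩ := hN a ha b hb hab
  exact ⟨M, Mot_mono s t X h hM, hne⟩

/-- relative twist -/
def dm (K : Type*) [Field K] {β : Type*} (a b : β) : (β → Tw K) →ₗ[K] Tw K :=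
  LinearMap.proj (R := K) (φ := fun _ : β => Tw K) a - LinearMap.proj (R := K) (φ := fun _ : β => Tw K) b

@[simp] theorem dm_apply (a b : β) (M : β → Tw K) : dm K a b M = M a - M b := rfl

variable [DecidableEq β]

/-- constant motions -/
def cst (B : Finset β) (C : Tw K) : β → Tw K := fun b => if b ∈ B then C else 0

theorem cst_mem {B : Finset β} {J : Finset ι} {s t : ι → β}
    (hst : ∀ j ∈ J, s j ∈ B ∧ t j ∈ B) (X : ι → Pt K) (C : Tw K) :
    cst B C ∈ Mot B J s t X := by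
  refine ⟨fun b hb => if_neg hb, fun j hj => ?_⟩
  simp only [cst, (hst j hj).1, (hst j hj).2, if_true]

theorem map_proj_top {B : Finset β} {J : Finset ι} {s t : ι → β}
    (hst : ∀ j ∈ J, s j ∈ B ∧ t j ∈ B) (X : ι → Pt K) {a : β} (ha : a ∈ B) :
    (Mot B J s t X).map (LinearMap.proj (R := K) (φ := fun _ : β => Tw K) a) = ⊤ := by
  rw [eq_top_iff]
  intro C _
  exact ⟨cst B C, cst_mem hst X C, by simp [cst, ha]⟩

variable [Fintype β]

theorem six_le {B : Finset β} {J : Finset ι} {s t : ι → β}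
    (hst : ∀ j ∈ J, s j ∈ B ∧ t j ∈ B) (X : ι → Pt K) (hB : B.Nonempty) :
    6 ≤ finrank K (Mot B J s t X) := by
  obtain ⟨a, ha⟩ := hB
  have h := finrank_map_add_ker (LinearMap.proj (R := K) (φ := fun _ : β => Tw K) a) (Mot B J s t X)
  rw [map_proj_top hst X ha, finrank_top] at h
  have : finrank K (Tw K) = 6 := by simp
  omega

theorem seven_le' {B : Finset β} {J : Finset ι} {s t : ι → β}
    (hst : ∀ j ∈ J, s j ∈ B ∧ t j ∈ B) {X : ι → Pt K} (hNR : NR B J s t X) (hB : 2 ≤ B.card) :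
    7 ≤ finrank K (Mot B J s t X) := by
  obtain ⟨a, ha, b, hb, hab⟩ := Finset.one_lt_card.1 hB
  have h := finrank_map_add_ker (LinearMap.proj (R := K) (φ := fun _ : β => Tw K) a) (Mot B J s t X)
  rw [map_proj_top hst X ha, finrank_top] at h
  have h6 : finrank K (Tw K) = 6 := by simp
  obtain ⟨M, hM, hne⟩ := hNR a ha b hb hab
  have h1 : 1 ≤ finrank K (Mot B J s t X ⊓
      LinearMap.ker (LinearMap.proj (R := K) (φ := fun _ : β => Tw K) a) :
        Submodule K (β → Tw K)) := by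
    rw [Nat.one_le_iff_ne_zero]
    intro h0
    rw [Submodule.finrank_eq_zero] at h0
    have hmem : M - cst B (M a) ∈ (Mot B J s t X ⊓
      LinearMap.ker (LinearMap.proj (R := K) (φ := fun _ : β => Tw K) a) :
        Submodule K (β → Tw K)) := by
      refine ⟨Submodule.sub_mem _ hM (cst_mem hst X _), ?_⟩
      rw [SetLike.mem_coe, LinearMap.mem_ker]
      simp [cst, ha]
    rw [h0, Submodule.mem_bot] at hmem
    have := congrFun hmem b
    simp only [Pi.sub_apply, cst, hb, if_true, Pi.zero_apply] at this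
    exact hne (sub_eq_zero.1 this).symm
  omega

end basic

set_option linter.unusedSectionVars false

section gen

variable {β ι : Type*} [Fintype β] [DecidableEq β] [Fintype ι] [DecidableEq ι]

/-- the joint `e` joins `x` and `c` -/
def Joins (s t : ι → β) (e : ι) (x c : β) : Prop := (s e = x ∧ t e = c) ∨ (s e = c ∧ t e = x)

theorem Joins.symm {s t : ι → β} {e : ι} {x c : β} (h : Joins s t e x c) : Joins s t e c x :=
  Or.symm h

theorem Joins.ev_eq {K : Type*} [Field K] {s t : ι → β} {e : ι} {x c : β} (h : Joins s t e x c)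
    {B : Finset β} {J : Finset ι} {X : ι → Pt K} {M : β → Tw K} (hM : M ∈ Mot B J s t X)
    (he : e ∈ J) : ev (M x) (X e) = ev (M c) (X e) := by
  rcases h with ⟨rfl, rfl⟩ | ⟨rfl, rfl⟩
  · exact hM.2 e he
  · exact (hM.2 e he).symm

/-- splitting off one joint -/
theorem mem_Mot_erase {K : Type*} [Field K] {s t : ι → β} {e : ι} {x c : β}
    (h : Joins s t e x c) {B : Finset β} {J : Finset ι} (he : e ∈ J) {X : ι → Pt K}
    {M : β → Tw K} :
    M ∈ Mot B J s t X ↔ M ∈ Mot B (J.erase e) s t X ∧ ev (M x) (X e) = ev (M c) (X e) := by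
  constructor
  · intro hM
    exact ⟨Mot_mono s t X (Finset.erase_subset _ _) hM, h.ev_eq hM he⟩
  · rintro ⟨hM, h1⟩
    refine ⟨hM.1, fun j hj => ?_⟩
    by_cases hje : j = e
    · subst hje
      rcases h with ⟨rfl, rfl⟩ | ⟨rfl, rfl⟩
      · exact h1
      · exact h1.symm
    · exact hM.2 j (Finset.mem_erase.2 ⟨hje, hj⟩)

/-- a joint added to a structure that stays non-rigid joins two bodies whose relative motions form
a space of dimension at least three -/
theorem three_le_rel {B : Finset β} {J : Finset ι} {s t : ι → β}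
    (hst : ∀ j ∈ J, s j ∈ B ∧ t j ∈ B ∧ s j ≠ t j) (hNR : NR B J s t (gp ι)) {e : ι} (he : e ∈ J)
    {x c : β} (h : Joins s t e x c) :
    3 ≤ finrank (GF ι) ((Mot B (J.erase e) s t (gp ι)).map (dm (GF ι) x c)) := by
  by_contra hcon
  push Not at hcon
  obtain ⟨p, hp⟩ := exists_inj_pt _ (Nat.lt_succ_iff.1 hcon)
  have h1 := finrank_Mot_le B J s t (Function.update (gp ι) e p)
  have h2 : Mot B J s t (Function.update (gp ι) e p) ≤ Mot B J s t (gp ι) := by
    intro M hM
    rw [mem_Mot_erase h he] at hM ⊢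
    rw [Mot_congr B (J.erase e) s t (X' := gp ι)
      (fun j hj => Function.update_of_ne (Finset.ne_of_mem_erase hj) _ _)] at hM
    refine ⟨hM.1, ?_⟩
    have h3 : ev (M x - M c) p = 0 := by
      have := hM.2
      rw [Function.update_self] at this
      rw [ev_sub_left, this, sub_self]
    have h4 := hp (M x - M c) ⟨M, hM.1, rfl⟩ h3
    rw [sub_eq_zero.1 h4]
  have h3 := Submodule.eq_of_le_of_finrank_le h2 h1
  -- every motion has `M x = M c`
  have hxc : x ≠ c := by
    rcases h with ⟨rfl, rfl⟩ | ⟨rfl, rfl⟩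
    · exact (hst e he).2.2
    · exact (hst e he).2.2.symm
  have hx : x ∈ B := by
    rcases h with ⟨rfl, rfl⟩ | ⟨rfl, rfl⟩
    · exact (hst e he).1
    · exact (hst e he).2.1
  have hc : c ∈ B := by
    rcases h with ⟨rfl, rfl⟩ | ⟨rfl, rfl⟩
    · exact (hst e he).2.1
    · exact (hst e he).1
  obtain ⟨M, hM, hne⟩ := hNR x hx c hc hxc
  have hM' := hM
  rw [← h3, mem_Mot_erase h he, Mot_congr B (J.erase e) s t (X' := gp ι)
      (fun j hj => Function.update_of_ne (Finset.ne_of_mem_erase hj) _ _)] at hM'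
  have h5 : ev (M x - M c) p = 0 := by
    have := hM'.2
    rw [Function.update_self] at this
    rw [ev_sub_left, this, sub_self]
  exact hne (sub_eq_zero.1 (hp (M x - M c) ⟨M, hM'.1, rfl⟩ h5))

/-- joints at the body `x` -/
def jx (J : Finset ι) (s t : ι → β) (x : β) : Finset ι := J.filter (fun j => s j = x ∨ t j = x)

/-- joints not at the body `x` -/
def jr (J : Finset ι) (s t : ι → β) (x : β) : Finset ι := J.filter (fun j => ¬ (s j = x ∨ t j = x))

theorem card_jx_jr (J : Finset ι) (s t : ι → β) (x : β) :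
    (jx J s t x).card + (jr J s t x).card = J.card :=
  Finset.card_filter_add_card_filter_not _

/-- forget the twist of the body `x` -/
def rx (K : Type*) [Field K] (x : β) : (β → Tw K) →ₗ[K] (β → Tw K) :=
  LinearMap.pi (fun b => if b = x then 0 else LinearMap.proj (R := K) (φ := fun _ : β => Tw K) b)

theorem rx_ne {K : Type*} [Field K] {x b : β} (h : b ≠ x) (M : β → Tw K) : rx K x M b = M b := by
  simp [rx, h]

theorem rx_self {K : Type*} [Field K] (x : β) (M : β → Tw K) : rx K x M x = 0 := by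
  simp [rx]

theorem rx_mem {K : Type*} [Field K] {B : Finset β} {J : Finset ι} {s t : ι → β} {X : ι → Pt K}
    {x : β} {M : β → Tw K} (hM : M ∈ Mot B J s t X) :
    rx K x M ∈ Mot (B.erase x) (jr J s t x) s t X := by
  refine ⟨fun b hb => ?_, fun j hj => ?_⟩
  · by_cases hbx : b = x
    · rw [hbx, rx_self]
    · rw [rx_ne hbx]
      exact hM.1 b (fun h => hb (Finset.mem_erase.2 ⟨hbx, h⟩))
  · rw [jr, Finset.mem_filter, not_or] at hj
    rw [rx_ne hj.2.1, rx_ne hj.2.2]
    exact hM.2 j hj.1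

theorem NR.rest {K : Type*} [Field K] {B : Finset β} {J : Finset ι} {s t : ι → β} {X : ι → Pt K}
    (hN : NR B J s t X) (x : β) : NR (B.erase x) (jr J s t x) s t X := by
  intro a ha b hb hab
  obtain ⟨M, hM, hne⟩ := hN a (Finset.mem_of_mem_erase ha) b (Finset.mem_of_mem_erase hb) hab
  refine ⟨rx K x M, rx_mem hM, ?_⟩
  rw [rx_ne (Finset.ne_of_mem_erase ha), rx_ne (Finset.ne_of_mem_erase hb)]
  exact hne

theorem ker_bound {K : Type*} [Field K] {B : Finset β} {J : Finset ι} {s t : ι → β}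
    (hst : ∀ j ∈ J, s j ∈ B ∧ t j ∈ B ∧ s j ≠ t j) {X : ι → Pt K} (x : β)
    (U : Submodule K (Tw K)) (hU : ∀ w : Tw K, (∀ j ∈ jx J s t x, ev w (X j) = 0) → w ∈ U) :
    finrank K (Mot B J s t X) ≤ finrank K ((Mot B J s t X).map (rx K x)) + finrank K U := by
  have h1 := finrank_map_add_ker (rx K x) (Mot B J s t X)
  have h2 := finrank_map_add_ker (LinearMap.proj (R := K) (φ := fun _ : β => Tw K) x)
    (Mot B J s t X ⊓ LinearMap.ker (rx K x))
  have h3 : (Mot B J s t X ⊓ LinearMap.ker (rx K x)) ⊓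
      LinearMap.ker (LinearMap.proj (R := K) (φ := fun _ : β => Tw K) x) = ⊥ := by
    rw [eq_bot_iff]
    rintro M ⟨⟨_, hM1⟩, hM2⟩
    rw [SetLike.mem_coe, LinearMap.mem_ker] at hM1 hM2
    rw [Submodule.mem_bot]
    funext b
    by_cases hb : b = x
    · rw [hb]; exact hM2
    · have := congrFun hM1 b
      rw [rx_ne hb] at this
      exact this
  rw [h3, finrank_bot, add_zero] at h2
  have h4 : (Mot B J s t X ⊓ LinearMap.ker (rx K x)).map
      (LinearMap.proj (R := K) (φ := fun _ : β => Tw K) x) ≤ U := by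
    rintro w ⟨M, ⟨hM, hM1⟩, rfl⟩
    rw [SetLike.mem_coe, LinearMap.mem_ker] at hM1
    apply hU
    intro j hj
    rw [jx, Finset.mem_filter] at hj
    have hb : ∀ b, b ≠ x → M b = 0 := fun b hb => by
      have := congrFun hM1 b
      rwa [rx_ne hb] at this
    have hj' := hM.2 j hj.1
    rcases hj.2 with h | h
    · have hne : t j ≠ x := fun h' => (hst j hj.1).2.2 (h.trans h'.symm)
      rw [h, hb _ hne, ev_zero_left] at hj'
      exact hj'
    · have hne : s j ≠ x := fun h' => (hst j hj.1).2.2 (h'.trans h.symm)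
      rw [h, hb _ hne, ev_zero_left] at hj'
      exact hj'.symm
  have h5 := Submodule.finrank_mono h4
  omega

theorem map_rx_le {K : Type*} [Field K] {B : Finset β} {J : Finset ι} {s t : ι → β}
    {X : ι → Pt K} (x : β) :
    (Mot B J s t X).map (rx K x) ≤ Mot (B.erase x) (jr J s t x) s t X := by
  rintro _ ⟨M, hM, rfl⟩
  exact rx_mem hM

theorem bar_of {K : Type*} [Field K] {w a b : Tw K} {p q : Pt K} (h1 : ev w p = ev a p)
    (h2 : ev w q = ev b q) : bil (a - b) p q = 0 := by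
  have e1 : bil (a - b) p q = bil a p q - bil b p q := by
    simp only [bil, ev_sub_left, dotProduct_sub]
  have e2 : bil a p q = bil w p q := by simp only [bil, h1]
  have e3 : bil b q p = bil w q p := by simp only [bil, h2]
  rw [e1, e2, bil_swap b q p, e3, bil_swap w q p]
  ring

/-- the functional `M ↦ bil (M a - M b) p q` -/
def barL {K : Type*} [Field K] {β : Type*} (a b : β) (p q : Pt K) : (β → Tw K) →ₗ[K] K where
  toFun M := bil (M a - M b) p q
  map_add' M N := by
    simp only [bil_def, Pi.add_apply, Pi.sub_apply]; ring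
  map_smul' c M := by
    simp only [bil_def, Pi.smul_apply, Pi.sub_apply, smul_eq_mul, RingHom.id_apply]; ring

@[simp] theorem barL_apply {K : Type*} [Field K] {β : Type*} (a b : β) (p q : Pt K)
    (M : β → Tw K) : barL a b p q M = bil (M a - M b) p q := rfl

theorem exists_bil_ne {K : Type*} [Field K] {a : Tw K} (ha : a ≠ 0) : ∃ p r : Pt K, bil a p r ≠ 0 := by
  by_contra hcon
  push Not at hcon
  exact ha (tw_ext fun p => eq_zero_of_fdot (fun r => hcon p r))

theorem li_of_bil {K : Type*} [Field K] {a : Tw K} {p q : Pt K} (h : bil a p q ≠ 0) :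
    LinearIndependent K ![p, q] := by
  rw [LinearIndependent.pair_iff]
  intro c d hcd
  have e1 : c * bil a p q = 0 := by
    have := congrArg (fun x => bil a x q) hcd
    simp only [bil_def, Pi.add_apply, Pi.smul_apply, smul_eq_mul, Pi.zero_apply] at this ⊢
    linear_combination this
  have e2 : d * bil a p q = 0 := by
    have := congrArg (fun x => bil a p x) hcd
    simp only [bil_def, Pi.add_apply, Pi.smul_apply, smul_eq_mul, Pi.zero_apply] at this ⊢
    linear_combination this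
  exact ⟨(mul_eq_zero.1 e1).resolve_right h, (mul_eq_zero.1 e2).resolve_right h⟩

theorem exists_joins {J : Finset ι} {s t : ι → β} {x : β} {e : ι} (he : e ∈ jx J s t x) :
    ∃ c, Joins s t e x c := by
  rw [jx, Finset.mem_filter] at he
  rcases he.2 with h | h
  · exact ⟨t e, Or.inl ⟨h, rfl⟩⟩
  · exact ⟨s e, Or.inr ⟨rfl, h⟩⟩

theorem Joins.mem {B : Finset β} {J : Finset ι} {s t : ι → β} {x c : β} {e : ι}
    (h : Joins s t e x c) (he : e ∈ J) (hst : ∀ j ∈ J, s j ∈ B ∧ t j ∈ B ∧ s j ≠ t j) :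
    c ∈ B ∧ c ≠ x := by
  rcases h with ⟨h1, h2⟩ | ⟨h1, h2⟩
  · exact ⟨h2 ▸ (hst e he).2.1, fun h => (hst e he).2.2 (by rw [h1, h2, h])⟩
  · exact ⟨h1 ▸ (hst e he).1, fun h => (hst e he).2.2 (by rw [h1, h2, h])⟩

theorem ext0 {B : Finset β} {J : Finset ι} {s t : ι → β}
    (hst : ∀ j ∈ J, s j ∈ B ∧ t j ∈ B ∧ s j ≠ t j) (x : β) :
    finrank (GF ι) (Mot B J s t (gp ι))
      ≤ finrank (GF ι) (Mot (B.erase x) (jr J s t x) s t (gp ι)) + 6 := by
  have h1 := ker_bound (K := GF ι) hst (X := gp ι) x ⊤ (fun _ _ => Submodule.mem_top)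
  rw [finrank_top] at h1
  have h6 : finrank (GF ι) (Tw (GF ι)) = 6 := by simp
  have h2 := Submodule.finrank_mono (map_rx_le (K := GF ι) (B := B) (J := J) (s := s) (t := t)
    (X := gp ι) x)
  omega

theorem ext1 {B : Finset β} {J : Finset ι} {s t : ι → β}
    (hst : ∀ j ∈ J, s j ∈ B ∧ t j ∈ B ∧ s j ≠ t j) (x : β) {e : ι} (hjx : jx J s t x = {e}) :
    finrank (GF ι) (Mot B J s t (gp ι)) + 3
      ≤ finrank (GF ι) (Mot (B.erase x) (jr J s t x) s t (gp ι)) + 6 := by
  have h1 := ker_bound (K := GF ι) hst (X := gp ι) x (van1 (gp ι e)) (fun w hw => by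
    have := hw e (by rw [hjx]; exact Finset.mem_singleton_self e)
    exact this)
  have he0 : gp ι e ≠ 0 := by
    have := gp_linearIndependent (n := 1) (by norm_num) (fun _ : Fin 1 => e)
      (fun a b _ => Subsingleton.elim a b)
    exact this.ne_zero 0
  rw [finrank_van1 he0] at h1
  have h2 := Submodule.finrank_mono (map_rx_le (K := GF ι) (B := B) (J := J) (s := s) (t := t)
    (X := gp ι) x)
  omega

theorem ext2 {B : Finset β} {J : Finset ι} {s t : ι → β}
    (hst : ∀ j ∈ J, s j ∈ B ∧ t j ∈ B ∧ s j ≠ t j) (hNR : NR B J s t (gp ι))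
    (hsimple : ∀ i ∈ J, ∀ j ∈ J, i ≠ j → ¬ Par s t i j) (x : β)
    {e f : ι} (hef : e ≠ f) (hjx : jx J s t x = {e, f}) :
    finrank (GF ι) (Mot B J s t (gp ι)) + 6
      ≤ finrank (GF ι) (Mot (B.erase x) (jr J s t x) s t (gp ι)) + 6 := by
  have hex : e ∈ jx J s t x := by rw [hjx]; simp
  have hfx : f ∈ jx J s t x := by rw [hjx]; simp
  have he : e ∈ J := (Finset.mem_filter.1 hex).1
  have hf : f ∈ J := (Finset.mem_filter.1 hfx).1
  obtain ⟨a, ha⟩ := exists_joins hex
  obtain ⟨b, hb⟩ := exists_joins hfx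
  have haB := ha.mem he hst
  have hbB := hb.mem hf hst
  have hab : a ≠ b := by
    rintro rfl
    apply hsimple e he f hf hef
    rcases ha with ⟨h1, h2⟩ | ⟨h1, h2⟩ <;> rcases hb with ⟨h3, h4⟩ | ⟨h3, h4⟩
    · exact Or.inl ⟨h1.trans h3.symm, h2.trans h4.symm⟩
    · exact Or.inr ⟨h1.trans h4.symm, h2.trans h3.symm⟩
    · exact Or.inr ⟨h1.trans h4.symm, h2.trans h3.symm⟩
    · exact Or.inl ⟨h1.trans h3.symm, h2.trans h4.symm⟩
  obtain ⟨M₀, hM₀, hne⟩ := (hNR.rest x) a (Finset.mem_erase.2 ⟨haB.2, haB.1⟩) b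
    (Finset.mem_erase.2 ⟨hbB.2, hbB.1⟩) hab
  obtain ⟨p, q, hpq⟩ := exists_bil_ne (sub_ne_zero.2 hne)
  set X : ι → Pt (GF ι) := Function.update (Function.update (gp ι) e p) f q with hX
  have hXe : X e = p := by rw [hX, Function.update_of_ne hef, Function.update_self]
  have hXf : X f = q := by rw [hX, Function.update_self]
  have h0 := finrank_Mot_le B J s t X
  have h1 := ker_bound (K := GF ι) hst (X := X) x (van1 p ⊓ van1 q) (fun w hw => by
    have h2 := hw e (by rw [hjx]; simp)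
    have h3 := hw f (by rw [hjx]; simp)
    rw [hXe] at h2
    rw [hXf] at h3
    exact ⟨h2, h3⟩)
  rw [finrank_van2 (li_of_bil hpq)] at h1
  have hcongr : Mot (B.erase x) (jr J s t x) s t X = Mot (B.erase x) (jr J s t x) s t (gp ι) := by
    apply Mot_congr
    intro j hj
    have hjf : j ≠ f := by
      rintro rfl
      exact (Finset.mem_filter.1 hj).2 (Finset.mem_filter.1 hfx).2
    have hje : j ≠ e := by
      rintro rfl
      exact (Finset.mem_filter.1 hj).2 (Finset.mem_filter.1 hex).2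
    rw [hX, Function.update_of_ne hjf, Function.update_of_ne hje]
  have h2 : (Mot B J s t X).map (rx (GF ι) x) ≤
      Mot (B.erase x) (jr J s t x) s t (gp ι) ⊓ LinearMap.ker (barL a b p q) := by
    rintro _ ⟨M, hM, rfl⟩
    refine ⟨?_, ?_⟩
    · rw [← hcongr]; exact rx_mem hM
    · rw [SetLike.mem_coe, LinearMap.mem_ker, barL_apply, rx_ne haB.2, rx_ne hbB.2]
      have e1 := ha.ev_eq hM he
      have e2 := hb.ev_eq hM hf
      rw [hXe] at e1
      rw [hXf] at e2
      exact bar_of e1 e2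
  have h3 := Submodule.finrank_mono h2
  have h4 := finrank_inf_ker_lt (barL a b p q) (Mot (B.erase x) (jr J s t x) s t (gp ι))
    ⟨M₀, hM₀, hpq⟩
  omega

theorem li_cols_of_d3 {K : Type*} [Field K] {u₁ u₂ u₃ : Fin 3 → K}
    (h : d3 (u₁ 0) (u₂ 0) (u₃ 0) (u₁ 1) (u₂ 1) (u₃ 1) (u₁ 2) (u₂ 2) (u₃ 2) ≠ 0) :
    LinearIndependent K ![u₁, u₂, u₃] := by
  rw [Fintype.linearIndependent_iff]
  intro c hc
  simp only [Fin.sum_univ_three, Matrix.cons_val_zero, Matrix.cons_val_one, Matrix.cons_val] at hc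
  have e : ∀ r : Fin 3, c 0 * u₁ r + c 1 * u₂ r + c 2 * u₃ r = 0 := by
    intro r
    have := congrFun hc r
    simpa using this
  have e1 := e 0
  have e2 := e 1
  have e3 := e 2
  have h0 : c 0 * d3 (u₁ 0) (u₂ 0) (u₃ 0) (u₁ 1) (u₂ 1) (u₃ 1) (u₁ 2) (u₂ 2) (u₃ 2) = 0 := by
    simp only [d3]
    linear_combination (u₂ 1 * u₃ 2 - u₃ 1 * u₂ 2) * e1
      - (u₂ 0 * u₃ 2 - u₃ 0 * u₂ 2) * e2 + (u₂ 0 * u₃ 1 - u₃ 0 * u₂ 1) * e3
  have h1 : c 1 * d3 (u₁ 0) (u₂ 0) (u₃ 0) (u₁ 1) (u₂ 1) (u₃ 1) (u₁ 2) (u₂ 2) (u₃ 2) = 0 := by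
    simp only [d3]
    linear_combination -(u₁ 1 * u₃ 2 - u₃ 1 * u₁ 2) * e1
      + (u₁ 0 * u₃ 2 - u₃ 0 * u₁ 2) * e2 - (u₁ 0 * u₃ 1 - u₃ 0 * u₁ 1) * e3
  have h2 : c 2 * d3 (u₁ 0) (u₂ 0) (u₃ 0) (u₁ 1) (u₂ 1) (u₃ 1) (u₁ 2) (u₂ 2) (u₃ 2) = 0 := by
    simp only [d3]
    linear_combination (u₁ 1 * u₂ 2 - u₂ 1 * u₁ 2) * e1
      - (u₁ 0 * u₂ 2 - u₂ 0 * u₁ 2) * e2 + (u₁ 0 * u₂ 1 - u₂ 0 * u₁ 1) * e3
  intro i
  fin_cases i
  · exact (mul_eq_zero.1 h0).resolve_right h
  · exact (mul_eq_zero.1 h1).resolve_right h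
  · exact (mul_eq_zero.1 h2).resolve_right h

/-- if the three bar forms of a triangle are independent then so are the three points -/
theorem li_pts_of_d3 {K : Type*} [Field K] {p₁ p₂ p₃ : Pt K} {a₁ a₂ a₃ c₁ c₂ c₃ : Tw K}
    (h : d3 (bil a₁ p₁ p₂) (bil a₂ p₁ p₂) (bil a₃ p₁ p₂)
      (bil c₁ p₁ p₃) (bil c₂ p₁ p₃) (bil c₃ p₁ p₃)
      (bil (c₁ - a₁) p₂ p₃) (bil (c₂ - a₂) p₂ p₃) (bil (c₃ - a₃) p₂ p₃) ≠ 0) :
    LinearIndependent K ![p₁, p₂, p₃] := by
  rw [Fintype.linearIndependent_iff]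
  intro l hl
  simp only [Fin.sum_univ_three, Matrix.cons_val_zero, Matrix.cons_val_one, Matrix.cons_val] at hl
  set α := l 0 with hα
  set β' := l 1 with hβ
  set γ := l 2 with hγ
  -- the relation between the three forms
  have rel : ∀ a c : Tw K, α * β' * bil a p₁ p₂ + α * γ * bil c p₁ p₃
      + β' * γ * bil (c - a) p₂ p₃ = 0 := by
    intro a c
    have z : ∀ i : Fin 4, α * p₁ i + β' * p₂ i + γ * p₃ i = 0 := by
      intro i
      have := congrFun hl i
      simpa using this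
    have f1 : ∀ w : Tw K, β' * bil w p₁ p₂ + γ * bil w p₁ p₃ = 0 := by
      intro w
      have : bil w p₁ (α • p₁ + β' • p₂ + γ • p₃) = 0 := by rw [hl]; simp [bil_def]
      simp only [bil_def, Pi.add_apply, Pi.smul_apply, smul_eq_mul] at this ⊢
      linear_combination this
    have f2 : ∀ w : Tw K, - α * bil w p₁ p₂ + γ * bil w p₂ p₃ = 0 := by
      intro w
      have : bil w p₂ (α • p₁ + β' • p₂ + γ • p₃) = 0 := by rw [hl]; simp [bil_def]
      simp only [bil_def, Pi.add_apply, Pi.smul_apply, smul_eq_mul] at this ⊢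
      linear_combination this
    have e1 := f1 c
    have e2 := f2 (c - a)
    have e3 : bil (c - a) p₁ p₂ = bil c p₁ p₂ - bil a p₁ p₂ := by
      simp only [bil_def, Pi.sub_apply]; ring
    rw [e3] at e2
    linear_combination α * e1 + β' * e2
  have r1 := rel a₁ c₁
  have r2 := rel a₂ c₂
  have r3 := rel a₃ c₃
  have g1 : α * β' = 0 := by
    by_contra hne
    apply h
    have : α * β' * d3 (bil a₁ p₁ p₂) (bil a₂ p₁ p₂) (bil a₃ p₁ p₂)
      (bil c₁ p₁ p₃) (bil c₂ p₁ p₃) (bil c₃ p₁ p₃)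
      (bil (c₁ - a₁) p₂ p₃) (bil (c₂ - a₂) p₂ p₃) (bil (c₃ - a₃) p₂ p₃) = 0 := by
      simp only [d3]
      linear_combination (bil c₂ p₁ p₃ * bil (c₃ - a₃) p₂ p₃ - bil c₃ p₁ p₃ * bil (c₂ - a₂) p₂ p₃) * r1
        - (bil c₁ p₁ p₃ * bil (c₃ - a₃) p₂ p₃ - bil c₃ p₁ p₃ * bil (c₁ - a₁) p₂ p₃) * r2
        + (bil c₁ p₁ p₃ * bil (c₂ - a₂) p₂ p₃ - bil c₂ p₁ p₃ * bil (c₁ - a₁) p₂ p₃) * r3
    exact (mul_eq_zero.1 this).resolve_left hne
  have g2 : α * γ = 0 := by
    by_contra hne
    apply h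
    have : α * γ * d3 (bil a₁ p₁ p₂) (bil a₂ p₁ p₂) (bil a₃ p₁ p₂)
      (bil c₁ p₁ p₃) (bil c₂ p₁ p₃) (bil c₃ p₁ p₃)
      (bil (c₁ - a₁) p₂ p₃) (bil (c₂ - a₂) p₂ p₃) (bil (c₃ - a₃) p₂ p₃) = 0 := by
      simp only [d3]
      linear_combination -(bil a₂ p₁ p₂ * bil (c₃ - a₃) p₂ p₃ - bil a₃ p₁ p₂ * bil (c₂ - a₂) p₂ p₃) * r1
        + (bil a₁ p₁ p₂ * bil (c₃ - a₃) p₂ p₃ - bil a₃ p₁ p₂ * bil (c₁ - a₁) p₂ p₃) * r2
        - (bil a₁ p₁ p₂ * bil (c₂ - a₂) p₂ p₃ - bil a₂ p₁ p₂ * bil (c₁ - a₁) p₂ p₃) * r3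
    exact (mul_eq_zero.1 this).resolve_left hne
  have g3 : β' * γ = 0 := by
    by_contra hne
    apply h
    have : β' * γ * d3 (bil a₁ p₁ p₂) (bil a₂ p₁ p₂) (bil a₃ p₁ p₂)
      (bil c₁ p₁ p₃) (bil c₂ p₁ p₃) (bil c₃ p₁ p₃)
      (bil (c₁ - a₁) p₂ p₃) (bil (c₂ - a₂) p₂ p₃) (bil (c₃ - a₃) p₂ p₃) = 0 := by
      simp only [d3]
      linear_combination (bil a₂ p₁ p₂ * bil c₃ p₁ p₃ - bil a₃ p₁ p₂ * bil c₂ p₁ p₃) * r1
        - (bil a₁ p₁ p₂ * bil c₃ p₁ p₃ - bil a₃ p₁ p₂ * bil c₁ p₁ p₃) * r2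
        + (bil a₁ p₁ p₂ * bil c₂ p₁ p₃ - bil a₂ p₁ p₂ * bil c₁ p₁ p₃) * r3
    exact (mul_eq_zero.1 this).resolve_left hne
  have hα0 : α = 0 := by
    by_contra hne
    have hb : β' = 0 := (mul_eq_zero.1 g1).resolve_left hne
    have hc : γ = 0 := (mul_eq_zero.1 g2).resolve_left hne
    rw [hb, hc, zero_smul, zero_smul, add_zero, add_zero] at hl
    have hp : p₁ = 0 := (smul_eq_zero.1 hl).resolve_left hne
    apply h
    simp [hp, d3, bil_def]
  have hβ0 : β' = 0 := by
    by_contra hne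
    have hc : γ = 0 := (mul_eq_zero.1 g3).resolve_left hne
    rw [hα0, hc, zero_smul, zero_smul, zero_add, add_zero] at hl
    have hp : p₂ = 0 := (smul_eq_zero.1 hl).resolve_left hne
    apply h
    simp [hp, d3, bil_def]
  have hγ0 : γ = 0 := by
    by_contra hne
    rw [hα0, hβ0, zero_smul, zero_smul, zero_add, zero_add] at hl
    have hp : p₃ = 0 := (smul_eq_zero.1 hl).resolve_left hne
    apply h
    simp [hp, d3, bil_def]
  intro i
  fin_cases i
  · exact hα0
  · exact hβ0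
  · exact hγ0

/-- the case of a body with three joints in which some position of the joints makes the three
bars independent -/
theorem ext3_free {B : Finset β} {J : Finset ι} {s t : ι → β}
    (hst : ∀ j ∈ J, s j ∈ B ∧ t j ∈ B ∧ s j ≠ t j) (x : β)
    {e f g : ι} (hef : e ≠ f) (heg : e ≠ g) (hfg : f ≠ g) (hjx : jx J s t x = {e, f, g})
    {a b c : β} (ha : Joins s t e x a) (hb : Joins s t f x b) (hc : Joins s t g x c)
    {p₁ p₂ p₃ : Pt (GF ι)} {M₁ M₂ M₃ : β → Tw (GF ι)}
    (hM₁ : M₁ ∈ Mot (B.erase x) (jr J s t x) s t (gp ι))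
    (hM₂ : M₂ ∈ Mot (B.erase x) (jr J s t x) s t (gp ι))
    (hM₃ : M₃ ∈ Mot (B.erase x) (jr J s t x) s t (gp ι))
    (hd : d3 (bil (M₁ a - M₁ b) p₁ p₂) (bil (M₂ a - M₂ b) p₁ p₂) (bil (M₃ a - M₃ b) p₁ p₂)
      (bil (M₁ a - M₁ c) p₁ p₃) (bil (M₂ a - M₂ c) p₁ p₃) (bil (M₃ a - M₃ c) p₁ p₃)
      (bil ((M₁ a - M₁ c) - (M₁ a - M₁ b)) p₂ p₃) (bil ((M₂ a - M₂ c) - (M₂ a - M₂ b)) p₂ p₃)
      (bil ((M₃ a - M₃ c) - (M₃ a - M₃ b)) p₂ p₃) ≠ 0) :
    finrank (GF ι) (Mot B J s t (gp ι)) + 9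
      ≤ finrank (GF ι) (Mot (B.erase x) (jr J s t x) s t (gp ι)) + 6 := by
  have hex : e ∈ jx J s t x := by rw [hjx]; simp
  have hfx : f ∈ jx J s t x := by rw [hjx]; simp
  have hgx : g ∈ jx J s t x := by rw [hjx]; simp
  have he : e ∈ J := (Finset.mem_filter.1 hex).1
  have hf : f ∈ J := (Finset.mem_filter.1 hfx).1
  have hg : g ∈ J := (Finset.mem_filter.1 hgx).1
  have haB := ha.mem he hst
  have hbB := hb.mem hf hst
  have hcB := hc.mem hg hst
  set X : ι → Pt (GF ι) :=
    Function.update (Function.update (Function.update (gp ι) e p₁) f p₂) g p₃ with hX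
  have hXe : X e = p₁ := by
    rw [hX, Function.update_of_ne heg, Function.update_of_ne hef, Function.update_self]
  have hXf : X f = p₂ := by rw [hX, Function.update_of_ne hfg, Function.update_self]
  have hXg : X g = p₃ := by rw [hX, Function.update_self]
  have h0 := finrank_Mot_le B J s t X
  have hli := li_pts_of_d3 hd
  have h1 := ker_bound (K := GF ι) hst (X := X) x ⊥ (fun w hw => by
    have h2 := hw e hex
    have h3 := hw f hfx
    have h4 := hw g hgx
    rw [hXe] at h2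
    rw [hXf] at h3
    rw [hXg] at h4
    exact tw_three hli h2 h3 h4)
  rw [finrank_bot, add_zero] at h1
  have hcongr : Mot (B.erase x) (jr J s t x) s t X = Mot (B.erase x) (jr J s t x) s t (gp ι) := by
    apply Mot_congr
    intro j hj
    have hjg : j ≠ g := by
      rintro rfl
      exact (Finset.mem_filter.1 hj).2 (Finset.mem_filter.1 hgx).2
    have hjf : j ≠ f := by
      rintro rfl
      exact (Finset.mem_filter.1 hj).2 (Finset.mem_filter.1 hfx).2
    have hje : j ≠ e := by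
      rintro rfl
      exact (Finset.mem_filter.1 hj).2 (Finset.mem_filter.1 hex).2
    rw [hX, Function.update_of_ne hjg, Function.update_of_ne hjf, Function.update_of_ne hje]
  let Φ : (β → Tw (GF ι)) →ₗ[GF ι] (Fin 3 → GF ι) :=
    LinearMap.pi ![barL a b p₁ p₂, barL a c p₁ p₃, barL b c p₂ p₃]
  have hΦ : ∀ M, Φ M = ![bil (M a - M b) p₁ p₂, bil (M a - M c) p₁ p₃, bil (M b - M c) p₂ p₃] := by
    intro M
    funext i
    fin_cases i <;> rfl
  have h2 : (Mot B J s t X).map (rx (GF ι) x) ≤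
      Mot (B.erase x) (jr J s t x) s t (gp ι) ⊓ LinearMap.ker Φ := by
    rintro _ ⟨M, hM, rfl⟩
    refine ⟨?_, ?_⟩
    · rw [← hcongr]; exact rx_mem hM
    · rw [SetLike.mem_coe, LinearMap.mem_ker, hΦ, rx_ne haB.2, rx_ne hbB.2, rx_ne hcB.2]
      have e1 := ha.ev_eq hM he
      have e2 := hb.ev_eq hM hf
      have e3 := hc.ev_eq hM hg
      rw [hXe] at e1
      rw [hXf] at e2
      rw [hXg] at e3
      rw [bar_of e1 e2, bar_of e1 e3, bar_of e2 e3]
      funext i
      fin_cases i <;> rfl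
  have h3 := Submodule.finrank_mono h2
  have h4 := finrank_map_add_ker Φ (Mot (B.erase x) (jr J s t x) s t (gp ι))
  have h5 : 3 ≤ finrank (GF ι) ((Mot (B.erase x) (jr J s t x) s t (gp ι)).map Φ) := by
    have hli3 : LinearIndependent (GF ι) ![Φ M₁, Φ M₂, Φ M₃] := by
      apply li_cols_of_d3
      rw [hΦ, hΦ, hΦ]
      have r : ∀ M : β → Tw (GF ι), M b - M c = (M a - M c) - (M a - M b) := by
        intro M; abel
      rw [r M₁, r M₂, r M₃]
      exact hd
    have hmem : ∀ i, ![Φ M₁, Φ M₂, Φ M₃] i ∈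
        (Mot (B.erase x) (jr J s t x) s t (gp ι)).map Φ := by
      intro i
      fin_cases i
      · exact ⟨M₁, hM₁, rfl⟩
      · exact ⟨M₂, hM₂, rfl⟩
      · exact ⟨M₃, hM₃, rfl⟩
    have hli' : LinearIndependent (GF ι) (fun i => (⟨![Φ M₁, Φ M₂, Φ M₃] i, hmem i⟩ :
        (Mot (B.erase x) (jr J s t x) s t (gp ι)).map Φ)) := by
      apply LinearIndependent.of_comp ((Mot (B.erase x) (jr J s t x) s t (gp ι)).map Φ).subtype
      exact hli3
    have := hli'.fintype_card_le_finrank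
    simpa using this
  omega

/-- consequence of a small relative motion space: contradiction -/
theorem ext3_small {B : Finset β} {J : Finset ι} {s t : ι → β}
    (hst : ∀ j ∈ J, s j ∈ B ∧ t j ∈ B ∧ s j ≠ t j) (hNR : NR B J s t (gp ι)) (x : β)
    {e f g : ι} (hef : e ≠ f) (heg : e ≠ g) (hfg : f ≠ g) (hjx : jx J s t x = {e, f, g})
    {a b c : β} (ha : Joins s t e x a) (hb : Joins s t f x b) (hc : Joins s t g x c)
    (hab : a ≠ b)
    (hsmall : finrank (GF ι) (Mot (B.erase x) (jr J s t x) s t (gp ι)) ≤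
      finrank (GF ι) (Mot (B.erase x) (jr J s t x) s t (gp ι) ⊓
        (LinearMap.ker (dm (GF ι) a b) ⊓ LinearMap.ker (dm (GF ι) a c)) :
          Submodule (GF ι) (β → Tw (GF ι))) + 2) : False := by
  have hex : e ∈ jx J s t x := by rw [hjx]; simp
  have hfx : f ∈ jx J s t x := by rw [hjx]; simp
  have hgx : g ∈ jx J s t x := by rw [hjx]; simp
  have he : e ∈ J := (Finset.mem_filter.1 hex).1
  have hf : f ∈ J := (Finset.mem_filter.1 hfx).1
  have hg : g ∈ J := (Finset.mem_filter.1 hgx).1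
  have haB := ha.mem he hst
  have hbB := hb.mem hf hst
  have hcB := hc.mem hg hst
  have hthree := three_le_rel hst hNR hg hc
  -- the bar cuts
  obtain ⟨M₀, hM₀, hne⟩ := (hNR.rest x) a (Finset.mem_erase.2 ⟨haB.2, haB.1⟩) b
    (Finset.mem_erase.2 ⟨hbB.2, hbB.1⟩) hab
  obtain ⟨p, q, hpq⟩ := exists_bil_ne (sub_ne_zero.2 hne)
  set X : ι → Pt (GF ι) := Function.update (Function.update (gp ι) e p) f q with hX
  have hXe : X e = p := by rw [hX, Function.update_of_ne hef, Function.update_self]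
  have hXf : X f = q := by rw [hX, Function.update_self]
  have hcongr : Mot (B.erase x) (jr J s t x) s t X = Mot (B.erase x) (jr J s t x) s t (gp ι) := by
    apply Mot_congr
    intro j hj
    have hjf : j ≠ f := by
      rintro rfl
      exact (Finset.mem_filter.1 hj).2 (Finset.mem_filter.1 hfx).2
    have hje : j ≠ e := by
      rintro rfl
      exact (Finset.mem_filter.1 hj).2 (Finset.mem_filter.1 hex).2
    rw [hX, Function.update_of_ne hjf, Function.update_of_ne hje]
  have h1 := finrank_MotBar_le (B.erase x) (jr J s t x) s t X a b e f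
  have h2 : MotBar (B.erase x) (jr J s t x) s t X a b e f ≤
      Mot (B.erase x) (jr J s t x) s t (gp ι) ⊓ LinearMap.ker (barL a b p q) := by
    rintro M ⟨hM, h0⟩
    refine ⟨by rw [← hcongr]; exact hM, ?_⟩
    rw [SetLike.mem_coe, LinearMap.mem_ker, barL_apply]
    rw [hXe, hXf] at h0
    exact h0
  have h3 := Submodule.finrank_mono h2
  have h4 := finrank_inf_ker_lt (barL a b p q) (Mot (B.erase x) (jr J s t x) s t (gp ι))
    ⟨M₀, hM₀, hpq⟩
  set N₀ : Submodule (GF ι) (β → Tw (GF ι)) := Mot (B.erase x) (jr J s t x) s t (gp ι) ⊓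
        (LinearMap.ker (dm (GF ι) a b) ⊓ LinearMap.ker (dm (GF ι) a c)) with hN₀
  set N₁ := MotBar (B.erase x) (jr J s t x) s t (gp ι) a b e f with hN₁
  have h5 : N₀ ≤ N₁ := by
    rintro M ⟨hM, hM1, _⟩
    refine ⟨hM, ?_⟩
    rw [SetLike.mem_coe, LinearMap.mem_ker, dm_apply] at hM1
    rw [hM1]
    simp [bil]
  have h6 : finrank (GF ι) N₁ ≤ finrank (GF ι) N₀ + 1 := by omega
  have h7 : (Mot B (J.erase g) s t (gp ι)).map (rx (GF ι) x) ≤ N₁ := by
    rintro _ ⟨M, hM, rfl⟩
    refine ⟨?_, ?_⟩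
    · have := rx_mem (x := x) hM
      refine Mot_mono s t (gp ι) ?_ this
      intro j hj
      rw [jr, Finset.mem_filter] at hj ⊢
      refine ⟨Finset.mem_erase.2 ⟨?_, hj.1⟩, hj.2⟩
      rintro rfl
      exact hj.2 (Finset.mem_filter.1 hgx).2
    · rw [rx_ne haB.2, rx_ne hbB.2]
      exact bar_of (ha.ev_eq hM (Finset.mem_erase.2 ⟨heg, he⟩))
        (hb.ev_eq hM (Finset.mem_erase.2 ⟨hfg, hf⟩))
  have h8 := finrank_le_comap_add_one (rx (GF ι) x) (Mot B (J.erase g) s t (gp ι)) N₁ N₀ h7 h5 h6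
  have h9 := finrank_map_le_add (dm (GF ι) x c)
    (inf_le_left : Mot B (J.erase g) s t (gp ι) ⊓ N₀.comap (rx (GF ι) x) ≤
      Mot B (J.erase g) s t (gp ι))
  have h10 : (Mot B (J.erase g) s t (gp ι) ⊓ N₀.comap (rx (GF ι) x)).map (dm (GF ι) x c) ≤
      van1 (gp ι e) ⊓ van1 (gp ι f) := by
    rintro _ ⟨M, ⟨hM, hM0⟩, rfl⟩
    rw [SetLike.mem_coe, Submodule.mem_comap] at hM0
    obtain ⟨_, hM1, hM2⟩ := hM0
    rw [SetLike.mem_coe, LinearMap.mem_ker, dm_apply, rx_ne haB.2] at hM1 hM2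
    rw [rx_ne hbB.2] at hM1
    rw [rx_ne hcB.2] at hM2
    have e1 := ha.ev_eq hM (Finset.mem_erase.2 ⟨heg, he⟩)
    have e2 := hb.ev_eq hM (Finset.mem_erase.2 ⟨hfg, hf⟩)
    rw [sub_eq_zero] at hM1 hM2
    refine ⟨?_, ?_⟩
    · change ev (M x - M c) (gp ι e) = 0
      rw [ev_sub_left, e1, hM2, sub_self]
    · change ev (M x - M c) (gp ι f) = 0
      rw [ev_sub_left, e2, ← hM1, hM2, sub_self]
  have h11 := Submodule.finrank_mono h10
  have hlief : LinearIndependent (GF ι) ![gp ι e, gp ι f] := by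
    have := gp_linearIndependent (n := 2) (by norm_num) ![e, f] (by
      intro i j hij
      fin_cases i <;> fin_cases j
      · rfl
      · exact absurd hij hef
      · exact absurd hij.symm hef
      · rfl)
    have heq : ![gp ι e, gp ι f] = fun i => gp ι (![e, f] i) := by
      funext i; fin_cases i <;> rfl
    rw [heq]; exact this
  rw [finrank_van2 hlief] at h11
  omega

/-- integrability applied to a proportionality of the restricted difference maps -/
theorem prop_contra {B : Finset β} {J : Finset ι} {s t : ι → β}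
    (hst : ∀ j ∈ J, s j ∈ B ∧ t j ∈ B ∧ s j ≠ t j) (hNR : NR B J s t (gp ι))
    {a b c : β} (ha : a ∈ B) (hb : b ∈ B) (hc : c ∈ B) (hac : a ≠ c) (hbc : b ≠ c)
    {lam : GF ι} (hlam : ∀ M ∈ Mot B J s t (gp ι), M a - M c = lam • (M a - M b))
    (h2 : 2 ≤ finrank (GF ι) ((Mot B J s t (gp ι)).map (dm (GF ι) a b))) : False := by
  obtain ⟨f, hf⟩ := exists_linearIndependent_of_le_finrank (R := GF ι)
    (M := (Mot B J s t (gp ι)).map (dm (GF ι) a b)) (n := 2) h2
  obtain ⟨M₁, hM₁, h1⟩ := (f 0).2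
  obtain ⟨M₂, hM₂, h2⟩ := (f 1).2
  have hf' := hf.map' ((Mot B J s t (gp ι)).map (dm (GF ι) a b)).subtype (Submodule.ker_subtype _)
  have hli : LinearIndependent (GF ι) ![M₁ b - M₁ a, M₂ b - M₂ a] := by
    have heq : ![M₁ a - M₁ b, M₂ a - M₂ b]
        = ((Mot B J s t (gp ι)).map (dm (GF ι) a b)).subtype ∘ f := by
      funext i
      fin_cases i
      · exact h1
      · exact h2
    rw [← heq, LinearIndependent.pair_iff] at hf'
    rw [LinearIndependent.pair_iff]
    intro u v huv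
    apply hf' u v
    have : u • (M₁ a - M₁ b) + v • (M₂ a - M₂ b)
        = -(u • (M₁ b - M₁ a) + v • (M₂ b - M₂ a)) := by
      rw [smul_sub, smul_sub, smul_sub, smul_sub]; abel
    rw [this, huv, neg_zero]
  have hcases := lambda_zero_or_one B J s t (fun j hj => ⟨(hst j hj).1, (hst j hj).2.1⟩)
    ha hb hc lam (fun M hM => by
      have := hlam M hM
      calc M c - M a = -(M a - M c) := by abel
        _ = lam • (M b - M a) := by rw [this, ← smul_neg, neg_sub])
    ⟨M₁, hM₁, M₂, hM₂, hli⟩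
  rcases hcases with h0 | h0
  · obtain ⟨M, hM, hne⟩ := hNR a ha c hc hac
    have := hlam M hM
    rw [h0, zero_smul, sub_eq_zero] at this
    exact hne this
  · obtain ⟨M, hM, hne⟩ := hNR b hb c hc hbc
    have := hlam M hM
    rw [h0, one_smul] at this
    exact hne (sub_right_injective this).symm

theorem ext3 {B : Finset β} {J : Finset ι} {s t : ι → β}
    (hst : ∀ j ∈ J, s j ∈ B ∧ t j ∈ B ∧ s j ≠ t j) (hNR : NR B J s t (gp ι))
    (hsimple : ∀ i ∈ J, ∀ j ∈ J, i ≠ j → ¬ Par s t i j) (x : β)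
    {e f g : ι} (hef : e ≠ f) (heg : e ≠ g) (hfg : f ≠ g) (hjx : jx J s t x = {e, f, g}) :
    finrank (GF ι) (Mot B J s t (gp ι)) + 9
      ≤ finrank (GF ι) (Mot (B.erase x) (jr J s t x) s t (gp ι)) + 6 := by
  have hex : e ∈ jx J s t x := by rw [hjx]; simp
  have hfx : f ∈ jx J s t x := by rw [hjx]; simp
  have hgx : g ∈ jx J s t x := by rw [hjx]; simp
  have he : e ∈ J := (Finset.mem_filter.1 hex).1
  have hf : f ∈ J := (Finset.mem_filter.1 hfx).1
  have hg : g ∈ J := (Finset.mem_filter.1 hgx).1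
  obtain ⟨a, ha⟩ := exists_joins hex
  obtain ⟨b, hb⟩ := exists_joins hfx
  obtain ⟨c, hc⟩ := exists_joins hgx
  have haB := ha.mem he hst
  have hbB := hb.mem hf hst
  have hcB := hc.mem hg hst
  have hne : ∀ {i j : ι} {y z : β}, i ∈ J → j ∈ J → i ≠ j → Joins s t i x y → Joins s t j x z →
      y ≠ z := by
    intro i j y z hi hj hij h1 h2
    rintro rfl
    apply hsimple i hi j hj hij
    rcases h1 with ⟨h1, h2'⟩ | ⟨h1, h2'⟩ <;> rcases h2 with ⟨h3, h4⟩ | ⟨h3, h4⟩
    · exact Or.inl ⟨h1.trans h3.symm, h2'.trans h4.symm⟩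
    · exact Or.inr ⟨h1.trans h4.symm, h2'.trans h3.symm⟩
    · exact Or.inr ⟨h1.trans h4.symm, h2'.trans h3.symm⟩
    · exact Or.inl ⟨h1.trans h3.symm, h2'.trans h4.symm⟩
  have hab := hne he hf hef ha hb
  have hac := hne he hg heg ha hc
  have hbc := hne hf hg hfg hb hc
  have ha' : a ∈ B.erase x := Finset.mem_erase.2 ⟨haB.2, haB.1⟩
  have hb' : b ∈ B.erase x := Finset.mem_erase.2 ⟨hbB.2, hbB.1⟩
  have hc' : c ∈ B.erase x := Finset.mem_erase.2 ⟨hcB.2, hcB.1⟩
  have hNR' := hNR.rest x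
  have hst' : ∀ j ∈ jr J s t x, s j ∈ B.erase x ∧ t j ∈ B.erase x ∧ s j ≠ t j := by
    intro j hj
    rw [jr, Finset.mem_filter, not_or] at hj
    have := hst j hj.1
    exact ⟨Finset.mem_erase.2 ⟨hj.2.1, this.1⟩, Finset.mem_erase.2 ⟨hj.2.2, this.2.1⟩, this.2.2⟩
  set E := Mot (B.erase x) (jr J s t x) s t (gp ι) with hE
  set A : E →ₗ[GF ι] Tw (GF ι) := (dm (GF ι) a b).domRestrict E with hA
  set C : E →ₗ[GF ι] Tw (GF ι) := (dm (GF ι) a c).domRestrict E with hC
  by_cases hTH : TH A C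
  swap
  · unfold TH at hTH
    push Not at hTH
    obtain ⟨p₁, p₂, p₃, M₁, M₂, M₃, hd⟩ := hTH
    exact ext3_free hst x hef heg hfg hjx ha hb hc M₁.2 M₂.2 M₃.2 hd
  · exfalso
    have hA0 : A ≠ 0 := by
      intro h0
      obtain ⟨M, hM, hn⟩ := hNR' a ha' b hb' hab
      have := LinearMap.congr_fun h0 ⟨M, hM⟩
      exact hn (sub_eq_zero.1 this)
    have hC0 : C ≠ 0 := by
      intro h0
      obtain ⟨M, hM, hn⟩ := hNR' a ha' c hc' hac
      have := LinearMap.congr_fun h0 ⟨M, hM⟩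
      exact hn (sub_eq_zero.1 this)
    have hCA : C ≠ A := by
      intro h0
      obtain ⟨M, hM, hn⟩ := hNR' b hb' c hc' hbc
      have h1 := LinearMap.congr_fun h0 ⟨M, hM⟩
      have h2 : M a - M c = M a - M b := h1
      exact hn (sub_right_injective h2).symm
    -- translation of the small case
    have small : finrank (GF ι) E ≤
        finrank (GF ι) (LinearMap.ker A ⊓ LinearMap.ker C : Submodule (GF ι) E) + 2 → False := by
      intro h
      apply ext3_small hst hNR x hef heg hfg hjx ha hb hc hab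
      have h2 : (Mot (B.erase x) (jr J s t x) s t (gp ι) ⊓
        (LinearMap.ker (dm (GF ι) a b) ⊓ LinearMap.ker (dm (GF ι) a c)) :
          Submodule (GF ι) (β → Tw (GF ι)))
          = (LinearMap.ker A ⊓ LinearMap.ker C : Submodule (GF ι) E).map E.subtype := by
        ext M
        constructor
        · rintro ⟨h1, h2, h3⟩
          exact ⟨⟨M, h1⟩, ⟨h2, h3⟩, rfl⟩
        · rintro ⟨M, ⟨h2, h3⟩, rfl⟩
          exact ⟨M.2, h2, h3⟩
      rw [h2, Submodule.finrank_map_subtype_eq]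
      exact h
    have rangeA : LinearMap.range A = E.map (dm (GF ι) a b) := by
      rw [hA, LinearMap.range_domRestrict]
    have rangeC : LinearMap.range C = E.map (dm (GF ι) a c) := by
      rw [hC, LinearMap.range_domRestrict]
    rcases triangle_lemma A C hA0 hC0 hCA hTH with ⟨lam, hlam⟩ | ⟨lam, hlam⟩ | h
    · by_cases hr : 2 ≤ finrank (GF ι) (LinearMap.range A)
      · rw [rangeA] at hr
        exact prop_contra hst' hNR' ha' hb' hc' hac hbc (lam := lam) (fun M hM => by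
          have := LinearMap.congr_fun hlam ⟨M, hM⟩
          exact this) hr
      · apply small
        have h1 := LinearMap.finrank_range_add_finrank_ker A
        have h2 : LinearMap.ker A ≤ LinearMap.ker A ⊓ LinearMap.ker C := by
          refine le_inf le_rfl ?_
          intro M hM
          rw [LinearMap.mem_ker] at hM ⊢
          rw [hlam, LinearMap.smul_apply, hM, smul_zero]
        have h3 := Submodule.finrank_mono h2
        omega
    · by_cases hr : 2 ≤ finrank (GF ι) (LinearMap.range C)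
      · rw [rangeC] at hr
        exact prop_contra hst' hNR' ha' hc' hb' hab hbc.symm (lam := lam) (fun M hM => by
          have := LinearMap.congr_fun hlam ⟨M, hM⟩
          exact this) hr
      · apply small
        have h1 := LinearMap.finrank_range_add_finrank_ker C
        have h2 : LinearMap.ker C ≤ LinearMap.ker A ⊓ LinearMap.ker C := by
          refine le_inf ?_ le_rfl
          intro M hM
          rw [LinearMap.mem_ker] at hM ⊢
          rw [hlam, LinearMap.smul_apply, hM, smul_zero]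
        have h3 := Submodule.finrank_mono h2
        omega
    · exact small h

/-- every body counts its joints -/
theorem sum_card_jx {B : Finset β} {J : Finset ι} {s t : ι → β}
    (hst : ∀ j ∈ J, s j ∈ B ∧ t j ∈ B ∧ s j ≠ t j) :
    ∑ x ∈ B, (jx J s t x).card = 2 * J.card := by
  have h1 : ∀ x ∈ B, (jx J s t x).card
      = ∑ j ∈ J, ((if s j = x then 1 else 0) + (if t j = x then 1 else 0)) := by
    intro x _
    rw [jx, Finset.card_filter]
    refine Finset.sum_congr rfl fun j hj => ?_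
    have := (hst j hj).2.2
    by_cases h1 : s j = x
    · have h2 : t j ≠ x := fun h => this (h1.trans h.symm)
      simp [h1, h2]
    · simp [h1]
  rw [Finset.sum_congr rfl h1, Finset.sum_comm]
  have h2 : ∀ j ∈ J, ∑ x ∈ B, ((if s j = x then 1 else 0) + (if t j = x then 1 else 0)) = 2 := by
    intro j hj
    rw [Finset.sum_add_distrib, Finset.sum_ite_eq, Finset.sum_ite_eq, if_pos (hst j hj).1,
      if_pos (hst j hj).2.1]
  rw [Finset.sum_congr rfl h2, Finset.sum_const, smul_eq_mul, mul_comm]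

/-- the bound for structures without parallel joints -/
theorem simple_bound (n : ℕ) : ∀ (B : Finset β) (J : Finset ι) (s t : ι → β),
    B.card + J.card = n → (∀ j ∈ J, s j ∈ B ∧ t j ∈ B ∧ s j ≠ t j) → NR B J s t (gp ι) →
    (∀ i ∈ J, ∀ j ∈ J, i ≠ j → ¬ Par s t i j) →
    finrank (GF ι) (Mot B J s t (gp ι)) + 3 * J.card ≤ 6 * B.card := by
  induction n using Nat.strong_induction_on with
  | _ n ih =>
  intro B J s t hn hst hNR hsimple
  rcases Finset.eq_empty_or_nonempty B with rfl | hB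
  · have hJ : J = ∅ := by
      rw [Finset.eq_empty_iff_forall_notMem]
      intro j hj
      exact absurd (hst j hj).1 (Finset.notMem_empty _)
    have hbot : Mot (K := GF ι) (∅ : Finset β) J s t (gp ι) = ⊥ := by
      rw [eq_bot_iff]
      intro M hM
      rw [Submodule.mem_bot]
      funext b
      exact hM.1 b (Finset.notMem_empty _)
    rw [hbot, hJ, finrank_bot]
    simp
  by_cases hdeg : ∀ x ∈ B, 4 ≤ (jx J s t x).card
  · -- all degrees at least four
    exfalso
    have hsum := sum_card_jx hst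
    have h4 : 4 * B.card ≤ ∑ x ∈ B, (jx J s t x).card := by
      calc 4 * B.card = ∑ x ∈ B, 4 := by rw [Finset.sum_const, smul_eq_mul, mul_comm]
        _ ≤ _ := Finset.sum_le_sum hdeg
    have hBpos := hB.card_pos
    have hJpos : 0 < J.card := by omega
    obtain ⟨j, hj⟩ := Finset.card_pos.1 hJpos
    have hlt : B.card + (J.erase j).card < n := by
      rw [Finset.card_erase_of_mem hj]; omega
    have := ih _ hlt B (J.erase j) s t rfl (fun i hi => hst i (Finset.mem_of_mem_erase hi))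
      (hNR.mono (Finset.erase_subset _ _))
      (fun i hi k hk => hsimple i (Finset.mem_of_mem_erase hi) k (Finset.mem_of_mem_erase hk))
    rw [Finset.card_erase_of_mem hj] at this
    have h6 := six_le (K := GF ι) (J := J.erase j) (s := s) (t := t)
      (fun i hi => ⟨(hst i (Finset.mem_of_mem_erase hi)).1,
        (hst i (Finset.mem_of_mem_erase hi)).2.1⟩) (gp ι) hB
    omega
  · push Not at hdeg
    obtain ⟨x, hx, hdx⟩ := hdeg
    have hcard := card_jx_jr J s t x
    have hBe := Finset.card_erase_of_mem hx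
    have hBpos := hB.card_pos
    have hst' : ∀ j ∈ jr J s t x, s j ∈ B.erase x ∧ t j ∈ B.erase x ∧ s j ≠ t j := by
      intro j hj
      rw [jr, Finset.mem_filter, not_or] at hj
      have := hst j hj.1
      exact ⟨Finset.mem_erase.2 ⟨hj.2.1, this.1⟩, Finset.mem_erase.2 ⟨hj.2.2, this.2.1⟩, this.2.2⟩
    have hlt : (B.erase x).card + (jr J s t x).card < n := by omega
    have hIH := ih _ hlt (B.erase x) (jr J s t x) s t rfl hst' (hNR.rest x)
      (fun i hi k hk => hsimple i (Finset.mem_filter.1 hi).1 k (Finset.mem_filter.1 hk).1)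
    have key : finrank (GF ι) (Mot B J s t (gp ι)) + 3 * (jx J s t x).card
        ≤ finrank (GF ι) (Mot (B.erase x) (jr J s t x) s t (gp ι)) + 6 := by
      have h : (jx J s t x).card = 0 ∨ (jx J s t x).card = 1 ∨ (jx J s t x).card = 2 ∨
          (jx J s t x).card = 3 := by omega
      rcases h with h | h | h | h
      · rw [h]; simpa using ext0 hst x
      · obtain ⟨e, he⟩ := Finset.card_eq_one.1 h
        rw [h]; exact ext1 hst x he
      · obtain ⟨e, f, hef, he⟩ := Finset.card_eq_two.1 h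
        rw [h]; exact ext2 hst hNR hsimple x hef he
      · obtain ⟨e, f, g, hef, heg, hfg, he⟩ := Finset.card_eq_three.1 h
        rw [h]; exact ext3 hst hNR hsimple x hef heg hfg he
    omega

theorem gp_pair {e f : ι} (hef : e ≠ f) : LinearIndependent (GF ι) ![gp ι e, gp ι f] := by
  have := gp_linearIndependent (n := 2) (by norm_num) ![e, f] (by
    intro i j hij
    fin_cases i <;> fin_cases j
    · rfl
    · exact absurd hij hef
    · exact absurd hij.symm hef
    · rfl)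
  have heq : ![gp ι e, gp ι f] = fun i => gp ι (![e, f] i) := by
    funext i; fin_cases i <;> rfl
  rw [heq]; exact this

/-- a second joint between two bodies -/
theorem twin_bound {B : Finset β} {J : Finset ι} {s t : ι → β}
    (hst : ∀ j ∈ J, s j ∈ B ∧ t j ∈ B ∧ s j ≠ t j) (hNR : NR B J s t (gp ι)) {e e' : ι}
    (he : e ∈ J) (he' : e' ∈ J) (hne : e' ≠ e) (hpar : Par s t e' e) :
    finrank (GF ι) (Mot B J s t (gp ι)) + 2 ≤ finrank (GF ι) (Mot B (J.erase e) s t (gp ι)) := by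
  have hj : Joins s t e (s e) (t e) := Or.inl ⟨rfl, rfl⟩
  have hj' : Joins s t e' (s e) (t e) := hpar
  have h3 := three_le_rel hst hNR he hj
  set E := Mot B (J.erase e) s t (gp ι) with hE
  have hle : E.map (dm (GF ι) (s e) (t e)) ≤ van1 (gp ι e') := by
    rintro _ ⟨M, hM, rfl⟩
    have := hj'.ev_eq hM (Finset.mem_erase.2 ⟨hne, he'⟩)
    change ev (M (s e) - M (t e)) (gp ι e') = 0
    rw [ev_sub_left, this, sub_self]
  have he0 : ∀ i : ι, gp ι i ≠ 0 := by
    intro i
    have := gp_linearIndependent (n := 1) (by norm_num) (fun _ : Fin 1 => i)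
      (fun a b _ => Subsingleton.elim a b)
    exact this.ne_zero 0
  have h4 := Submodule.finrank_mono hle
  rw [finrank_van1 (he0 e')] at h4
  have heq : E.map (dm (GF ι) (s e) (t e)) = van1 (gp ι e') :=
    Submodule.eq_of_le_of_finrank_le hle (by rw [finrank_van1 (he0 e')]; exact h3)
  have h5 := finrank_comap_inf (dm (GF ι) (s e) (t e)) E (van1 (gp ι e))
  rw [heq, finrank_van1 (he0 e'), finrank_van2 (gp_pair hne)] at h5
  have h6 : Mot B J s t (gp ι) ≤ E ⊓ (van1 (gp ι e)).comap (dm (GF ι) (s e) (t e)) := by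
    intro M hM
    rw [mem_Mot_erase hj he] at hM
    refine ⟨hM.1, ?_⟩
    change ev (M (s e) - M (t e)) (gp ι e) = 0
    rw [ev_sub_left, hM.2, sub_self]
  have h7 := Submodule.finrank_mono h6
  omega

end gen

section final

variable {β ι : Type*} [Fintype β] [DecidableEq β] [Fintype ι] [LinearOrder ι]

open Classical in
theorem tay_bound_aux (n : ℕ) : ∀ (B : Finset β) (J : Finset ι) (s t : ι → β), J.card = n →
    (∀ j ∈ J, s j ∈ B ∧ t j ∈ B ∧ s j ≠ t j) → NR B J s t (gp ι) →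
    finrank (GF ι) (Mot B J s t (gp ι)) + 3 * J.card
      ≤ 6 * B.card + {j ∈ J | ∃ i ∈ J, i < j ∧ Par s t i j}.card := by
  induction n using Nat.strong_induction_on with
  | _ n ih =>
  intro B J s t hn hst hNR
  rcases Finset.eq_empty_or_nonempty {j ∈ J | ∃ i ∈ J, i < j ∧ Par s t i j} with h0 | ⟨e, he⟩
  · have hsimple : ∀ i ∈ J, ∀ j ∈ J, i ≠ j → ¬ Par s t i j := by
      intro i hi j hj hij hpar
      have hno : ∀ k, k ∉ ({j ∈ J | ∃ i ∈ J, i < j ∧ Par s t i j} : Finset ι) := by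
        intro k; rw [h0]; exact Finset.notMem_empty _
      rcases lt_or_gt_of_ne hij with h | h
      · exact hno j (Finset.mem_filter.2 ⟨hj, i, hi, h, hpar⟩)
      · refine hno i (Finset.mem_filter.2 ⟨hi, j, hj, h, ?_⟩)
        rcases hpar with ⟨h1, h2⟩ | ⟨h1, h2⟩
        · exact Or.inl ⟨h1.symm, h2.symm⟩
        · exact Or.inr ⟨h2.symm, h1.symm⟩
    rw [h0, Finset.card_empty, add_zero]
    exact simple_bound _ B J s t rfl hst hNR hsimple
  · have he' := he
    rw [Finset.mem_filter] at he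
    obtain ⟨heJ, e', he'J, hlt, hpar⟩ := he
    have h1 := twin_bound hst hNR heJ he'J hlt.ne hpar
    have hc := Finset.card_erase_of_mem heJ
    have hpos := Finset.card_pos.2 ⟨e, heJ⟩
    have h2 := ih _ (by omega) B (J.erase e) s t rfl
      (fun i hi => hst i (Finset.mem_of_mem_erase hi)) (hNR.mono (Finset.erase_subset _ _))
    have h3 : ({j ∈ J.erase e | ∃ i ∈ J.erase e, i < j ∧ Par s t i j} : Finset ι)
        ⊆ ({j ∈ J | ∃ i ∈ J, i < j ∧ Par s t i j} : Finset ι).erase e := by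
      intro j hj
      rw [Finset.mem_filter] at hj
      obtain ⟨hjJ, i, hi, hij, hp⟩ := hj
      exact Finset.mem_erase.2 ⟨Finset.ne_of_mem_erase hjJ,
        Finset.mem_filter.2 ⟨Finset.mem_of_mem_erase hjJ, i, Finset.mem_of_mem_erase hi, hij, hp⟩⟩
    have h4 := Finset.card_le_card h3
    rw [Finset.card_erase_of_mem he'] at h4
    have h5 := Finset.card_pos.2 ⟨e, he'⟩
    omega

open Classical in
/-- **The dimension bound.** A generic body-and-joint structure, each joint joining two bodies, in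
which no two bodies are rigidly attached to each other, has at most the expected number of degrees
of freedom. -/
theorem tay_bound (B : Finset β) (J : Finset ι) (s t : ι → β)
    (hst : ∀ j ∈ J, s j ∈ B ∧ t j ∈ B ∧ s j ≠ t j) (hNR : NR B J s t (gp ι)) :
    finrank (GF ι) (Mot B J s t (gp ι)) + 3 * J.card
      ≤ 6 * B.card + {j ∈ J | ∃ i ∈ J, i < j ∧ Par s t i j}.card :=
  tay_bound_aux _ B J s t rfl hst hNR

end final

end Pool.Agent.H49BJ
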